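import Pool.Agent.Lib.BVM.Notions

/-!
The real numbers and the irrational numbers inside a model of set theory.
-/

namespace Pool.Agent.Lib.P7aa9af

open Pool.Agent.Lib.BVM

universe u

variable {M : Type u} (E : M → M → Prop)

/-- `q` is a (strict) dense linear order without endpoints on the set `w`. Here `x` is below `y`
if the ordered pair `(x, y)` is an element of `q`, that is `App E q x y`. -/
structure IsDLO (w q : M) : Prop where
  irrefl : ∀ x, E x w → ¬ App E q x x
  trans : ∀ x y z, E x w → E y w → E z w → App E q x y → App E q y z → App E q x z
  total : ∀ x y, E x w → E y w → x = y ∨ App E q x y ∨ App E q y x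
  dense : ∀ x y, E x w → E y w → App E q x y → ∃ z, E z w ∧ App E q x z ∧ App E q z y
  noMin : ∀ x, E x w → ∃ y, E y w ∧ App E q y x
  noMax : ∀ x, E x w → ∃ y, E y w ∧ App E q x y

/-- `c` is a Dedekind cut of `(w, q)`: a nonempty proper subset of `w`, closed downwards, without
a largest element. If `(w, q)` is a countable dense linear order without endpoints, the cuts are
the real numbers. -/
structure IsCut (w q c : M) : Prop where
  sub : ∀ x, E x c → E x w
  ne : ∃ x, E x w ∧ E x c
  proper : ∃ x, E x w ∧ ¬ E x c
  down : ∀ x y, E x w → E y w → App E q x y → E y c → E x c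
  noMax : ∀ x, E x w → E x c → ∃ y, E y w ∧ E y c ∧ App E q x y

/-- The cut `c` is irrational: its complement in `w` has no least element. -/
def IsIrrCut (w q c : M) : Prop :=
  IsCut E w q c ∧ ∀ x, E x w → ¬ E x c → ∃ y, E y w ∧ ¬ E y c ∧ App E q y x

/-- The cut `c` lies in the open interval with the end points `a` and `b`, elements of `w`. -/
def InInt (w q a b c : M) : Prop := E a c ∧ ∃ y, E y w ∧ ¬ E y c ∧ App E q y b

/-- The sequence `f` (a function with domain `w`, the set of natural numbers) of cuts converges to
the cut `x`: every open interval around `x` contains `f(n)` for all `n` from some `m` on. -/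
def ConvTo (w q f x : M) : Prop :=
  ∀ a b, E a w → E b w → InInt E w q a b x →
    ∃ m, E m w ∧ ∀ n, E n w → (n = m ∨ E m n) → ∀ c, App E f n c → InInt E w q a b c

/-- The subspace of all cuts `x` with `P x` of the space of cuts of `(w, q)` is sequential: each
set `C` of points of the space that contains the limits (in the space) of all convergent
sequences of its elements contains every point `x` of the space such that all open intervals
around `x` meet `C`. -/
def SequentialSpace (w q : M) (P : M → Prop) : Prop :=
  ∀ C, (∀ c, E c C → P c) → (∀ f x, IsFun E f w C → P x → ConvTo E w q f x → E x C) →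
    ∀ x, P x → (∀ a b, E a w → E b w → InInt E w q a b x → ∃ c, E c C ∧ InInt E w q a b c) →
      E x C

end Pool.Agent.Lib.P7aa9af
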