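import Pool.Agent.Lib.BVM.SymAbs
import Pool.Agent.Lib.P7aa9af.Defs

/-!
Absoluteness and Boolean values of the notions of `Defs`.
-/

open Set Classical

namespace Pool.Agent.Lib.P7aa9af

open Pool.Agent.Lib.BVM bSet

variable {B : Type} [CompleteBooleanAlgebra B] {S : SymSys B} {U : Ultra B}

theorem abs_dlo {w l : SMod S U} : IsDLO (SE S U) w l ↔ IsDLO (E U) w.1 l.1 := by
  constructor
  · rintro ⟨h1, h2, h3, h4, h5, h6⟩
    refine ⟨fun x hx h => ?_, fun x y z hx hy hz hxy hyz => ?_, fun x y hx hy => ?_,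
      fun x y hx hy hxy => ?_, fun x hx => ?_, fun x hx => ?_⟩
    · exact h1 ⟨x, inN_trans w.2 hx⟩ hx (abs_app.2 h)
    · exact abs_app.1 (h2 ⟨x, inN_trans w.2 hx⟩ ⟨y, inN_trans w.2 hy⟩ ⟨z, inN_trans w.2 hz⟩
        hx hy hz (abs_app.2 hxy) (abs_app.2 hyz))
    · exact (h3 ⟨x, inN_trans w.2 hx⟩ ⟨y, inN_trans w.2 hy⟩ hx hy).imp (fun h => sval_inj.2 h)
        (Or.imp abs_app.1 abs_app.1)
    · obtain ⟨z, hz, ha, hb⟩ := h4 ⟨x, inN_trans w.2 hx⟩ ⟨y, inN_trans w.2 hy⟩ hx hy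
        (abs_app.2 hxy)
      exact ⟨z.1, hz, abs_app.1 ha, abs_app.1 hb⟩
    · obtain ⟨z, hz, ha⟩ := h5 ⟨x, inN_trans w.2 hx⟩ hx
      exact ⟨z.1, hz, abs_app.1 ha⟩
    · obtain ⟨z, hz, ha⟩ := h6 ⟨x, inN_trans w.2 hx⟩ hx
      exact ⟨z.1, hz, abs_app.1 ha⟩
  · rintro ⟨h1, h2, h3, h4, h5, h6⟩
    refine ⟨fun x hx h => h1 x.1 hx (abs_app.1 h), fun x y z hx hy hz hxy hyz => abs_app.2
      (h2 x.1 y.1 z.1 hx hy hz (abs_app.1 hxy) (abs_app.1 hyz)), fun x y hx hy =>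
      (h3 x.1 y.1 hx hy).imp (fun h => sval_inj.1 h) (Or.imp abs_app.2 abs_app.2),
      fun x y hx hy hxy => ?_, fun x hx => ?_, fun x hx => ?_⟩
    · obtain ⟨z, hz, ha, hb⟩ := h4 x.1 y.1 hx hy (abs_app.1 hxy)
      exact ⟨⟨z, inN_trans w.2 hz⟩, hz, abs_app.2 ha, abs_app.2 hb⟩
    · obtain ⟨z, hz, ha⟩ := h5 x.1 hx
      exact ⟨⟨z, inN_trans w.2 hz⟩, hz, abs_app.2 ha⟩
    · obtain ⟨z, hz, ha⟩ := h6 x.1 hx
      exact ⟨⟨z, inN_trans w.2 hz⟩, hz, abs_app.2 ha⟩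

theorem abs_cut {w l c : SMod S U} : IsCut (SE S U) w l c ↔ IsCut (E U) w.1 l.1 c.1 := by
  constructor
  · rintro ⟨h0, h1, h2, h3, h4⟩
    refine ⟨fun x hx => h0 ⟨x, inN_trans c.2 hx⟩ hx, ?_, ?_, fun x y hx hy hxy hyc => ?_,
      fun x hx hxc => ?_⟩
    · obtain ⟨x, hx, hxc⟩ := h1
      exact ⟨x.1, hx, hxc⟩
    · obtain ⟨x, hx, hxc⟩ := h2
      exact ⟨x.1, hx, hxc⟩
    · exact h3 ⟨x, inN_trans w.2 hx⟩ ⟨y, inN_trans w.2 hy⟩ hx hy (abs_app.2 hxy) hyc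
    · obtain ⟨y, hy, hyc, hxy⟩ := h4 ⟨x, inN_trans w.2 hx⟩ hx hxc
      exact ⟨y.1, hy, hyc, abs_app.1 hxy⟩
  · rintro ⟨h0, h1, h2, h3, h4⟩
    refine ⟨fun x hx => h0 x.1 hx, ?_, ?_, fun x y hx hy hxy hyc => h3 x.1 y.1 hx hy
      (abs_app.1 hxy) hyc, fun x hx hxc => ?_⟩
    · obtain ⟨x, hx, hxc⟩ := h1
      exact ⟨⟨x, inN_trans w.2 hx⟩, hx, hxc⟩
    · obtain ⟨x, hx, hxc⟩ := h2
      exact ⟨⟨x, inN_trans w.2 hx⟩, hx, hxc⟩
    · obtain ⟨y, hy, hyc, hxy⟩ := h4 x.1 hx hxc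
      exact ⟨⟨y, inN_trans w.2 hy⟩, hy, hyc, abs_app.2 hxy⟩

theorem abs_irr {w l c : SMod S U} : IsIrrCut (SE S U) w l c ↔ IsIrrCut (E U) w.1 l.1 c.1 := by
  refine and_congr abs_cut ⟨fun h x hx hxc => ?_, fun h x hx hxc => ?_⟩
  · obtain ⟨y, hy, hyc, hyx⟩ := h ⟨x, inN_trans w.2 hx⟩ hx hxc
    exact ⟨y.1, hy, hyc, abs_app.1 hyx⟩
  · obtain ⟨y, hy, hyc, hyx⟩ := h x.1 hx hxc
    exact ⟨⟨y, inN_trans w.2 hy⟩, hy, hyc, abs_app.2 hyx⟩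

theorem abs_int {w l a b c : SMod S U} :
    InInt (SE S U) w l a b c ↔ InInt (E U) w.1 l.1 a.1 b.1 c.1 := by
  refine and_congr Iff.rfl ⟨fun h => ?_, fun h => ?_⟩
  · obtain ⟨y, hy, hyc, hyb⟩ := h
    exact ⟨y.1, hy, hyc, abs_app.1 hyb⟩
  · obtain ⟨y, hy, hyc, hyb⟩ := h
    exact ⟨⟨y, inN_trans w.2 hy⟩, hy, hyc, abs_app.2 hyb⟩

theorem abs_conv {w l f x : SMod S U} :
    ConvTo (SE S U) w l f x ↔ ConvTo (E U) w.1 l.1 f.1 x.1 := by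
  constructor
  · intro h a b ha hb hab
    obtain ⟨m, hm, h1⟩ := h ⟨a, inN_trans w.2 ha⟩ ⟨b, inN_trans w.2 hb⟩ ha hb (abs_int.2 hab)
    refine ⟨m.1, hm, fun n hn hmn c hc => ?_⟩
    have hN := (app_inN hc f.2).2
    exact abs_int.1 (h1 ⟨n, inN_trans w.2 hn⟩ hn (hmn.imp (fun h => sval_inj.1 h) id) ⟨c, hN⟩
      (abs_app.2 hc))
  · intro h a b ha hb hab
    obtain ⟨m, hm, h1⟩ := h a.1 b.1 ha hb (abs_int.1 hab)
    refine ⟨⟨m, inN_trans w.2 hm⟩, hm, fun n hn hmn c hc => ?_⟩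
    exact abs_int.2 (h1 n.1 hn (hmn.imp (fun h => sval_inj.2 h) id) c.1 (abs_app.1 hc))

/-! ### Boolean values -/

theorem BV.isCut (w l c : bSet B) : BV (fun U => IsCut (E U) (q U w) (q U l) (q U c)) := by
  have h : BV (fun U => (∀ x, E U x (q U c) → E U x (q U w)) ∧ (∃ x, E U x (q U w) ∧ E U x (q U c)) ∧
      (∃ x, E U x (q U w) ∧ ¬ E U x (q U c)) ∧
      (∀ x y, E U x (q U w) → E U y (q U w) → App (E U) (q U l) x y → E U y (q U c) →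
        E U x (q U c)) ∧
      (∀ x, E U x (q U w) → E U x (q U c) → ∃ y, E U y (q U w) ∧ E U y (q U c) ∧
        App (E U) (q U l) x y)) := by
    refine BV.and (BV.all fun x => (BV.mem _ _).imp (BV.mem _ _)) (BV.and (BV.ex fun x =>
      (BV.mem _ _).and (BV.mem _ _)) (BV.and (BV.ex fun x => (BV.mem _ _).and (BV.mem _ _).not)
      (BV.and (BV.all fun x => BV.all fun y => ?_) (BV.all fun x => ?_))))
    · exact (BV.mem _ _).imp ((BV.mem _ _).imp ((BV.app _ _ _).imp ((BV.mem _ _).imp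
        (BV.mem _ _))))
    · exact (BV.mem _ _).imp ((BV.mem _ _).imp (BV.ex fun y => (BV.mem _ _).and
        ((BV.mem _ _).and (BV.app _ _ _))))
  obtain ⟨b, hb⟩ := h
  exact ⟨b, fun U => by
    rw [← hb]
    exact ⟨fun h => ⟨h.sub, h.ne, h.proper, h.down, h.noMax⟩,
      fun h => ⟨h.1, h.2.1, h.2.2.1, h.2.2.2.1, h.2.2.2.2⟩⟩⟩

theorem BV.isIrrCut (w l c : bSet B) : BV (fun U => IsIrrCut (E U) (q U w) (q U l) (q U c)) :=
  (BV.isCut w l c).and (BV.all fun x => (BV.mem _ _).imp ((BV.mem _ _).not.imp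
    (BV.ex fun y => (BV.mem _ _).and ((BV.mem _ _).not.and (BV.app _ _ _)))))

theorem BV.inInt (w l a b c : bSet B) :
    BV (fun U => InInt (E U) (q U w) (q U l) (q U a) (q U b) (q U c)) :=
  (BV.mem _ _).and (BV.ex fun y => (BV.mem _ _).and ((BV.mem _ _).not.and (BV.app _ _ _)))

theorem BV.convTo (w l f x : bSet B) :
    BV (fun U => ConvTo (E U) (q U w) (q U l) (q U f) (q U x)) :=
  BV.all fun a => BV.all fun b => (BV.mem _ _).imp ((BV.mem _ _).imp ((BV.inInt _ _ _ _ _).imp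
    (BV.ex fun m => (BV.mem _ _).and (BV.all fun n => (BV.mem _ _).imp
      (((BV.eq _ _).or (BV.mem _ _)).imp (BV.all fun c => (BV.app _ _ _).imp
        (BV.inInt _ _ _ _ _)))))))

end Pool.Agent.Lib.P7aa9af
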