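import Pool.Agent.Lib.P7aa9af.Subst

/-!
The core lemma: a sequentially closed set of subsets of `ω` with support `E0` has elements with
support `E0`.
-/

open Set Topology TopologicalSpace Classical

namespace Pool.Agent.Lib.P7aa9af

open Pool.Agent.Lib.P6aeb5f Pool.Agent.Lib.BVM PiNat

/-! ### Projection -/

/-- the least `E0`-invariant element above `b` -/
noncomputable def Proj (E0 : Set Label) (b : RB X) : RB X := ⨆ g : FixE E0, g.1 b

theorem fixE_refl (E0 : Set Label) : OrderIso.refl (RB X) ∈ FixE E0 :=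
  ⟨Homeomorph.refl X, GG.refl, fun _ _ _ => rfl, RB.img_refl.symm⟩

theorem fixE_trans {E0 : Set Label} {g h : RB X ≃o RB X} (hg : g ∈ FixE E0) (hh : h ∈ FixE E0) :
    g.trans h ∈ FixE E0 := by
  obtain ⟨φ, h1, h2, rfl⟩ := hg
  obtain ⟨ψ, h1', h2', rfl⟩ := hh
  refine ⟨φ.trans ψ, h1.trans h1', fun x u hu => ?_, (RB.img_trans φ ψ).symm⟩
  change (ψ (φ x)).1 u = x.1 u
  rw [h2' _ u hu, h2 _ u hu]

theorem fixE_symm {E0 : Set Label} {g : RB X ≃o RB X} (hg : g ∈ FixE E0) : g.symm ∈ FixE E0 := by
  obtain ⟨φ, h1, h2, rfl⟩ := hg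
  exact ⟨φ.symm, h1.symm, fix_symm h2, (RB.img_symm φ).symm⟩

theorem le_Proj (E0 : Set Label) (b : RB X) : b ≤ Proj E0 b :=
  le_iSup (fun g : FixE E0 => g.1 b) ⟨_, fixE_refl E0⟩

theorem Proj_inv (E0 : Set Label) (b : RB X) : Inv E0 (Proj E0 b) := by
  intro g hg
  unfold Proj
  rw [OrderIso.map_iSup]
  apply le_antisymm
  · exact iSup_le fun h => le_iSup_of_le ⟨h.1.trans g, fixE_trans h.2 hg⟩ le_rfl
  · refine iSup_le fun h => le_iSup_of_le ⟨h.1.trans g.symm, fixE_trans h.2 (fixE_symm hg)⟩ ?_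
    change h.1 b ≤ g (g.symm (h.1 b))
    rw [g.apply_symm_apply]

theorem Proj_mono (E0 : Set Label) {a b : RB X} (h : a ≤ b) : Proj E0 a ≤ Proj E0 b :=
  iSup_mono fun g => g.1.monotone h

theorem Proj_sup (E0 : Set Label) (a b : RB X) : Proj E0 (a ⊔ b) = Proj E0 a ⊔ Proj E0 b := by
  unfold Proj
  rw [← iSup_sup_eq]
  exact iSup_congr fun g => map_sup g.1 a b

/-! ### Coding by finite sequences -/

/-- value of agreement with a (reversed) finite binary sequence -/
noncomputable def zt (z : ℕ → RB X) : List Bool → RB X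
  | [] => ⊤
  | a :: t => zt z t ⊓ (if a then z t.length else (z t.length)ᶜ)

theorem zt_inv {E : Set Label} {z : ℕ → RB X} (hz : ∀ n, Inv E (z n)) (t : List Bool) :
    Inv E (zt z t) := by
  induction t with
  | nil => exact Inv.top
  | cons a t ih =>
    cases a
    · exact ih.inf (hz _).compl
    · exact ih.inf (hz _)

theorem zt_split (z : ℕ → RB X) (t : List Bool) : zt z t = zt z (false :: t) ⊔ zt z (true :: t) := by
  simp only [zt, Bool.false_eq_true, if_false, if_true]
  rw [← inf_sup_left, sup_comm, sup_compl_eq_top, inf_top_eq]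

theorem GoodOp.zt {γ : (ℕ → RB X) → RB X} {E E' : Set Label} {s : X → X}
    {T : RB X → RB X} (h : GoodOp γ E E' s T) {z : ℕ → RB X} (hz : ∀ n, Inv E (z n))
    (t : List Bool) : T (P7aa9af.zt z t) = P7aa9af.zt (fun n => T (z n)) t := by
  induction t with
  | nil => exact h.top
  | cons a t ih =>
    cases a
    · simp only [P7aa9af.zt, Bool.false_eq_true, if_false]
      rw [h.inf _ _ (zt_inv hz t) (hz _).compl, h.compl _ (hz _), ih]
    · simp only [P7aa9af.zt, if_true]
      rw [h.inf _ _ (zt_inv hz t) (hz _), ih]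

theorem zt_congr {d : RB X} {z z' : ℕ → RB X} (h : ∀ n, d ⊓ z n = d ⊓ z' n) (t : List Bool) :
    d ⊓ zt z t = d ⊓ zt z' t := by
  induction t with
  | nil => rfl
  | cons a t ih =>
    have h1 : d ⊓ (z t.length)ᶜ = d ⊓ (z' t.length)ᶜ := by
      have h2 : ∀ c : RB X, d ⊓ cᶜ = d ⊓ (d ⊓ c)ᶜ := fun c => by
        rw [compl_inf, inf_sup_left, inf_compl_self, bot_sup_eq]
      rw [h2 (z t.length), h2 (z' t.length), h]
    cases a
    · simp only [zt, Bool.false_eq_true, if_false]
      rw [inf_inf_distrib_left d (zt z t), ih, h1, ← inf_inf_distrib_left]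
    · simp only [zt, if_true]
      rw [inf_inf_distrib_left d (zt z t), ih, h, ← inf_inf_distrib_left]

/-- the condition of convergence -/
noncomputable def convB (R : ℕ → ℕ → RB X) (y : ℕ → RB X) : RB X :=
  ⨅ k, ⨆ m0 : ℕ, ⨅ m : ℕ, ⨅ _ : m0 ≤ m, eqv (R m k) (y k)

/-- mixing -/
noncomputable def mixB (D : ℕ → RB X) (z : ℕ → ℕ → RB X) (k : ℕ) : RB X := ⨆ i, D i ⊓ z i k

theorem mixB_eq {D : ℕ → RB X} (hD : ∀ i j, i ≠ j → D i ⊓ D j = ⊥) (z : ℕ → ℕ → RB X) (i k : ℕ) :
    D i ⊓ mixB D z k = D i ⊓ z i k := by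
  unfold mixB
  rw [inf_iSup_eq]
  apply le_antisymm
  · refine iSup_le fun j => ?_
    by_cases hij : i = j
    · subst hij
      exact inf_le_right
    · rw [← inf_assoc, hD i j hij, bot_inf_eq]
      exact bot_le
  · exact le_iSup_of_le i (le_inf inf_le_left le_rfl)

/-- disjointification -/
noncomputable def disj (a : ℕ → RB X) (i : ℕ) : RB X := a i ⊓ (⨆ j : ℕ, ⨆ _ : j < i, a j)ᶜ

theorem disj_le (a : ℕ → RB X) (i : ℕ) : disj a i ≤ a i := inf_le_left

theorem disj_disj (a : ℕ → RB X) (i j : ℕ) (h : i ≠ j) : disj a i ⊓ disj a j = ⊥ := by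
  have key : ∀ i j, i < j → disj a i ⊓ disj a j = ⊥ := by
    intro i j hij
    rw [← le_bot_iff]
    have h1 : a i ≤ ⨆ k : ℕ, ⨆ _ : k < j, a k := le_iSup_of_le i (le_iSup_of_le hij le_rfl)
    calc disj a i ⊓ disj a j ≤ (⨆ k : ℕ, ⨆ _ : k < j, a k) ⊓ (⨆ k : ℕ, ⨆ _ : k < j, a k)ᶜ :=
          inf_le_inf ((disj_le a i).trans h1) inf_le_right
      _ = ⊥ := inf_compl_self _
      _ ≤ ⊥ := le_rfl
  rcases lt_or_gt_of_ne h with h | h
  · exact key i j h
  · rw [inf_comm]; exact key j i h

theorem le_iSup_disj (a : ℕ → RB X) : ⨆ i, a i ≤ ⨆ i, disj a i := by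
  refine iSup_le fun i => ?_
  induction i using Nat.strong_induction_on with
  | _ i ih =>
    have h1 : a i ≤ disj a i ⊔ ⨆ j : ℕ, ⨆ _ : j < i, a j := by
      unfold disj
      rw [sup_inf_right, sup_comm _ᶜ, sup_compl_eq_top, inf_top_eq]
      exact le_sup_left
    exact h1.trans (sup_le (le_iSup _ i) (iSup_le fun j => iSup_le fun hj => ih j hj))

theorem disj_inv {E : Set Label} {a : ℕ → RB X} (h : ∀ i, Inv E (a i)) (i : ℕ) :
    Inv E (disj a i) :=
  (h i).inf (Inv.iSup fun j => Inv.iSup fun _ => h j).compl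

/-- antitone sequences -/
theorem iInf_sup_antitone {a b : ℕ → RB X} (ha : Antitone a) (hb : Antitone b) :
    ⨅ i, (a i ⊔ b i) ≤ (⨅ i, a i) ⊔ ⨅ i, b i := by
  rw [iInf_sup_eq]
  refine le_iInf fun i => ?_
  rw [sup_iInf_eq]
  refine le_iInf fun j => ?_
  exact (iInf_le _ (max i j)).trans
    (sup_le_sup (ha (le_max_left i j)) (hb (le_max_right i j)))

/-! ### The leftmost branch -/

section tree

variable (E0 : Set Label) (f : ℕ → RB X) (z : ℕ → RB X)

/-- the set of far out conditions compatible with `t` is unbounded -/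
noncomputable def PhiT (t : List Bool) : RB X := ⨅ i, Proj E0 (f i ⊓ zt z t)

/-- the leftmost branch goes through `t` -/
noncomputable def WT : List Bool → RB X
  | [] => PhiT E0 f z []
  | a :: t => WT t ⊓ (if a then (PhiT E0 f z (false :: t))ᶜ else PhiT E0 f z (false :: t))

/-- the leftmost branch -/
noncomputable def wT (k : ℕ) : RB X := ⨆ t : {t : List Bool // t.length = k}, WT E0 f z (true :: t.1)

theorem PhiT_inv (t : List Bool) : Inv E0 (PhiT E0 f z t) := Inv.iInf fun _ => Proj_inv _ _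

theorem WT_inv (t : List Bool) : Inv E0 (WT E0 f z t) := by
  induction t with
  | nil => exact PhiT_inv E0 f z []
  | cons a t ih =>
    cases a
    · exact ih.inf (PhiT_inv _ _ _ _)
    · exact ih.inf (PhiT_inv _ _ _ _).compl

theorem wT_inv (k : ℕ) : Inv E0 (wT E0 f z k) := Inv.iSup fun _ => WT_inv _ _ _ _

variable {f}

theorem PhiT_split (hf : Antitone f) (t : List Bool) :
    PhiT E0 f z t ≤ PhiT E0 f z (false :: t) ⊔ PhiT E0 f z (true :: t) := by
  have hanti : ∀ t, Antitone fun i => Proj E0 (f i ⊓ zt z t) := fun t i j hij =>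
    Proj_mono E0 (inf_le_inf_right _ (hf hij))
  refine le_trans (le_of_eq ?_) (iInf_sup_antitone (hanti (false :: t)) (hanti (true :: t)))
  unfold PhiT
  refine iInf_congr fun i => ?_
  rw [← Proj_sup, ← inf_sup_left, ← zt_split]

theorem WT_le (hf : Antitone f) (t : List Bool) : WT E0 f z t ≤ PhiT E0 f z t := by
  induction t with
  | nil => exact le_rfl
  | cons a t ih =>
    cases a
    · exact inf_le_right
    · simp only [WT, if_true]
      have h1 := ih.trans (PhiT_split E0 z hf t)
      calc WT E0 f z t ⊓ (PhiT E0 f z (false :: t))ᶜ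
          ≤ (PhiT E0 f z (false :: t) ⊔ PhiT E0 f z (true :: t)) ⊓ (PhiT E0 f z (false :: t))ᶜ :=
            inf_le_inf_right _ h1
        _ ≤ PhiT E0 f z (true :: t) := by
            rw [inf_sup_right, inf_compl_self, bot_sup_eq]
            exact inf_le_left

variable (f)

theorem WT_split (t : List Bool) :
    WT E0 f z t = WT E0 f z (false :: t) ⊔ WT E0 f z (true :: t) := by
  simp only [WT, Bool.false_eq_true, if_false, if_true]
  rw [← inf_sup_left, sup_compl_eq_top, inf_top_eq]

theorem WT_cover (k : ℕ) : WT E0 f z [] ≤ ⨆ t : {t : List Bool // t.length = k}, WT E0 f z t.1 := by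
  induction k with
  | zero => exact le_iSup (fun t : {t : List Bool // t.length = 0} => WT E0 f z t.1) ⟨[], rfl⟩
  | succ k ih =>
    refine ih.trans (iSup_le fun t => ?_)
    rw [WT_split]
    refine sup_le ?_ ?_
    · exact le_iSup (fun t : {t : List Bool // t.length = k + 1} => WT E0 f z t.1)
        ⟨false :: t.1, by simp [t.2]⟩
    · exact le_iSup (fun t : {t : List Bool // t.length = k + 1} => WT E0 f z t.1)
        ⟨true :: t.1, by simp [t.2]⟩

theorem WT_disj : ∀ (t t' : List Bool), t.length = t'.length → t ≠ t' →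
    WT E0 f z t ⊓ WT E0 f z t' = ⊥ := by
  intro t
  induction t with
  | nil =>
    intro t' h1 h2
    exact absurd (List.length_eq_zero_iff.1 h1.symm).symm h2
  | cons a t ih =>
    rintro (_ | ⟨a', t'⟩) h1 h2
    · simp at h1
    · by_cases htt : t = t'
      · subst htt
        have haa : a ≠ a' := fun h => h2 (by rw [h])
        rw [← le_bot_iff]
        cases a <;> cases a'
        · exact absurd rfl haa
        · simp only [WT, Bool.false_eq_true, if_false, if_true]
          calc _ ≤ PhiT E0 f z (false :: t) ⊓ (PhiT E0 f z (false :: t))ᶜ :=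
                inf_le_inf inf_le_right inf_le_right
            _ ≤ ⊥ := (inf_compl_self _).le
        · simp only [WT, Bool.false_eq_true, if_false, if_true]
          calc _ ≤ (PhiT E0 f z (false :: t))ᶜ ⊓ PhiT E0 f z (false :: t) :=
                inf_le_inf inf_le_right inf_le_right
            _ ≤ ⊥ := (compl_inf_self _).le
        · exact absurd rfl haa
      · have h3 := ih t' (by simpa using h1) htt
        rw [← le_bot_iff, ← h3]
        exact inf_le_inf inf_le_left inf_le_left

/-- comparison with the leftmost branch -/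
theorem WT_agree {d : RB X} {R : ℕ → RB X} : ∀ t : List Bool, d ≤ WT E0 f z t → d ≤ zt R t →
    ∀ k < t.length, d ⊓ R k = d ⊓ wT E0 f z k := by
  intro t
  induction t with
  | nil => exact fun _ _ k hk => absurd hk (Nat.not_lt_zero k)
  | cons a t ih =>
    intro h1 h2 k hk
    have h3 : d ≤ WT E0 f z t := h1.trans inf_le_left
    have h4 : d ≤ zt R t := h2.trans inf_le_left
    rcases Nat.lt_succ_iff_lt_or_eq.1 (by simpa using hk) with hk | rfl
    · exact ih h3 h4 k hk
    · cases a
      · simp only [zt, Bool.false_eq_true, if_false] at h2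
        have h5 : d ⊓ R t.length = ⊥ := by
          rw [← le_bot_iff]
          calc d ⊓ R t.length ≤ (R t.length)ᶜ ⊓ R t.length :=
                inf_le_inf_right _ (h2.trans inf_le_right)
            _ ≤ ⊥ := (compl_inf_self _).le
        have h6 : d ⊓ wT E0 f z t.length = ⊥ := by
          rw [← le_bot_iff]
          unfold wT
          rw [inf_iSup_eq]
          refine iSup_le fun t' => ?_
          refine (inf_le_inf_right _ h1).trans ?_
          rw [WT_disj E0 f z (false :: t) (true :: t'.1) (by simp [t'.2]) (by simp)]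
        rw [h5, h6]
      · simp only [zt, if_true] at h2
        have h5 : d ≤ R t.length := h2.trans inf_le_right
        have h6 : d ≤ wT E0 f z t.length :=
          h1.trans (le_iSup (fun t' : {t' : List Bool // t'.length = t.length} =>
            WT E0 f z (true :: t'.1)) ⟨t, rfl⟩)
        rw [inf_eq_left.2 h5, inf_eq_left.2 h6]

end tree

end Pool.Agent.Lib.P7aa9af
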