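import Pool.Agent.Lib.P7aa9af.Transfer

/-!
Cuts of dense linear orders on `ℕ`: the combinatorics at a generic point.
-/

open Set Classical

namespace Pool.Agent.Lib.P7aa9af

variable {r : ℕ → ℕ → Prop}

/-- remove a possible maximum -/
def rh (r : ℕ → ℕ → Prop) (s : ℕ → Prop) (n : ℕ) : Prop := ∃ m, r n m ∧ s m

/-- initial segment -/
def RInit (r : ℕ → ℕ → Prop) (s : ℕ → Prop) : Prop := ∀ n m, r n m → s m → s n

theorem rh_cut (hr : RDLO r) {s : ℕ → Prop} (h : RCut r s) (n : ℕ) : rh r s n ↔ s n := by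
  constructor
  · rintro ⟨m, hm, hs⟩
    exact h.down n m hm hs
  · intro hs
    obtain ⟨m, hm, hnm⟩ := h.noMax n hs
    exact ⟨m, hnm, hm⟩

theorem cut_rh (hr : RDLO r) {s : ℕ → Prop} (h : RInit r s) {a b : ℕ} (ha : s a) (hb : ¬ s b) :
    RCut r (rh r s) := by
  refine ⟨?_, ?_, ?_, ?_⟩
  · obtain ⟨m, hm⟩ := hr.noMin a
    exact ⟨m, a, hm, ha⟩
  · refine ⟨b, ?_⟩
    rintro ⟨m, hbm, hm⟩
    exact hb (h b m hbm hm)
  · rintro n m hnm ⟨k, hmk, hk⟩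
    exact ⟨k, hr.trans n m k hnm hmk, hk⟩
  · rintro n ⟨m, hnm, hm⟩
    obtain ⟨k, hnk, hkm⟩ := hr.dense n m hnm
    exact ⟨k, ⟨m, hkm, hm⟩, hnk⟩

/-- limits of initial segments -/
theorem conv_rh (hr : RDLO r) {R : ℕ → ℕ → Prop} {s : ℕ → Prop} {a b : ℕ}
    (hR : ∀ m, RInit r (R m)) (ha : ∀ m, R m a) (hb : ∀ m, ¬ R m b)
    (hc : ∀ k, ∃ m0, ∀ m, m0 ≤ m → (R m k ↔ s k)) :
    RInit r s ∧ s a ∧ ¬ s b ∧ RCut r (rh r s) ∧ RConv r (fun m => rh r (R m)) (rh r s) := by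
  have h1 : RInit r s := by
    intro n m hnm hm
    obtain ⟨m0, h0⟩ := hc n
    obtain ⟨m1, h1⟩ := hc m
    have h2 := (h1 (max m0 m1) (le_max_right _ _)).2 hm
    exact (h0 (max m0 m1) (le_max_left _ _)).1 (hR _ n m hnm h2)
  have h2 : s a := by
    obtain ⟨m0, h0⟩ := hc a
    exact (h0 m0 le_rfl).1 (ha m0)
  have h3 : ¬ s b := by
    obtain ⟨m0, h0⟩ := hc b
    exact fun h => hb m0 ((h0 m0 le_rfl).2 h)
  refine ⟨h1, h2, h3, cut_rh hr h1 h2 h3, ?_⟩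
  rintro i j ⟨⟨m, him, hm⟩, k, hk, hkj⟩
  obtain ⟨k', hkk', hk'j⟩ := hr.dense k j hkj
  obtain ⟨m0, h0⟩ := hc m
  obtain ⟨m1, h1'⟩ := hc k'
  refine ⟨max m0 m1, fun n hn => ⟨⟨m, him, (h0 n (le_of_max_le_left hn)).2 hm⟩, k', ?_, hk'j⟩⟩
  rintro ⟨t, hk't, ht⟩
  have h4 : R n k' := hR n k' t hk't ht
  have h5 : s k' := (h1' n (le_of_max_le_right hn)).1 h4
  exact hk ⟨k', hkk', h5⟩

theorem exists_left (hr : RDLO r) {s : ℕ → Prop} (h : RCut r s) (n : ℕ) :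
    ∃ a, s a ∧ ∀ i < n, s i → r i a := by
  induction n with
  | zero =>
    obtain ⟨a, ha⟩ := h.ne
    exact ⟨a, ha, fun i hi => absurd hi (Nat.not_lt_zero i)⟩
  | succ n ih =>
    obtain ⟨a, ha, h1⟩ := ih
    by_cases hn : s n
    · obtain ⟨a1, ha1, hna1⟩ := h.noMax n hn
      rcases hr.total a a1 with h2 | h2 | h2
      · subst h2
        refine ⟨a, ha, fun i hi hsi => ?_⟩
        rcases Nat.lt_succ_iff_lt_or_eq.1 hi with hi | rfl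
        · exact h1 i hi hsi
        · exact hna1
      · refine ⟨a1, ha1, fun i hi hsi => ?_⟩
        rcases Nat.lt_succ_iff_lt_or_eq.1 hi with hi | rfl
        · exact hr.trans _ _ _ (h1 i hi hsi) h2
        · exact hna1
      · refine ⟨a, ha, fun i hi hsi => ?_⟩
        rcases Nat.lt_succ_iff_lt_or_eq.1 hi with hi | rfl
        · exact h1 i hi hsi
        · exact hr.trans _ _ _ hna1 h2
    · refine ⟨a, ha, fun i hi hsi => ?_⟩
      rcases Nat.lt_succ_iff_lt_or_eq.1 hi with hi | rfl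
      · exact h1 i hi hsi
      · exact absurd hsi hn

theorem exists_right (hr : RDLO r) {s : ℕ → Prop} (h : RCut r s) (n : ℕ) :
    ∃ b, (∃ k, ¬ s k ∧ r k b) ∧ ∀ j < n, (∃ k, ¬ s k ∧ r k j) → r b j := by
  induction n with
  | zero =>
    obtain ⟨k, hk⟩ := h.proper
    obtain ⟨b, hb⟩ := hr.noMax k
    exact ⟨b, ⟨k, hk, hb⟩, fun i hi => absurd hi (Nat.not_lt_zero i)⟩
  | succ n ih =>
    obtain ⟨b, ⟨k, hk, hkb⟩, h1⟩ := ih
    by_cases hn : ∃ k, ¬ s k ∧ r k n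
    · obtain ⟨k', hk', hkn⟩ := hn
      have h2 : ∃ b', (∃ k, ¬ s k ∧ r k b') ∧ r b' b ∧ r b' n := by
        rcases hr.total b n with h2 | h2 | h2
        · subst h2
          obtain ⟨c, hc1, hc2⟩ := hr.dense k b hkb
          exact ⟨c, ⟨k, hk, hc1⟩, hc2, hc2⟩
        · obtain ⟨c, hc1, hc2⟩ := hr.dense k b hkb
          exact ⟨c, ⟨k, hk, hc1⟩, hc2, hr.trans _ _ _ hc2 h2⟩
        · obtain ⟨c, hc1, hc2⟩ := hr.dense k' n hkn
          exact ⟨c, ⟨k', hk', hc1⟩, hr.trans _ _ _ hc2 h2, hc2⟩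
      obtain ⟨b', hb1, hb2, hb3⟩ := h2
      refine ⟨b', hb1, fun j hj hsj => ?_⟩
      rcases Nat.lt_succ_iff_lt_or_eq.1 hj with hj | rfl
      · exact hr.trans _ _ _ hb2 (h1 j hj hsj)
      · exact hb3
    · refine ⟨b, ⟨k, hk, hkb⟩, fun j hj hsj => ?_⟩
      rcases Nat.lt_succ_iff_lt_or_eq.1 hj with hj | rfl
      · exact h1 j hj hsj
      · exact absurd hsj hn

/-- the approximating intervals at stage `n` -/
def RG (r : ℕ → ℕ → Prop) (s : ℕ → Prop) (n a b : ℕ) : Prop :=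
  RInt r a b s ∧ (∀ i < n, s i → r i a) ∧ ∀ j < n, (∃ k, ¬ s k ∧ r k j) → r b j

theorem exists_RG (hr : RDLO r) {s : ℕ → Prop} (h : RCut r s) (n : ℕ) : ∃ a b, RG r s n a b := by
  obtain ⟨a, ha, h1⟩ := exists_left hr h n
  obtain ⟨b, hb, h2⟩ := exists_right hr h n
  exact ⟨a, b, ⟨ha, hb⟩, h1, h2⟩

theorem conv_RG (hr : RDLO r) {s : ℕ → Prop} {R : ℕ → ℕ → Prop}
    (hR : ∀ n, ∃ a b, ∃ w : ℕ → Prop, RG r s n a b ∧ RInit r w ∧ w a ∧ ¬ w b ∧ ∀ k, R n k ↔ rh r w k) :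
    RConv r R s := by
  rintro i j ⟨hi, k, hk, hkj⟩
  obtain ⟨j', hkj', hj'j⟩ := hr.dense k j hkj
  refine ⟨max i j' + 1, fun n hn => ?_⟩
  obtain ⟨a, b, w, ⟨_, h1, h2⟩, hw, ha, hb, hRw⟩ := hR n
  have hi' : r i a := h1 i (by omega) hi
  have hj' : r b j' := h2 j' (by omega) ⟨k, hk, hkj'⟩
  refine ⟨(hRw i).2 ⟨a, hi', ha⟩, j', ?_, hj'j⟩
  rw [hRw]
  rintro ⟨m, hj'm, hm⟩
  exact hb (hw b m (hr.trans _ _ _ hj' hj'm) hm)

end Pool.Agent.Lib.P7aa9af
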