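import Pool.Agent.Lib.P7aa9af.Main
import Pool.Agent.Lib.P7aa9af.Defs

/-!
Statements about the Boolean valued model, evaluated at generic points.
-/

open Set Topology TopologicalSpace Classical

namespace Pool.Agent.Lib.P7aa9af

open Pool.Agent.Lib.P6aeb5f Pool.Agent.Lib.BVM PiNat bSet

/-- `P` has a Boolean value, which represents `Q` at generic points. -/
def GRep (P : Ultra (RB X) → Prop) (Q : X → Prop) : Prop :=
  ∃ b : RB X, (∀ U, P U ↔ b ∈ U) ∧ RB.Rep b Q

namespace GRep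

variable {P P' : Ultra (RB X) → Prop} {Q Q' : X → Prop}

theorem bv (h : GRep P Q) : BV P := ⟨h.choose, h.choose_spec.1⟩

theorem of_bv (h : BV P) : GRep P (fun x => x ∈ (BVM.bv P).val) :=
  ⟨BVM.bv P, fun U => h.iff U, RB.Rep.self _⟩

theorem of_mem (b : RB X) : GRep (fun U => b ∈ U) (fun x => x ∈ b.val) :=
  ⟨b, fun _ => Iff.rfl, RB.Rep.self _⟩

theorem of_prop (p : Prop) : GRep (fun _ => p) (fun _ => p) := by
  by_cases h : p
  · exact ⟨⊤, fun U => ⟨fun _ => Ultra.top, fun _ => h⟩, RB.Rep.top.congr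
      (Filter.Eventually.of_forall fun _ => ⟨fun _ => h, fun _ => trivial⟩)⟩
  · exact ⟨⊥, fun U => ⟨fun h' => absurd h' h, fun h' => absurd h' Ultra.bot⟩, RB.Rep.bot.congr
      (Filter.Eventually.of_forall fun _ => ⟨fun h => h.elim, fun h' => absurd h' h⟩)⟩

theorem congrL (h : GRep P Q) (hP : ∀ U, P' U ↔ P U) : GRep P' Q := by
  obtain ⟨b, h1, h2⟩ := h
  exact ⟨b, fun U => (hP U).trans (h1 U), h2⟩

theorem congrR (h : GRep P Q) (hQ : ∀ x, Q x ↔ Q' x) : GRep P Q' := by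
  obtain ⟨b, h1, h2⟩ := h
  exact ⟨b, h1, h2.congr (Filter.Eventually.of_forall hQ)⟩

theorem and (h : GRep P Q) (h' : GRep P' Q') : GRep (fun U => P U ∧ P' U) (fun x => Q x ∧ Q' x) := by
  obtain ⟨b, h1, h2⟩ := h
  obtain ⟨b', h1', h2'⟩ := h'
  exact ⟨b ⊓ b', fun U => (and_congr (h1 U) (h1' U)).trans Ultra.inf_iff.symm, h2.inf h2'⟩

theorem or (h : GRep P Q) (h' : GRep P' Q') : GRep (fun U => P U ∨ P' U) (fun x => Q x ∨ Q' x) := by
  obtain ⟨b, h1, h2⟩ := h
  obtain ⟨b', h1', h2'⟩ := h'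
  exact ⟨b ⊔ b', fun U => (or_congr (h1 U) (h1' U)).trans Ultra.sup_iff.symm, h2.sup h2'⟩

theorem not (h : GRep P Q) : GRep (fun U => ¬ P U) (fun x => ¬ Q x) := by
  obtain ⟨b, h1, h2⟩ := h
  exact ⟨bᶜ, fun U => (not_congr (h1 U)).trans Ultra.not_iff.symm, h2.compl⟩

theorem imp (h : GRep P Q) (h' : GRep P' Q') : GRep (fun U => P U → P' U) (fun x => Q x → Q' x) := by
  obtain ⟨b, h1, h2⟩ := h
  obtain ⟨b', h1', h2'⟩ := h'
  exact ⟨b ⇨ b', fun U => (imp_congr (h1 U) (h1' U)).trans Ultra.himp_iff.symm, h2.himp h2'⟩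

/-- Existential quantifier over the natural numbers of the model. -/
theorem bex {P : ∀ U : Ultra (RB X), Mod U → Prop} {Q : ℕ → X → Prop}
    (hbv : ∀ x, BV (fun U => P U (q U x))) (h : ∀ n, GRep (fun U => P U (q U (num n))) (Q n)) :
    GRep (fun U => ∃ m, E U m (q U omega) ∧ P U m) (fun x => ∃ n, Q n x) := by
  choose b h1 h2 using h
  refine ⟨⨆ n, b n, fun U => ?_, RB.Rep.iSup h2⟩
  change (∃ m, E U m (q U omega) ∧ P U m) ↔ _
  rw [los_bex (P := P) (b := fun x => BVM.bv (fun U => P U (q U x)))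
    (fun x U => (hbv x).iff U) omega U]
  have h3 : ∀ n, BVM.bv (fun U => P U (q U (num n))) = b n := fun n =>
    Ultra.ext_of_forall fun U => ((hbv (num n)).iff U).symm.trans (h1 n U)
  have h4 : (⨆ a, (omega : bSet (RB X)).val a ⊓ BVM.bv (fun U => P U (q U (omega.func a)))) =
      ⨆ n, b n := by
    change (⨆ n : ℕ, (⊤ : RB X) ⊓ BVM.bv (fun U => P U (q U (num n)))) = _
    exact iSup_congr fun n => by rw [h3, top_inf_eq]
  rw [h4]

/-- Universal quantifier over the natural numbers of the model. -/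
theorem ball {P : ∀ U : Ultra (RB X), Mod U → Prop} {Q : ℕ → X → Prop}
    (hbv : ∀ x, BV (fun U => P U (q U x))) (h : ∀ n, GRep (fun U => P U (q U (num n))) (Q n)) :
    GRep (fun U => ∀ m, E U m (q U omega) → P U m) (fun x => ∀ n, Q n x) := by
  have h1 := (bex (P := fun U m => ¬ P U m) (fun x => (hbv x).not) (fun n => (h n).not)).not
  refine (h1.congrL fun U => ?_).congrR fun x => ?_
  · push Not; rfl
  · push Not; rfl

/-- transfer from generic points -/
theorem imp_of (h : GRep P Q) (h' : GRep P' Q') (hQ : ∀ᶠ x in residual X, Q x → Q' x)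
    (U : Ultra (RB X)) : P U → P' U := by
  obtain ⟨b, h1, h2⟩ := h
  obtain ⟨b', h1', h2'⟩ := h'
  intro hP
  rw [h1']
  exact Ultra.mono ((h1 U).1 hP) (h2.le h2' hQ)

theorem of_all (h : GRep P Q) (hQ : ∀ᶠ x in residual X, Q x) (U : Ultra (RB X)) : P U :=
  (of_prop True).imp_of h (by filter_upwards [hQ] with x hx _ using hx) U trivial

/-- transfer to generic points -/
theorem resid (h : GRep P Q) (h' : GRep P' Q') (hP : ∀ U, P U → P' U) :
    ∀ᶠ x in residual X, Q x → Q' x := by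
  obtain ⟨b, h1, h2⟩ := h
  obtain ⟨b', h1', h2'⟩ := h'
  have hle : b ≤ b' := Ultra.le_of_forall fun U hU => (h1' U).1 (hP U ((h1 U).2 hU))
  filter_upwards [h2, h2'] with x h3 h4 hx
  exact h4.1 (hle (h3.2 hx))

end GRep

end Pool.Agent.Lib.P7aa9af
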