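import Pool.Agent.Lib.P7aa9af.Real3

/-!
The space of cuts is sequential in the symmetric model.
-/

open Set Topology TopologicalSpace Classical

namespace Pool.Agent.Lib.P7aa9af

open Pool.Agent.Lib.P6aeb5f Pool.Agent.Lib.BVM PiNat bSet

/-- the hypothesis on a set `C` of cuts and a cut `Y` -/
def HypR (r : ℕ → ℕ → Prop) (U : Ultra (RB X)) (C Y : Mod U) : Prop :=
  (∀ c, E U c C → IsCut (E U) (q U omega) (q U (lname (RB X) r)) c) ∧
  (∀ f, InN SS U f → ∀ x, InN SS U x → IsFun (E U) f (q U omega) C →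
    IsCut (E U) (q U omega) (q U (lname (RB X) r)) x →
    ConvTo (E U) (q U omega) (q U (lname (RB X) r)) f x → E U x C) ∧
  IsCut (E U) (q U omega) (q U (lname (RB X) r)) Y ∧
  (∀ a b, E U a (q U omega) → E U b (q U omega) →
    InInt (E U) (q U omega) (q U (lname (RB X) r)) a b Y →
    ∃ c, E U c C ∧ InInt (E U) (q U omega) (q U (lname (RB X) r)) a b c)

theorem bv_HypR (r : ℕ → ℕ → Prop) (C Y : bSet (RB X)) :
    BV (fun U => HypR r U (q U C) (q U Y)) := by
  refine BV.and (BV.all fun c => (BV.mem _ _).imp (BV.isCut _ _ _)) (BV.and ?_ (BV.and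
    (BV.isCut _ _ _) ?_))
  · exact BV.allN fun f => BV.allN fun x => (BV.isFun _ _ _).imp ((BV.isCut _ _ _).imp
      ((BV.convTo _ _ _ _).imp (BV.mem _ _)))
  · exact BV.all fun a => BV.all fun b => (BV.mem _ _).imp ((BV.mem _ _).imp
      ((BV.inInt _ _ _ _ _).imp (BV.ex fun c => (BV.mem _ _).and (BV.inInt _ _ _ _ _))))

theorem chi_ok {C : bSet (RB X)} {E0 : Set Label}
    (hfix : ∀ g ∈ FixE E0, beq (act g C) C = ⊤) : GammaOK E0 (fun c => bmem (rname c) C) where
  ext z z' := by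
    have h := bmem_congr_left (rname z) (rname z') C
    rw [beq_rname, inf_comm] at h
    exact h
  equiv g hg z := by
    change bmem (rname fun n => g (z n)) C = g (bmem (rname z) C)
    rw [← bmem_equiv (hfix g hg) (rname z)]
    exact (bmem_congr_top (act_rname g z) (beq_refl C)).symm

theorem hypR_imp {r : ℕ → ℕ → Prop} (hr : RDLO r) {C Y : bSet (RB X)} (hC : HS SS C)
    (hY : HS SS Y) (U : Ultra (RB X)) (hyp : HypR r U (q U C) (q U Y)) :
    E U (q U Y) (q U C) := by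
  obtain ⟨⟨E0, hE0⟩, hfix⟩ := hC.symm
  obtain ⟨⟨E1, hE1⟩, hfix1⟩ := hY.symm
  have hfix : ∀ g ∈ FixE E0, beq (act g C) C = ⊤ := hfix
  have hfix1 : ∀ g ∈ FixE E1, beq (act g Y) Y = ⊤ := hfix1
  obtain ⟨b0, hb0⟩ := bv_HypR r C Y
  have hχ := chi_ok hfix
  have hYr : ∀ U, b0 ∈ U → q U Y = q U (rname (chr Y)) := fun U hU =>
    eq_rname ((hb0 U).2 hU).2.2.1.sub
  have hmain : b0 ≤ bmem (rname (chr Y)) C := by
    refine real_alg hr hE0 hE1 hχ (c := chr Y) (fun n g hg => chr_inv (hfix1 g hg) n) ?_ ?_ ?_ ?_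
    · intro z
      have h1 := (GRep.of_mem (b0 ⊓ bmem (rname z) C)).resid (grep_cut (r := r) z)
        (fun U hU => ((hb0 U).2 (Ultra.inf_iff.1 hU).1).1 _ (Ultra.inf_iff.1 hU).2)
      filter_upwards [h1] with x h1 h2 h3 using h1 (RB.mem_inf.2 ⟨h2, h3⟩)
    · intro E' hE' R y hR hy b hb hχR hcut hconv
      refine Ultra.le_of_forall fun U hU => ?_
      have hh := (hb0 U).2 (Ultra.mono hU hb)
      refine hh.2.1 (q U (sname R)) ((hs_sname (S := SS) ⟨(show SS.ι from ⟨E', hE'⟩), fun g hg m n => hR m n g hg⟩).inN U)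
        (q U (rname y)) ((hs_rname (S := SS) ⟨(show SS.ι from ⟨E', hE'⟩), fun g hg n => hy n g hg⟩).inN U) ?_ ?_ ?_
      · exact isFun_sname (Ultra.mono hU (le_iInf hχR))
      · exact (GRep.of_mem b).imp_of (grep_cut y) hcut U hU
      · exact (GRep.of_mem b).imp_of (grep_conv R y) hconv U hU
    · refine (GRep.of_mem b0).resid (grep_cut (r := r) (chr Y)) fun U hU => ?_
      rw [← hYr U hU]
      exact ((hb0 U).2 hU).2.2.1
    · intro a b
      have hbv : ∀ x, BV (fun U : Ultra (RB X) => E U (q U x) (q U C) ∧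
          InInt (E U) (q U omega) (q U (lname (RB X) r)) (q U (num a)) (q U (num b)) (q U x)) :=
        fun x => (BV.mem _ _).and (BV.inInt _ _ _ _ _)
      choose bP hbP using hbv
      have h1 : b0 ⊓ iv r (chr Y) a b ≤ ⨆ x : {x : bSet (RB X) // HS SS x}, b0 ⊓ bP x.1 := by
        rw [← inf_iSup_eq]
        refine le_inf inf_le_left (Ultra.le_of_forall fun U hU => ?_)
        obtain ⟨hU0, hU1⟩ := Ultra.inf_iff.1 hU
        rw [← los_exN (P := fun U m => E U m (q U C) ∧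
          InInt (E U) (q U omega) (q U (lname (RB X) r)) (q U (num a)) (q U (num b)) m)
          (fun x U => hbP x U)]
        rw [← GRep.val_eq (grep_int (chr Y) a b) (rep_iv (chr Y) a b), ← hYr U hU0] at hU1
        obtain ⟨c, hc, hint⟩ := ((hb0 U).2 hU0).2.2.2 _ _ (E_num_omega U a) (E_num_omega U b) hU1
        exact ⟨c, inN_trans (hC.inN U) hc, hc, hint⟩
      refine h1.trans (iSup_le fun x => ?_)
      obtain ⟨x, hx⟩ := x
      obtain ⟨⟨E2, hE2⟩, hfix2⟩ := hx.symm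
      refine le_trans (Ultra.le_of_forall fun U hU => ?_)
        (le_iSup (fun z : {z : ℕ → RB X // ∃ E', InI E' ∧ ∀ n, Inv E' (z n)} =>
          b0 ⊓ bmem (rname z.1) C ⊓ iv r z.1 a b)
          ⟨chr x, E2, hE2, fun n g hg => chr_inv (hfix2 g hg) n⟩)
      obtain ⟨hU0, hU1⟩ := Ultra.inf_iff.1 hU
      have hh := (hb0 U).2 hU0
      obtain ⟨hx1, hx2⟩ := (hbP x U).2 hU1
      have hxr : q U x = q U (rname (chr x)) := eq_rname (hh.1 _ hx1).sub
      refine Ultra.inf_iff.2 ⟨Ultra.inf_iff.2 ⟨hU0, ?_⟩, ?_⟩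
      · rw [hxr] at hx1
        exact hx1
      · change iv r (chr x) a b ∈ U
        rw [← GRep.val_eq (grep_int (chr x) a b) (rep_iv (chr x) a b), ← hxr]
        exact hx2
  have hU := (hb0 U).1 hyp
  rw [hYr U hU]
  exact Ultra.mono hU hmain

/-- the order in the symmetric model -/
noncomputable def sl (r : ℕ → ℕ → Prop) (U : Ultra (RB X)) : SMod SS U :=
  ⟨q U (lname (RB X) r), (hs_lname r).inN U⟩

/-- In the symmetric model the space of cuts is sequential. -/
theorem seq_cuts {r : ℕ → ℕ → Prop} (hr : RDLO r) (U : Ultra (RB X)) :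
    SequentialSpace (SE SS U) (somega SS U) (sl r U) (IsCut (SE SS U) (somega SS U) (sl r U)) := by
  intro C hC hseq Y hY hcl
  have key := of_params (S := SS) (P := fun U v => HypR r U (v 0) (v 1) → E U (v 1) (v 0)) 2
    (fun U v v' hv h => by
      rw [← hv 0 (by norm_num), ← hv 1 (by norm_num)]
      exact h)
    (fun V => (bv_HypR r (V 0) (V 1)).imp (BV.mem _ _))
    (fun V hV U => hypR_imp hr (hV 0) (hV 1) U) U (fun i => if i = 0 then C.1 else Y.1)
    (fun i _ => by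
      by_cases h : i = 0
      · simp only [h, if_true]; exact C.2
      · simp only [h, if_false]; exact Y.2)
  refine key ⟨fun c hc => ?_, fun f hf x hx h1 h2 h3 => ?_, ?_, fun a b ha hb hab => ?_⟩
  · exact abs_cut.1 (hC ⟨c, inN_trans C.2 hc⟩ hc)
  · exact hseq ⟨f, hf⟩ ⟨x, hx⟩ (abs_fun.2 h1) (abs_cut.2 h2) (abs_conv.2 h3)
  · exact abs_cut.1 hY
  · obtain ⟨c, hc, hint⟩ := hcl ⟨a, inN_trans (somega SS U).2 ha⟩
      ⟨b, inN_trans (somega SS U).2 hb⟩ ha hb (abs_int.2 hab)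
    exact ⟨c.1, hc, abs_int.1 hint⟩

theorem sl_dlo {r : ℕ → ℕ → Prop} (hr : RDLO r) (U : Ultra (RB X)) :
    IsDLO (SE SS U) (somega SS U) (sl r U) :=
  abs_dlo.2 (grep_dlo.of_all (Filter.Eventually.of_forall fun _ => hr) U)

end Pool.Agent.Lib.P7aa9af
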