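import Pool.Agent.Lib.P7aa9af.Order2
import Pool.Agent.Lib.P7aa9af.Real4

/-!
The set of generic irrational numbers: names.
-/

open Set Topology TopologicalSpace Classical

namespace Pool.Agent.Lib.P7aa9af

open Pool.Agent.Lib.P6aeb5f Pool.Agent.Lib.BVM PiNat bSet

/-! ### Generic points -/

theorem ne_generic {u u' : Label} (h : u ≠ u') : ∀ᶠ x : X in residual X, x.1 u ≠ x.1 u' := by
  have hopen : IsOpen {x : X | x.1 u ≠ x.1 u'} := by
    have h1 : {x : X | x.1 u ≠ x.1 u'} = ⋃ i, {x : X | x.1 u i ≠ x.1 u' i} := by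
      ext x
      simp only [mem_iUnion]
      constructor
      · intro hx
        by_contra hcon
        push Not at hcon
        exact hx (funext fun i => not_not.1 (hcon i))
      · rintro ⟨i, hi⟩ hx
        exact hi (congrFun hx i)
    rw [h1]
    refine isOpen_iUnion fun i => isOpen_of_fd {u, u'} (i + 1) fun x y hxy hx => ?_
    rw [← hxy u (by simp) i (by omega), ← hxy u' (by simp) i (by omega)]
    exact hx
  refine residual_of_dense_open hopen ?_
  rw [dense_iff_inter_open]
  rintro O hO ⟨x, hx⟩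
  obtain ⟨F, n, hF⟩ := P7aa9af.exists_cyl hO hx
  set N := max n u.1.length with hN
  have hext : Ext u.1 (Function.update (x.1 u) N (x.1 u' N + 1)) :=
    ext_congr (fun i hi => by rw [Function.update_of_ne]; omega) (x.2 u)
  refine ⟨upd x u _ hext, hF fun w hw i hi => ?_, ?_⟩
  · by_cases hwu : w = u
    · subst hwu
      rw [upd_same, Function.update_of_ne]
      omega
    · rw [upd_ne _ _ _ hwu]
  · intro heq
    have h1 := congrFun heq N
    rw [upd_same, upd_ne _ _ _ (Ne.symm h), Function.update_self] at h1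
    omega

theorem ne_generic' (u : Label) (f : ℕ → ℤ) : ∀ᶠ x : X in residual X, x.1 u ≠ f := by
  have hopen : IsOpen {x : X | x.1 u ≠ f} := by
    have h1 : {x : X | x.1 u ≠ f} = ⋃ i, {x : X | x.1 u i ≠ f i} := by
      ext x
      simp only [mem_iUnion]
      constructor
      · intro hx
        by_contra hcon
        push Not at hcon
        exact hx (funext fun i => not_not.1 (hcon i))
      · rintro ⟨i, hi⟩ hx
        exact hi (congrFun hx i)
    rw [h1]
    refine isOpen_iUnion fun i => isOpen_of_fd {u} (i + 1) fun x y hxy hx => ?_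
    rw [← hxy u (by simp) i (by omega)]
    exact hx
  refine residual_of_dense_open hopen ?_
  rw [dense_iff_inter_open]
  rintro O hO ⟨x, hx⟩
  obtain ⟨F, n, hF⟩ := P7aa9af.exists_cyl hO hx
  set N := max n u.1.length with hN
  have hext : Ext u.1 (Function.update (x.1 u) N (f N + 1)) :=
    ext_congr (fun i hi => by rw [Function.update_of_ne]; omega) (x.2 u)
  refine ⟨upd x u _ hext, hF fun w hw i hi => ?_, ?_⟩
  · by_cases hwu : w = u
    · subst hwu
      rw [upd_same, Function.update_of_ne]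
      omega
    · rw [upd_ne _ _ _ hwu]
  · intro heq
    have h1 := congrFun heq N
    rw [upd_same, Function.update_self] at h1
    omega

/-! ### The names -/

theorem isClopen_cutf (u : Label) (n : ℕ) : IsClopen {x : X | cutf (x.1 u) n} := by
  obtain ⟨k, hk⟩ := cutf_fd n
  exact isClopen_of_fd {u} k fun x y hxy hx => hk _ _ (fun i hi => hxy u (by simp) i hi) hx

/-- the cut of the coordinate `u` -/
noncomputable def dv (u : Label) (n : ℕ) : RB X := RB.cl {x : X | cutf (x.1 u) n} (isClopen_cutf u n)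

theorem at_dv (u : Label) (x : X) : at' (dv u) x = cutf (x.1 u) :=
  funext fun _ => propext RB.mem_cl

theorem inv_dv {E : Set Label} {u : Label} (hu : u ∈ E) (n : ℕ) : Inv E (dv u n) :=
  Inv.cl _ fun x y hxy hx => by
    change cutf (y.1 u) n
    rw [← hxy u hu]
    exact hx

/-- name of the irrational number of the coordinate `u` -/
noncomputable def dname (u : Label) : bSet (RB X) := rname (dv u)

theorem hs_dname (u : Label) : HS SS (dname u) :=
  hs_rname (S := SS) ⟨(show SS.ι from ⟨{u}, InI.finite (Set.finite_singleton u)⟩),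
    fun g hg n => inv_dv (mem_singleton u) n g hg⟩

/-- name of the set of all these irrational numbers -/
noncomputable def A0 : bSet (RB X) := bSet.mk Label dname (fun _ => ⊤)

theorem beq_of_agree {c c' : ℕ → RB X} {V : Opens X}
    (h : ∀ x ∈ V, ∀ n, x ∈ (c n).val ↔ x ∈ (c' n).val) :
    RO.mk V ≤ beq (rname c) (rname c') := by
  rw [beq_rname]
  refine le_iInf fun n => le_inf ?_ ?_
  · rw [le_himp_iff]
    have h1 : RO.mk V ⊓ c n = RO.mk (V ⊓ (c n).val) := by rw [RB.mk_inf, RO.mk_val]
    rw [h1, RB.mk_le]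
    exact fun x hx => (h x hx.1 n).1 hx.2
  · rw [le_himp_iff]
    have h1 : RO.mk V ⊓ c' n = RO.mk (V ⊓ (c' n).val) := by rw [RB.mk_inf, RO.mk_val]
    rw [h1, RB.mk_le]
    exact fun x hx => (h x hx.1 n).2 hx.2

theorem act_dname_cover {φ : X ≃ₜ X} (hφ : GG φ) (u : Label) :
    (⨆ u', beq (act (RB.img φ) (dname u)) (dname u')) = ⊤ := by
  rw [← top_le_iff]
  intro x _
  obtain ⟨u', hu'⟩ := hφ.2.2 x u
  obtain ⟨V, hV1, hV2, hxV⟩ := eventually_nhds_iff.1 hu'
  refine RB.mem_iSup (b := fun u' => beq (act (RB.img φ) (dname u)) (dname u')) (i := u') ?_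
  have h1 : RO.mk (⟨V, hV2⟩ : Opens X) ≤ beq (rname fun n => RB.img φ (dv u n)) (dname u') := by
    refine beq_of_agree fun y hy n => ?_
    rw [RB.mem_img]
    change (φ.symm y) ∈ (RB.cl _ _).val ↔ y ∈ (RB.cl _ _).val
    rw [RB.mem_cl, RB.mem_cl]
    change cutf ((φ.symm y).1 u) n ↔ cutf (y.1 u') n
    rw [hV1 y hy]
  have h2 : beq (act (RB.img φ) (dname u)) (dname u') =
      beq (rname fun n => RB.img φ (dv u n)) (dname u') :=
    beq_congr_top (act_rname _ _) (beq_refl _)
  rw [h2]
  exact h1 (RB.mem_mk (O := (⟨V, hV2⟩ : Opens X)) hxV)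

theorem bmem_act_A0 {φ : X ≃ₜ X} (hφ : GG φ) (z : bSet (RB X)) :
    bmem z (act (RB.img φ) A0) ≤ bmem z A0 := by
  unfold A0
  rw [act_mk, bmem_mk, bmem_mk]
  refine iSup_le fun u => ?_
  rw [map_top, top_inf_eq]
  have h1 : beq z (act (RB.img φ) (dname u)) ≤ beq z (act (RB.img φ) (dname u)) ⊓
      ⨆ u', beq (act (RB.img φ) (dname u)) (dname u') := by
    rw [act_dname_cover hφ, inf_top_eq]
  refine h1.trans ?_
  rw [inf_iSup_eq]
  refine iSup_mono fun u' => ?_
  rw [top_inf_eq]
  exact beq_trans _ _ _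

theorem hs_A0 : HS SS A0 := by
  refine ⟨?_, fun u => hs_dname u⟩
  refine ⟨(show SS.ι from ⟨∅, InI.finite Set.finite_empty⟩), ?_⟩
  rintro _ ⟨φ, hφ, _, rfl⟩
  refine beq_top_of_bmem fun z => le_antisymm (bmem_act_A0 hφ z) ?_
  change bmem z A0 ≤ bmem z (act (RB.img φ) A0)
  have h1 := bmem_act_A0 hφ.symm (act (RB.img φ).symm z)
  rw [RB.img_symm] at h1
  have h2 := (RB.img φ).monotone h1
  rw [← bmem_act, ← bmem_act, act_act_symm, act_act_symm] at h2
  exact h2

theorem bmem_rname_A0 (c : ℕ → RB X) : bmem (rname c) A0 = ⨆ u, eqB c (dv u) := by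
  unfold A0
  rw [bmem_mk]
  refine iSup_congr fun u => ?_
  rw [top_inf_eq]
  exact beq_rname c (dv u)

theorem rep_eqB (c c' : ℕ → RB X) : RB.Rep (eqB c c') (fun x => ∀ n, at' c x n ↔ at' c' x n) := by
  unfold eqB
  exact RB.Rep.iInf fun n => (RB.Rep.self (c n)).eqv (RB.Rep.self (c' n))

theorem dname_ne {u u' : Label} (h : u ≠ u') : beq (dname u) (dname u') = ⊥ := by
  have h1 : beq (dname u) (dname u') = eqB (dv u) (dv u') := beq_rname _ _
  rw [h1, ← le_bot_iff]
  refine (rep_eqB _ _).le RB.Rep.bot ?_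
  filter_upwards [ne_generic h] with x hx h2
  rw [at_dv, at_dv] at h2
  exact hx (cutf_inj h2)

end Pool.Agent.Lib.P7aa9af
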