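import Pool.Agent.Lib.P7aa9af.Irr1

/-!
The set of generic irrational numbers is sequentially closed in the symmetric model.
-/

open Set Topology TopologicalSpace Classical

namespace Pool.Agent.Lib.P7aa9af

open Pool.Agent.Lib.P6aeb5f Pool.Agent.Lib.BVM PiNat bSet

/-! ### A sequence takes only values in its support -/

/-- value of `F(m) = d` (with uniqueness) -/
noncomputable def av (F : bSet (RB X)) (m : ℕ) (d : bSet (RB X)) : RB X :=
  bmem (bpair (num m) d) F ⊓ ⨅ c, bmem (bpair (num m) c) F ⇨ beq c d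

theorem av_iff {F : bSet (RB X)} {m : ℕ} {d : bSet (RB X)} {U : Ultra (RB X)} :
    av F m d ∈ U ↔ App (E U) (q U F) (q U (num m)) (q U d) ∧
      ∀ c, App (E U) (q U F) (q U (num m)) c → c = q U d := by
  unfold av
  rw [Ultra.inf_iff]
  refine and_congr ?_ ?_
  · rw [app_iff]; exact Iff.rfl
  · rw [los_all (P := fun U c => App (E U) (q U F) (q U (num m)) c → c = q U d)
      (b := fun c => bmem (bpair (num m) c) F ⇨ beq c d) (fun c U => by
        rw [Ultra.himp_iff, app_iff, q_eq]; exact Iff.rfl)]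

theorem av_congr {F : bSet (RB X)} {m : ℕ} {d d' : bSet (RB X)} (h : beq d d' = ⊤) :
    av F m d = av F m d' := by
  apply Ultra.ext_of_forall
  intro U
  rw [av_iff, av_iff, q_congr h U]

theorem av_act {F : bSet (RB X)} {g : RB X ≃o RB X} (hF : beq (act g F) F = ⊤) (m : ℕ)
    (d : bSet (RB X)) : av F m (act g d) = g (av F m d) := by
  have h1 : ∀ c, bmem (bpair (num m) (act g c)) F = g (bmem (bpair (num m) c) F) := by
    intro c
    rw [← bmem_equiv hF]
    refine bmem_congr_top ?_ (beq_refl _)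
    rw [beq_symm]
    exact act_bpair_of (act_num g m) (beq_refl _)
  unfold av
  rw [map_inf, h1, OrderIso.map_iInf]
  congr 1
  apply le_antisymm
  · refine le_iInf fun c => (iInf_le _ (act g c)).trans (le_of_eq ?_)
    rw [BVM.map_himp' g, h1, beq_act]
  · refine le_iInf fun c => (iInf_le _ (act g.symm c)).trans (le_of_eq ?_)
    rw [BVM.map_himp' g, ← h1, ← beq_act, act_act_symm]

theorem av_eq_bot {F : bSet (RB X)} {E : Set Label} (hE : InI E)
    (hF : ∀ g ∈ FixE E, beq (act g F) F = ⊤) (m : ℕ) {u : Label} (hu : u ∉ E) :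
    av F m (dname u) = ⊥ := by
  by_contra hcon
  have hex : ∃ x, x ∈ (av F m (dname u)).val := by
    by_contra h
    push Not at h
    exact hcon (RB.ext_mem fun x => ⟨fun h' => absurd h' (h x),
      fun h' => absurd h' (RB.not_mem_bot x)⟩)
  obtain ⟨x, hx⟩ := hex
  obtain ⟨D, n, hD⟩ := P7aa9af.exists_cyl (av F m (dname u)).val.isOpen hx
  obtain ⟨j, hj1, hj2⟩ := hE.fresh u.1 (insert u D)
  simp only [Finset.mem_insert, not_or] at hj2
  obtain ⟨v, hv⟩ : ∃ v : Label, v = (u.1, j) := ⟨_, rfl⟩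
  rw [← hv] at hj1 hj2
  have hv1 : v.1 = u.1 := by rw [hv]
  have hab : Above u v := fun f hf => by rw [hv1] at hf; exact hf
  have hextv : Ext v.1 (x.1 u) := by rw [hv1]; exact x.2 u
  obtain ⟨y, hy⟩ : ∃ y : X, y = upd x v (x.1 u) hextv := ⟨_, rfl⟩
  have huv : u ≠ v := fun h => hj2.1 h.symm
  have hyu : y.1 u = x.1 u := by rw [hy, upd_ne _ _ _ huv]
  have hyv : y.1 v = x.1 u := by rw [hy, upd_same]
  have hy1 : y ∈ (av F m (dname u)).val := hD fun w hw i hi => by
    rw [hy, upd_ne]
    exact fun h => hj2.2 (h ▸ hw)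
  have hσ : swapH u v hab y = y := by
    apply X.ext
    intro w
    have hc : Ext v.1 (y.1 u) := by rw [hyu]; exact hextv
    rw [swapH_apply, swapFun_pos hc]
    by_cases hwu : w = u
    · subst hwu
      rw [Equiv.swap_apply_left, hyv, hyu]
    · by_cases hwv : w = v
      · subst hwv
        rw [Equiv.swap_apply_right, hyv, hyu]
      · rw [Equiv.swap_apply_of_ne_of_ne hwu hwv]
  have hfix : RB.img (swapH u v hab) ∈ FixE E := ⟨swapH u v hab, GG_swapH hab,
    fun x w hw => swapH_out hab x (fun h => hu (h ▸ hw)) (fun h => hj1 (h ▸ hw)), rfl⟩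
  have hact : beq (act (RB.img (swapH u v hab)) (dname u)) (dname v) = ⊤ := by
    have h1 : beq (act (RB.img (swapH u v hab)) (dname u))
        (rname fun n => RB.img (swapH u v hab) (dv u n)) = ⊤ := act_rname _ _
    have h2 : (fun n => RB.img (swapH u v hab) (dv u n)) = dv v := by
      funext n
      apply RB.ext_mem
      intro z
      rw [RB.mem_img]
      change (swapH u v hab z) ∈ (RB.cl _ _).val ↔ z ∈ (RB.cl _ _).val
      rw [RB.mem_cl, RB.mem_cl]
      change cutf ((swapH u v hab z).1 u) n ↔ cutf (z.1 v) n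
      have hc : Ext v.1 (z.1 u) := by rw [hv1]; exact z.2 u
      rw [swapH_apply, swapFun_pos hc, Equiv.swap_apply_left]
    rw [h2] at h1
    exact h1
  have hy2 : y ∈ (av F m (dname v)).val := by
    rw [← av_congr hact, av_act (hF _ hfix), RB.mem_img, swapH_symm, hσ]
    exact hy1
  have hle : av F m (dname u) ⊓ av F m (dname v) ≤ beq (dname u) (dname v) := by
    refine Ultra.le_of_forall fun U hU => ?_
    obtain ⟨h1, h2⟩ := Ultra.inf_iff.1 hU
    rw [av_iff] at h1 h2
    exact q_eq.1 (h2.2 _ h1.1)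
  have := hle (RB.mem_inf.2 ⟨hy1, hy2⟩)
  rw [dname_ne huv] at this
  exact RB.not_mem_bot y this

/-! ### Convergence at a point -/

theorem limit_mem {E : Set Label} (hE : InI E) (x : X) {um : ℕ → Label} (hum : ∀ n, um n ∈ E)
    {f : ℕ → ℤ} (h : ∀ N, ∃ m0, ∀ n, m0 ≤ n → ∀ i < N, x.1 (um n) i = f i) :
    ∃ u ∈ E, x.1 u = f := by
  obtain ⟨l, hl⟩ := hE.2 f
  obtain ⟨m0, hm0⟩ := h l
  have hfin := hE.finite_suffix (res f l)
  have hmem : ∀ n, m0 ≤ n → um n ∈ {u | u ∈ E ∧ u.1 <:+ res f l} := by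
    intro n hn
    refine ⟨hum n, ?_⟩
    have h1 : res (x.1 (um n)) (um n).1.length = (um n).1 := x.2 (um n)
    have h2 : (um n).1.length < l := by
      by_contra hcon
      push Not at hcon
      apply hl (um n) (hum n)
      have h3 : res f l = res (x.1 (um n)) l := res_eq_res.2 fun i hi => (hm0 n hn i hi).symm
      rw [h3, ← h1]
      exact res_suffix hcon
    have h3 : (um n).1 = res f (um n).1.length := by
      conv_lhs => rw [← h1]
      exact res_eq_res.2 fun i hi => hm0 n hn i (by omega)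
    rw [h3]
    exact res_suffix h2.le
  by_contra hcon
  push Not at hcon
  have hN : ∀ u : Label, ∃ N, u ∈ E → ∃ i < N, x.1 u i ≠ f i := by
    intro u
    by_cases hu : u ∈ E
    · have h1 := hcon u hu
      have h2 : ∃ i, x.1 u i ≠ f i := by
        by_contra h3
        push Not at h3
        exact h1 (funext h3)
      obtain ⟨i, hi⟩ := h2
      exact ⟨i + 1, fun _ => ⟨i, Nat.lt_succ_self i, hi⟩⟩
    · exact ⟨0, fun h => absurd h hu⟩
  choose N hN using hN
  obtain ⟨m1, hm1⟩ := h (hfin.toFinset.sup N)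
  have h1 := hmem (max m0 m1) (le_max_left _ _)
  obtain ⟨i, hi, hne⟩ := hN _ h1.1
  have h2 : N (um (max m0 m1)) ≤ hfin.toFinset.sup N :=
    Finset.le_sup (by rw [Set.Finite.mem_toFinset]; exact h1)
  exact hne (hm1 _ (le_max_right _ _) i (by omega))

/-! ### The main statement -/

/-- the hypothesis on a sequence `F` and a point `Y` -/
def HypI (U : Ultra (RB X)) (F Y : Mod U) : Prop :=
  IsFun (E U) F (q U omega) (q U A0) ∧
  IsIrrCut (E U) (q U omega) (q U (lname (RB X) rr)) Y ∧
  ConvTo (E U) (q U omega) (q U (lname (RB X) rr)) F Y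

theorem bv_HypI (F Y : bSet (RB X)) : BV (fun U => HypI U (q U F) (q U Y)) :=
  (BV.isFun _ _ _).and ((BV.isIrrCut _ _ _).and (BV.convTo _ _ _ _))

theorem hypI_imp {F Y : bSet (RB X)} (hF : HS SS F) (U : Ultra (RB X))
    (hyp : HypI U (q U F) (q U Y)) : E U (q U Y) (q U A0) := by
  obtain ⟨⟨E0, hE⟩, hfix⟩ := hF.symm
  have hfix : ∀ g ∈ FixE E0, beq (act g F) F = ⊤ := hfix
  obtain ⟨b0, hb0⟩ := bv_HypI F Y
  have hYr : ∀ U, b0 ∈ U → q U Y = q U (rname (chr Y)) := fun U hU =>
    eq_rname ((hb0 U).2 hU).2.1.1.sub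
  -- the point is an irrational cut
  have f1 : ∀ᶠ x in residual X, x ∈ b0.val → RIrr rr (at' (chr Y) x) := by
    refine (GRep.of_mem b0).resid (grep_irr (r := rr) (chr Y)) fun U hU => ?_
    rw [← hYr U hU]
    exact ((hb0 U).2 hU).2.1
  -- the values of the sequence
  have f2 : ∀ m, b0 ≤ ⨆ u, av F m (dname u) := by
    intro m
    refine Ultra.le_of_forall fun U hU => ?_
    have hh := ((hb0 U).2 hU).1
    obtain ⟨c, hc, huniq⟩ := hh.1.2 (q U (num m)) (E_num_omega U m)
    have hcA := hh.2 _ _ hc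
    obtain ⟨Z, rfl⟩ := q_surj c
    refine of_mem (X := A0) (Z := Z) (P := fun U => (⨆ u, av F m (dname u)) ∈ U)
      (Q := fun U => App (BVM.E U) (q U F) (q U (num m)) (q U Z) ∧
        ∀ c, App (BVM.E U) (q U F) (q U (num m)) c → c = q U Z) (BV.of_mem _)
      ((BV.app _ _ _).and (BV.all fun c => (BV.app _ _ _).imp (BV.eq _ _)))
      (fun u U _ hZ hQ => ?_) hcA ⟨hc, huniq⟩
    have hZ : q U Z = q U (dname u) := hZ
    rw [hZ] at hQ
    exact Ultra.mono (av_iff.2 hQ) (le_iSup (fun u => av F m (dname u)) u)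
  have f2' : ∀ᶠ x in residual X, ∀ m, x ∈ b0.val → ∃ u ∈ E0, x ∈ (av F m (dname u)).val := by
    rw [eventually_countable_forall]
    intro m
    have h1 : RB.Rep (⨆ u, av F m (dname u)) (fun x => ∃ u, x ∈ (av F m (dname u)).val) :=
      RB.Rep.iSup fun u => RB.Rep.self _
    filter_upwards [h1] with x h1 hx
    obtain ⟨u, hu⟩ := h1.1 (f2 m hx)
    by_cases huE : u ∈ E0
    · exact ⟨u, huE, hu⟩
    · rw [av_eq_bot hE hfix m huE] at hu
      exact absurd hu (RB.not_mem_bot x)
  -- convergence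
  have f3 : ∀ᶠ x in residual X, ∀ a b : ℕ, x ∈ b0.val → RInt rr a b (at' (chr Y) x) →
      ∃ m0, ∀ n, m0 ≤ n → ∀ u, x ∈ (av F n (dname u)).val → RInt rr a b (cutf (x.1 u)) := by
    rw [eventually_countable_forall]
    intro a
    rw [eventually_countable_forall]
    intro b
    have hbv : ∀ n, BV (fun U : Ultra (RB X) => ∀ d, App (BVM.E U) (q U F) (q U n) d →
        InInt (BVM.E U) (q U omega) (q U (lname (RB X) rr)) (q U (num a)) (q U (num b)) d) :=
      fun n => BV.all fun d => (BV.app _ _ _).imp (BV.inInt _ _ _ _ _)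
    obtain ⟨bn, hbn⟩ : ∃ bn : ℕ → RB X, ∀ n, ∀ U, (∀ d, App (BVM.E U) (q U F) (q U (num n)) d →
        InInt (BVM.E U) (q U omega) (q U (lname (RB X) rr)) (q U (num a)) (q U (num b)) d) ↔
        bn n ∈ U := by
      choose bn hbn using fun n : ℕ => hbv (num n)
      exact ⟨bn, hbn⟩
    have hG : GRep (fun U => ∃ m, BVM.E U m (q U omega) ∧ ∀ n, BVM.E U n (q U omega) →
        (n = m ∨ BVM.E U m n) → ∀ d, App (BVM.E U) (q U F) n d →
        InInt (BVM.E U) (q U omega) (q U (lname (RB X) rr)) (q U (num a)) (q U (num b)) d)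
        (fun x => ∃ m, ∀ n, m ≤ n → x ∈ (bn n).val) := by
      refine GRep.bex (P := fun U m => ∀ n, BVM.E U n (q U omega) →
        (n = m ∨ BVM.E U m n) → ∀ d, App (BVM.E U) (q U F) n d →
        InInt (BVM.E U) (q U omega) (q U (lname (RB X) rr)) (q U (num a)) (q U (num b)) d)
        (fun m => BV.all fun n => (BV.mem _ _).imp (((BV.eq _ _).or (BV.mem _ _)).imp (hbv n)))
        fun m => ?_
      refine GRep.ball (P := fun U n => (n = q U (num m) ∨ BVM.E U (q U (num m)) n) →
        ∀ d, App (BVM.E U) (q U F) n d →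
        InInt (BVM.E U) (q U omega) (q U (lname (RB X) rr)) (q U (num a)) (q U (num b)) d)
        (fun n => ((BV.eq _ _).or (BV.mem _ _)).imp (hbv n)) fun n => ?_
      have h2 : GRep (fun U : Ultra (RB X) => (q U (num n) = q U (num m) ∨
          BVM.E U (q U (num m)) (q U (num n)))) (fun _ => m ≤ n) := by
        refine (GRep.of_prop (m ≤ n)).congrL fun U => ?_
        rw [E_num_num]
        constructor
        · rintro (h | h)
          · exact (num_inj h).ge
          · exact h.le
        · intro h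
          rcases h.eq_or_lt with rfl | h
          · exact Or.inl rfl
          · exact Or.inr h
      exact h2.imp ((GRep.of_mem (bn n)).congrL (hbn n))
    have h1 := ((GRep.of_mem b0).and (grep_int (r := rr) (chr Y) a b)).resid hG (fun U hU => by
      obtain ⟨hU0, hU1⟩ := hU
      rw [← hYr U hU0] at hU1
      exact ((hb0 U).2 hU0).2.2 _ _ (E_num_omega U a) (E_num_omega U b) hU1)
    have h2 : ∀ᶠ x in residual X, ∀ n : ℕ, ∀ u : Label, x ∈ (bn n).val →
        x ∈ (av F n (dname u)).val → RInt rr a b (cutf (x.1 u)) := by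
      rw [eventually_countable_forall]
      intro n
      rw [eventually_countable_forall]
      intro u
      have h3 := ((GRep.of_mem (bn n)).and (GRep.of_mem (av F n (dname u)))).resid
        (grep_int (r := rr) (dv u) a b) (fun U hU => (hbn n U).2 hU.1 _ (av_iff.1 hU.2).1)
      filter_upwards [h3] with x h3 h4 h5
      have := h3 ⟨h4, h5⟩
      rwa [at_dv] at this
    filter_upwards [h1, h2] with x h1 h2 hx hint
    obtain ⟨m0, hm0⟩ := h1 ⟨hx, hint⟩
    exact ⟨m0, fun n hn u hu => h2 n u (hm0 n hn) hu⟩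
  -- conclusion
  have hmain : b0 ≤ bmem (rname (chr Y)) A0 := by
    rw [bmem_rname_A0]
    have hrep : RB.Rep (⨆ u, eqB (chr Y) (dv u))
        (fun x => ∃ u, ∀ n, at' (chr Y) x n ↔ at' (dv u) x n) :=
      RB.Rep.iSup fun u => rep_eqB _ _
    refine le_of_cond ?_
    filter_upwards [f1, f2', f3, hrep] with x h1 h2 h3 h4 hx
    rw [h4]
    obtain ⟨f, hf⟩ := exists_cutf (h1 hx)
    have hf' : at' (chr Y) x = cutf f := funext fun n => propext (hf n)
    choose um hum using fun m => h2 m hx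
    obtain ⟨u, _, hu⟩ := limit_mem hE x (fun n => (hum n).1) (f := f) fun N => by
      obtain ⟨a, b, hab, hN⟩ := exists_rint f N
      obtain ⟨m0, hm0⟩ := h3 a b hx (by rw [hf']; exact hab)
      exact ⟨m0, fun n hn => hN _ (hm0 n hn (um n) (hum n).2)⟩
    refine ⟨u, fun n => ?_⟩
    rw [hf', at_dv, hu]
  have hU := (hb0 U).1 hyp
  rw [hYr U hU]
  exact Ultra.mono hU hmain

end Pool.Agent.Lib.P7aa9af
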