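import Pool.Agent.Lib.P7aa9af.Irr2

/-!
The space of irrational cuts is not sequential in the symmetric model.
-/

open Set Topology TopologicalSpace Classical

namespace Pool.Agent.Lib.P7aa9af

open Pool.Agent.Lib.P6aeb5f Pool.Agent.Lib.BVM PiNat bSet

/-- the cut of the zero sequence -/
noncomputable def zv (n : ℕ) : RB X := if cutf (fun _ => 0) n then ⊤ else ⊥

theorem at_zv (x : X) : at' zv x = cutf (fun _ => 0) := by
  funext n
  unfold at' zv
  by_cases h : cutf (fun _ => 0) n
  · rw [if_pos h]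
    exact propext ⟨fun _ => h, fun _ => RB.mem_top x⟩
  · rw [if_neg h]
    exact propext ⟨fun h' => absurd h' (RB.not_mem_bot x), fun h' => absurd h' h⟩

theorem hs_zv : HS SS (rname zv) := by
  refine hs_rname (S := SS) ⟨(show SS.ι from ⟨∅, InI.finite Set.finite_empty⟩), fun g _ n => ?_⟩
  unfold zv
  by_cases h : cutf (fun _ => 0) n
  · rw [if_pos h, map_top]
  · rw [if_neg h, map_bot]

theorem zv_not_mem : bmem (rname zv) A0 = ⊥ := by
  rw [bmem_rname_A0, ← le_bot_iff]
  refine iSup_le fun u => ?_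
  refine (rep_eqB _ _).le RB.Rep.bot ?_
  filter_upwards [ne_generic' u (fun _ => 0)] with x hx h2
  rw [at_zv, at_dv] at h2
  exact hx (cutf_inj h2).symm

theorem A0_irr (U : Ultra (RB X)) (c : Mod U) (hc : E U c (q U A0)) :
    IsIrrCut (E U) (q U omega) (q U (lname (RB X) rr)) c := by
  obtain ⟨Z, rfl⟩ := q_surj c
  refine of_mem (X := A0) (Z := Z) (P := fun U => IsIrrCut (E U) (q U omega)
    (q U (lname (RB X) rr)) (q U Z)) (Q := fun _ => True) (BV.isIrrCut _ _ _) (BV.const _)
    (fun u U _ hZ _ => ?_) hc trivial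
  have hZ : q U Z = q U (dname u) := hZ
  rw [hZ]
  refine (grep_irr (r := rr) (dv u)).of_all (Filter.Eventually.of_forall fun x => ?_) U
  rw [at_dv]
  exact cutf_irr _

theorem zv_irr (U : Ultra (RB X)) :
    IsIrrCut (E U) (q U omega) (q U (lname (RB X) rr)) (q U (rname zv)) := by
  refine (grep_irr (r := rr) zv).of_all (Filter.Eventually.of_forall fun x => ?_) U
  rw [at_zv]
  exact cutf_irr _

theorem dname_mem (U : Ultra (RB X)) (u : Label) : E U (q U (dname u)) (q U A0) :=
  Ultra.mono Ultra.top (le_bmem_mk dname (fun _ => (⊤ : RB X)) u)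

theorem zv_closure (U : Ultra (RB X)) : ∀ a, E U a (q U omega) → ∀ b, E U b (q U omega) →
    InInt (E U) (q U omega) (q U (lname (RB X) rr)) a b (q U (rname zv)) →
    ∃ c, E U c (q U A0) ∧ InInt (E U) (q U omega) (q U (lname (RB X) rr)) a b c := by
  have hbv : ∀ a b, BV (fun U : Ultra (RB X) =>
      InInt (E U) (q U omega) (q U (lname (RB X) rr)) (q U a) (q U b) (q U (rname zv)) →
      ∃ c, E U c (q U A0) ∧ InInt (E U) (q U omega) (q U (lname (RB X) rr)) (q U a) (q U b) c) :=
    fun a b => (BV.inInt _ _ _ _ _).imp (BV.ex fun c => (BV.mem _ _).and (BV.inInt _ _ _ _ _))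
  refine ball_omega (P := fun U a => ∀ b, E U b (q U omega) →
    InInt (E U) (q U omega) (q U (lname (RB X) rr)) a b (q U (rname zv)) →
    ∃ c, E U c (q U A0) ∧ InInt (E U) (q U omega) (q U (lname (RB X) rr)) a b c)
    (fun a => BV.all fun b => (BV.mem _ _).imp (hbv a b)) (fun a U => ?_) U
  refine ball_omega (P := fun U b =>
    InInt (E U) (q U omega) (q U (lname (RB X) rr)) (q U (num a)) b (q U (rname zv)) →
    ∃ c, E U c (q U A0) ∧ InInt (E U) (q U omega) (q U (lname (RB X) rr)) (q U (num a)) b c)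
    (fun b => hbv (num a) b) (fun b U hint => ?_) U
  have h1 : RInt rr a b (cutf fun _ => 0) := by
    by_contra hcon
    have h2 := (grep_int (r := rr) zv a b).imp_of (GRep.of_prop False)
      (Filter.Eventually.of_forall fun x hx => by rw [at_zv] at hx; exact hcon hx) U hint
    exact h2
  obtain ⟨n, hn⟩ := rint_open h1
  refine ⟨q U (dname (res (fun _ => 0) n, 0)), dname_mem U _, ?_⟩
  refine (grep_int (r := rr) (dv (res (fun _ => 0) n, 0)) a b).of_all
    (Filter.Eventually.of_forall fun x => ?_) U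
  rw [at_dv]
  exact hn _ (ext_iff_res.1 (x.2 (res (fun _ => 0) n, 0)))

/-- In the symmetric model the space of irrational cuts is not sequential. -/
theorem not_seq_irr (U : Ultra (RB X)) :
    ¬ SequentialSpace (SE SS U) (somega SS U) (sl rr U)
      (IsIrrCut (SE SS U) (somega SS U) (sl rr U)) := by
  intro h
  have h1 := h ⟨q U A0, hs_A0.inN U⟩ (fun c hc => abs_irr.2 (A0_irr U c.1 hc)) ?_
    ⟨q U (rname zv), hs_zv.inN U⟩ (abs_irr.2 (zv_irr U)) ?_
  · have h2 : bmem (rname zv) A0 ∈ U := h1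
    rw [zv_not_mem] at h2
    exact Ultra.bot h2
  · intro F Y hF hY hconv
    have key := of_params (S := SS) (P := fun U v => HypI U (v 0) (v 1) → E U (v 1) (q U A0)) 2
      (fun U v v' hv h => by
        rw [← hv 0 (by norm_num), ← hv 1 (by norm_num)]
        exact h)
      (fun V => (bv_HypI (V 0) (V 1)).imp (BV.mem _ _))
      (fun V hV U => hypI_imp (hV 0) U) U (fun i => if i = 0 then F.1 else Y.1)
      (fun i _ => by
        by_cases h : i = 0
        · simp only [h, if_true]; exact F.2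
        · simp only [h, if_false]; exact Y.2)
    exact key ⟨abs_fun.1 hF, abs_irr.1 hY, abs_conv.1 hconv⟩
  · intro a b ha hb hint
    obtain ⟨c, hc, hc'⟩ := zv_closure U a.1 ha b.1 hb (abs_int.1 hint)
    exact ⟨⟨c, inN_trans (hs_A0.inN U) hc⟩, hc, abs_int.2 hc'⟩

theorem exists_ext (s : List ℤ) : ∃ f : ℕ → ℤ, Ext s f := by
  induction s with
  | nil => exact ⟨fun _ => 0, rfl⟩
  | cons a s ih =>
    obtain ⟨f, hf⟩ := ih
    refine ⟨Function.update f s.length a, ?_⟩
    unfold Ext at *
    rw [List.length_cons, res_succ, Function.update_self]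
    congr 1
    conv_rhs => rw [← hf]
    exact res_eq_res.2 fun i hi => Function.update_of_ne (by omega) _ _

/-- The final theorem. -/
theorem exists_model : ∃ (M : Type 1) (E : M → M → Prop), ModelZF M E ∧
    ∃ w l, IsOmega E w ∧ IsDLO E w l ∧ SequentialSpace E w l (IsCut E w l) ∧
      ¬ SequentialSpace E w l (IsIrrCut E w l) := by
  have hne : (⊤ : RB X) ≠ ⊥ := by
    intro h
    have x : X := ⟨fun u => (exists_ext u.1).choose, fun u => (exists_ext u.1).choose_spec⟩
    have h1 : x ∈ (⊤ : RB X).val := RB.mem_top x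
    rw [h] at h1
    exact RB.not_mem_bot x h1
  obtain ⟨U, _⟩ := Ultra.exists_mem hne
  exact ⟨SMod SS U, SE SS U, modelZF SS U, somega SS U, sl rr U, isOmega_somega,
    sl_dlo rdlo U, seq_cuts rdlo U, not_seq_irr U⟩

end Pool.Agent.Lib.P7aa9af
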