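import Pool.Agent.Lib.P7aa9af.Supp

/-!
The core lemma.
-/

open Set Topology TopologicalSpace Classical

namespace Pool.Agent.Lib.P7aa9af

open Pool.Agent.Lib.P6aeb5f Pool.Agent.Lib.BVM PiNat

theorem cl_mono {s t : Set X} {hs : IsClopen s} {ht : IsClopen t} (h : s ⊆ t) :
    RB.cl s hs ≤ RB.cl t ht := fun x hx => by
  have h1 : x ∈ s := RB.mem_cl.1 hx
  exact RB.mem_cl.2 (h h1)

instance : SecondCountableTopology X :=
  secondCountableTopology_induced X (Label → ℕ → ℤ) Subtype.val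

/-- The core lemma. -/
theorem core {E0 E : Set Label} (hE0 : InI E0) (hE : InI E) (hEE : E0 ⊆ E)
    {γ : (ℕ → RB X) → RB X} (hγ : GammaOK E0 γ) {b0 : RB X}
    (hseq : ∀ E', InI E' → ∀ (R : ℕ → ℕ → RB X) (y : ℕ → RB X), (∀ m k, Inv E' (R m k)) →
      (∀ k, Inv E' (y k)) → b0 ⊓ (⨅ m, γ (R m)) ⊓ convB R y ≤ γ y)
    {z : ℕ → RB X} (hz : ∀ n, Inv E (z n)) {x0 : X} (hx0 : x0 ∈ (b0 ⊓ γ z).val) :
    ∃ w : ℕ → RB X, (∀ k, Inv E0 (w k)) ∧ x0 ∈ (γ w).val := by
  obtain ⟨F, np, hP⟩ := P7aa9af.exists_cyl (b0 ⊓ γ z).val.isOpen hx0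
  set enc : Label → ℕ := Encodable.encode with henc
  have henci : Function.Injective enc := Encodable.encode_injective
  set pos : Label → ℕ := fun u => max np u.1.length with hpos
  -- far out conditions
  set far : ℕ → Set X := fun i => {x | x ∈ cyl F np x0 ∧ ∀ u, enc u < i → u ∉ E0 →
    (i : ℤ) ≤ x.1 u (pos u)} with hfar
  have hfin : ∀ i, {u : Label | enc u < i}.Finite := fun i =>
    Set.Finite.preimage (henci.injOn) (Set.finite_Iio i)
  have hfarc : ∀ i, IsClopen (far i) := by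
    intro i
    refine isClopen_of_fd (P := fun x => x ∈ cyl F np x0 ∧ ∀ u, enc u < i → u ∉ E0 →
      (i : ℤ) ≤ x.1 u (pos u)) (F ∪ (hfin i).toFinset) (np + ((hfin i).toFinset.sup pos + 1))
      fun x y hxy hx => ⟨fun u hu j hj => ?_, fun u hu hu0 => ?_⟩
    · rw [← hxy u (Finset.mem_union_left _ hu) j (by omega)]
      exact hx.1 u hu j hj
    · have hu' : u ∈ (hfin i).toFinset := by rw [Set.Finite.mem_toFinset]; exact hu
      have h1 : pos u ≤ (hfin i).toFinset.sup pos := Finset.le_sup hu'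
      rw [← hxy u (Finset.mem_union_right _ hu') (pos u) (by omega)]
      exact hx.2 u hu hu0
  set fb : ℕ → RB X := fun i => RB.cl (far i) (hfarc i) with hfb
  have hanti : Antitone fb := by
    intro i j hij
    refine cl_mono fun x hx => ⟨hx.1, fun u hu hu0 => ?_⟩
    have h1 := hx.2 u (hu.trans_le hij) hu0
    have h2 : (i : ℤ) ≤ j := by exact_mod_cast hij
    exact h2.trans h1
  -- the tree
  set W : List Bool → RB X := WT E0 fb z with hW
  set w : ℕ → RB X := wT E0 fb z with hw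
  have hx0b1 : x0 ∈ (W []).val := by
    have h1 : RB.cl (cyl F np x0) (isClopen_cyl F np x0) ≤ W [] := by
      refine le_iInf fun i => ?_
      intro y hy
      have hy : y ∈ cyl F np x0 := RB.mem_cl.1 hy
      set y' : X := ⟨fun u => if enc u < i ∧ u ∉ E0 then Function.update (y.1 u) (pos u) (i : ℤ)
        else y.1 u, fun u => by
          beta_reduce
          split_ifs with h
          · refine ext_congr (fun j hj => ?_) (y.2 u)
            rw [Function.update_of_ne]
            have : u.1.length ≤ pos u := le_max_right _ _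
            omega
          · exact y.2 u⟩ with hy'
      have h2 : y' ∈ far i := by
        refine ⟨fun u hu j hj => ?_, fun u hu hu0 => ?_⟩
        · rw [← hy u hu j hj]
          change (if enc u < i ∧ u ∉ E0 then Function.update (y.1 u) (pos u) (i : ℤ)
            else y.1 u) j = _
          split_ifs with h
          · rw [Function.update_of_ne]
            have : np ≤ pos u := le_max_left _ _
            omega
          · rfl
        · change (i : ℤ) ≤ (if enc u < i ∧ u ∉ E0 then Function.update (y.1 u) (pos u) (i : ℤ)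
            else y.1 u) (pos u)
          rw [if_pos ⟨hu, hu0⟩, Function.update_self]
      refine (Proj_inv E0 _).of_agree hE0 (x := y') (fun u hu => ?_) ?_
      · change (if enc u < i ∧ u ∉ E0 then Function.update (y.1 u) (pos u) (i : ℤ)
            else y.1 u) = _
        rw [if_neg (fun h => h.2 hu)]
      · refine le_Proj E0 (fb i ⊓ zt z []) ?_
        exact RB.mem_inf.2 ⟨RB.mem_cl.2 h2, RB.mem_top _⟩
    exact h1 (RB.mem_cl.2 (mem_cyl_self F np x0))
  -- enumeration
  haveI : Nonempty X := ⟨x0⟩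
  obtain ⟨e, he⟩ := exists_surjective_nat ((Finset Label × ℕ × ℕ) × List Bool)
  set ds : ℕ → X := denseSeq X with hds
  set ct : ℕ → Set X := fun i => cyl ((e i).1.1.filter (fun u => u ∈ E0)) (e i).1.2.1
    (ds (e i).1.2.2) with hct
  set t : ℕ → List Bool := fun i => (e i).2 with ht
  set valid : ℕ → Prop := fun i => ∃ y, y ∈ far i ∧ y ∈ (zt z (t i)).val ∧ y ∈ ct i with hvalid
  have hdata : ∀ i, ∃ (y : X) (F' : Finset Label) (n' : ℕ), valid i → y ∈ far i ∧ y ∈ ct i ∧
      (∀ u ∈ F', u ∈ E) ∧ cyl F' n' y ⊆ (zt z (t i) ⊓ γ z).val := by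
    intro i
    by_cases hv : valid i
    · obtain ⟨y, h1, h2, h3⟩ := hv
      have h4 : y ∈ (zt z (t i) ⊓ γ z).val :=
        RB.mem_inf.2 ⟨h2, (RB.mem_inf.1 (hP h1.1)).2⟩
      obtain ⟨F', n', h5, h6⟩ := Inv.exists_cyl hE ((zt_inv hz (t i)).inf (hγ.inv hEE hz)) h4
      exact ⟨y, F', n', fun _ => ⟨h1, h3, h5, h6⟩⟩
    · exact ⟨x0, ∅, 0, fun h => absurd h hv⟩
  choose y F' n' hdata using hdata
  set K : ℕ → Finset Label := fun i => if valid i then (F' i).filter (fun u => u ∉ E0) else ∅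
    with hK
  have hKmem : ∀ i, ∀ u ∈ K i, valid i ∧ u ∈ F' i ∧ u ∉ E0 := by
    intro i u hu
    rw [hK] at hu
    simp only at hu
    split_ifs at hu with hv
    · exact ⟨hv, (Finset.mem_filter.1 hu).1, (Finset.mem_filter.1 hu).2⟩
    · exact absurd hu (Finset.notMem_empty u)
  have hbnd : ∀ v, ∃ b : ℕ, ∀ j, (v, j) ∈ E → j ≤ b := fun v => by
    obtain ⟨b, hb⟩ := (hE.1 v).bddAbove
    exact ⟨b, fun j hj => hb hj⟩
  choose bnd hbnd using hbnd
  set ρ : ℕ → Label → Label := fun i u => (res ((y i).1 u) (max (n' i) u.1.length),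
    bnd (res ((y i).1 u) (max (n' i) u.1.length)) + 1 + enc u) with hρ
  set E' : Set Label := E ∪ {w | ∃ i, ∃ u ∈ K i, w = ρ i u} with hE'
  have hKE : ∀ i, ∀ u ∈ K i, u ∈ E := fun i u hu => by
    obtain ⟨hv, h1, _⟩ := hKmem i u hu
    exact (hdata i hv).2.2.1 u h1
  have hE'I : InI E' := by
    refine hE.union (InI_new hE enc bnd pos K y n' hKE fun i u hu hlt => ?_)
    obtain ⟨hv, _, h2⟩ := hKmem i u hu
    exact (hdata i hv).1.2 u hlt h2
  -- the copies
  have hops : ∀ i, ∃ s T, GoodOp γ E (E ∪ ρ i '' K i) s T ∧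
      (∀ x : X, ∀ u ∈ E, u ∉ K i → (s x).1 u = x.1 u) ∧
      ∀ x : X, ∀ u ∈ K i, (s x).1 u = x.1 (ρ i u) := by
    intro i
    refine exists_goodOp hE hγ hEE (ρ i) (K i) (fun u hu => (hKmem i u hu).2.2) (hKE i)
      (fun u hu f hf => ?_) (fun u hu h => ?_) (fun u hu u' hu' h => ?_)
    · have h1 := ext_iff_res.1 hf
      exact ext_congr (fun j hj => (h1 j (lt_of_lt_of_le hj (le_max_right _ _))).symm) ((y i).2 u)
    · have h1 := hbnd _ _ h
      omega
    · obtain ⟨h1, h2⟩ := Prod.mk.inj h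
      rw [h1] at h2
      exact henci (by omega)
  choose s T hT hs1 hs2 using hops
  set z' : ℕ → ℕ → RB X := fun i n => T i (z n) with hz'
  have hz'inv : ∀ i n, Inv E' (z' i n) := by
    intro i n
    refine ((hT i).inv _ (hz n)).mono ?_
    refine union_subset_union_right _ ?_
    rintro _ ⟨u, hu, rfl⟩
    exact ⟨i, u, hu, rfl⟩
  set c : ℕ → RB X := fun i => RB.cl (cyl ((F' i).filter (fun u => u ∈ E0)) (n' i) (y i))
    (isClopen_cyl _ _ _) with hc
  have hcinv : ∀ i, Inv E0 (c i) := by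
    intro i
    refine Inv.cl _ fun x x' hxx hx u hu j hj => ?_
    rw [← hxx u (Finset.mem_filter.1 hu).2]
    exact hx u hu j hj
  have hcT : ∀ i, valid i → c i ≤ zt (z' i) (t i) ⊓ γ (z' i) := by
    intro i hv
    have hIz := zt_inv hz (t i)
    have hIγ := hγ.inv hEE hz
    have h1 : c i ≤ T i (zt z (t i) ⊓ γ z) := by
      intro x hx
      have hx : x ∈ cyl ((F' i).filter (fun u => u ∈ E0)) (n' i) (y i) := RB.mem_cl.1 hx
      refine (hT i).mem _ (hIz.inf hIγ) x ((hdata i hv).2.2.2 fun u hu j hj => ?_)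
      by_cases hu0 : u ∈ E0
      · have huK : u ∉ K i := fun h => (hKmem i u h).2.2 hu0
        rw [hs1 i x u ((hdata i hv).2.2.1 u hu) huK]
        exact hx u (Finset.mem_filter.2 ⟨hu, hu0⟩) j hj
      · have huK : u ∈ K i := by
          rw [hK]
          simp only [if_pos hv]
          exact Finset.mem_filter.2 ⟨hu, hu0⟩
        rw [hs2 i x u huK]
        exact ext_iff_res.1 (x.2 (ρ i u)) j (lt_of_lt_of_le hj (le_max_left _ _))
    rw [(hT i).inf _ _ hIz hIγ, (hT i).zt hz] at h1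
    exact h1.trans (inf_le_inf_left _ ((hT i).gam z hz))
  set a' : ℕ → ℕ → RB X := fun m i => if (t i).length = m ∧ valid i then c i ⊓ W (t i) else ⊥
    with ha'
  have ha'inv : ∀ m i, Inv E0 (a' m i) := by
    intro m i
    rw [ha']
    simp only
    split_ifs
    · exact (hcinv i).inf (WT_inv _ _ _ _)
    · exact Inv.bot
  have hcover : ∀ m, W [] ≤ ⨆ i, a' m i := by
    intro m
    refine (WT_cover E0 fb z m).trans (iSup_le fun tt => ?_)
    obtain ⟨tt, htt⟩ := tt
    refine RB.le_of_open fun O hO hOW => ?_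
    obtain ⟨x, hx⟩ := hO
    obtain ⟨Fx, nx, hF⟩ := P7aa9af.exists_cyl O.isOpen hx
    obtain ⟨j, hj⟩ := (denseRange_denseSeq X).exists_mem_open (isClopen_cyl Fx nx x).isOpen
      ⟨x, mem_cyl_self _ _ _⟩
    have hcx : cyl Fx nx (ds j) = cyl Fx nx x := cyl_of_mem hj
    obtain ⟨i, hi⟩ := he ((Fx, nx, j), tt)
    have hti : t i = tt := by rw [ht]; simp only [hi]
    have hcti : ct i = cyl (Fx.filter (fun u => u ∈ E0)) nx (ds j) := by
      rw [hct]; simp only [hi]
    -- validity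
    have hv : valid i := by
      have h1 : W tt ≤ ⨆ g : FixE E0, g.1 (fb i ⊓ zt z tt) :=
        (WT_le E0 z hanti tt).trans (iInf_le _ i)
      set O' : Opens X := ⟨cyl Fx nx x, (isClopen_cyl Fx nx x).isOpen⟩ with hO'
      have h2 : O' ≤ (⨆ g : FixE E0, g.1 (fb i ⊓ zt z tt)).val := fun x' hx' =>
        h1 (hOW (hF hx'))
      obtain ⟨⟨g, φ, hφ, hφ0, rfl⟩, x', hx'1, hx'2⟩ :=
        RB.exists_of_le_iSup ⟨x, mem_cyl_self Fx nx x⟩ h2
      have h3 := RB.mem_inf.1 (RB.mem_img.1 hx'2)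
      refine ⟨φ.symm x', RB.mem_cl.1 h3.1, ?_, ?_⟩
      · rw [hti]; exact h3.2
      · rw [hcti]
        intro u hu k hk
        rw [fix_symm hφ0 x' u (Finset.mem_filter.1 hu).2]
        have h4 : x' ∈ cyl Fx nx (ds j) := by rw [hcx]; exact hx'1
        exact h4 u (Finset.mem_filter.1 hu).1 k hk
    obtain ⟨h1, h2, h3, h4⟩ := hdata i hv
    set x'' : X := ⟨fun u => if u ∈ E0 then (y i).1 u else x.1 u, fun u => by
      beta_reduce
      split_ifs
      · exact (y i).2 u
      · exact x.2 u⟩ with hx''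
    have h5 : x'' ∈ cyl Fx nx x := by
      intro u hu k hk
      change (if u ∈ E0 then (y i).1 u else x.1 u) k = _
      split_ifs with hu0
      · rw [hcti] at h2
        rw [h2 u (Finset.mem_filter.2 ⟨hu, hu0⟩) k hk]
        exact hj u hu k hk
      · rfl
    have h6 : x'' ∈ O := hF h5
    refine ⟨x'', h6, ?_⟩
    refine RB.mem_iSup (b := fun i => a' m i) (i := i) ?_
    rw [ha']
    simp only
    rw [if_pos ⟨by rw [hti, htt], hv⟩]
    refine RB.mem_inf.2 ⟨RB.mem_cl.2 ?_, ?_⟩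
    · intro u hu k hk
      change (if u ∈ E0 then (y i).1 u else x.1 u) k = _
      rw [if_pos (Finset.mem_filter.1 hu).2]
    · rw [hti]
      exact hOW h6
  -- the sequence
  set D : ℕ → ℕ → RB X := fun m => disj (a' m) with hD
  set R : ℕ → ℕ → RB X := fun m => mixB (D m) z' with hR
  have hE0E' : E0 ⊆ E' := hEE.trans subset_union_left
  have hRinv : ∀ m k, Inv E' (R m k) := fun m k =>
    Inv.iSup fun i => ((disj_inv (ha'inv m) i).mono hE0E').inf (hz'inv i k)
  have hmix : ∀ m i k, D m i ⊓ R m k = D m i ⊓ z' i k := fun m i k =>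
    mixB_eq (disj_disj (a' m)) z' i k
  have hDle : ∀ m i, D m i = ⊥ ∨ (valid i ∧ (t i).length = m ∧ D m i ≤ c i ∧ D m i ≤ W (t i)) := by
    intro m i
    have h1 : D m i ≤ a' m i := disj_le _ _
    rw [ha'] at h1
    simp only at h1
    split_ifs at h1 with h
    · exact Or.inr ⟨h.2, h.1, h1.trans inf_le_left, h1.trans inf_le_right⟩
    · exact Or.inl (le_bot_iff.1 h1)
  have hcoverD : ∀ m, W [] ≤ ⨆ i, D m i := fun m => (hcover m).trans (le_iSup_disj (a' m))
  have hg : ∀ m, W [] ≤ γ (R m) := by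
    intro m
    refine (hcoverD m).trans (iSup_le fun i => ?_)
    rcases hDle m i with h | ⟨hv, _, h1, _⟩
    · rw [h]; exact bot_le
    · refine le_trans (le_inf (h1.trans ((hcT i hv).trans inf_le_right)) ?_) (hγ.ext (z' i) (R m))
      rw [le_eqB]
      exact fun n => (hmix m i n).symm
  have hconv : W [] ≤ convB R w := by
    refine le_iInf fun k => le_iSup_of_le (k + 1) (le_iInf fun m => le_iInf fun hm => ?_)
    refine (hcoverD m).trans (iSup_le fun i => ?_)
    rcases hDle m i with h | ⟨hv, hlen, h1, h2⟩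
    · rw [h]; exact bot_le
    · rw [le_eqv]
      refine WT_agree E0 fb z (t i) h2 ?_ k (by omega)
      have h3 := zt_congr (hmix m i) (t i)
      have h4 : D m i ≤ zt (z' i) (t i) := h1.trans ((hcT i hv).trans inf_le_left)
      rw [inf_eq_left.2 h4] at h3
      exact inf_eq_left.1 h3
  refine ⟨w, wT_inv E0 fb z, ?_⟩
  refine hseq E' hE'I R w hRinv (fun k => (wT_inv E0 fb z k).mono hE0E') ?_
  have hle : b0 ⊓ W [] ≤ b0 ⊓ (⨅ m, γ (R m)) ⊓ convB R w :=
    le_inf (inf_le_inf_left _ (le_iInf hg)) (inf_le_right.trans hconv)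
  exact hle (RB.mem_inf.2 ⟨(RB.mem_inf.1 hx0).1, hx0b1⟩)

end Pool.Agent.Lib.P7aa9af
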