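import Pool.Agent.Lib.P7aa9af.Transfer

/-!
A concrete countable dense linear order: nonempty finite sequences of integers, ordered
lexicographically. Its irrational cuts correspond to infinite sequences of integers.
-/

open Set Classical

namespace Pool.Agent.Lib.P7aa9af

/-! ### Lexicographic order -/

/-- sequences of integers, possibly finite (padded with `⊥`) -/
abbrev PS := ℕ → WithBot ℤ

/-- lexicographic order -/
def ll (p q : PS) : Prop := ∃ i, (∀ j < i, p j = q j) ∧ p i < q i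

theorem ll_irrefl (p : PS) : ¬ ll p p := fun ⟨_, _, h⟩ => lt_irrefl _ h

theorem ll_trans {p q s : PS} (h : ll p q) (h' : ll q s) : ll p s := by
  obtain ⟨i, h1, h2⟩ := h
  obtain ⟨i', h1', h2'⟩ := h'
  rcases lt_trichotomy i i' with hi | hi | hi
  · exact ⟨i, fun j hj => (h1 j hj).trans (h1' j (hj.trans hi)), by rw [← h1' i hi]; exact h2⟩
  · subst hi
    exact ⟨i, fun j hj => (h1 j hj).trans (h1' j hj), h2.trans h2'⟩
  · exact ⟨i', fun j hj => (h1 j (hj.trans hi)).trans (h1' j hj), by rw [h1 i' hi]; exact h2'⟩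

theorem ll_asymm {p q : PS} (h : ll p q) (h' : ll q p) : False := ll_irrefl p (ll_trans h h')

theorem ll_total (p q : PS) : p = q ∨ ll p q ∨ ll q p := by
  by_cases h : p = q
  · exact Or.inl h
  · right
    have hne : ∃ i, p i ≠ q i := by
      by_contra hcon
      push Not at hcon
      exact h (funext hcon)
    have h1 := Nat.find_spec hne
    have h2 : ∀ j < Nat.find hne, p j = q j := fun j hj => by
      have := Nat.find_min hne hj
      push Not at this
      exact this
    rcases lt_or_gt_of_ne h1 with h3 | h3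
    · exact Or.inl ⟨_, h2, h3⟩
    · exact Or.inr ⟨_, fun j hj => (h2 j hj).symm, h3⟩

/-- truncation -/
def tr (n : ℕ) (f : ℕ → ℤ) : PS := fun i => if i < n then (f i : WithBot ℤ) else ⊥

/-- embedding of infinite sequences -/
def em (f : ℕ → ℤ) : PS := fun i => (f i : WithBot ℤ)

theorem tr_lt {n : ℕ} {f : ℕ → ℤ} {i : ℕ} (h : i < n) : tr n f i = (f i : WithBot ℤ) := if_pos h

theorem tr_ge {n : ℕ} {f : ℕ → ℤ} {i : ℕ} (h : n ≤ i) : tr n f i = ⊥ := if_neg (not_lt.2 h)

theorem em_eq (f : ℕ → ℤ) (i : ℕ) : em f i = (f i : WithBot ℤ) := rfl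

theorem em_ne_tr (f g : ℕ → ℤ) (n : ℕ) : em f ≠ tr n g := by
  intro h
  have := congrFun h n
  rw [tr_ge le_rfl] at this
  exact WithBot.coe_ne_bot this

theorem tr_congr {n : ℕ} {f g : ℕ → ℤ} (h : ∀ i < n, f i = g i) : tr n f = tr n g := by
  funext i
  by_cases hi : i < n
  · rw [tr_lt hi, tr_lt hi, h i hi]
  · rw [tr_ge (not_lt.1 hi), tr_ge (not_lt.1 hi)]

theorem ll_tr_em (n : ℕ) (f : ℕ → ℤ) : ll (tr n f) (em f) :=
  ⟨n, fun j hj => tr_lt hj, by rw [tr_ge le_rfl]; exact WithBot.bot_lt_coe _⟩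

/-- an element between -/
theorem between {n : ℕ} {f : ℕ → ℤ} {p : PS} (hp : ∀ i, p i ≠ ⊥ → ∀ j < i, p j ≠ ⊥)
    (h : ll (tr n f) p) : ∃ c : ℤ, ll (tr n f) (tr (n + 1) (Function.update f n c)) ∧
      ll (tr (n + 1) (Function.update f n c)) p := by
  have h0 : ∀ c : ℤ, ll (tr n f) (tr (n + 1) (Function.update f n c)) := by
    intro c
    refine ⟨n, fun j hj => ?_, ?_⟩
    · rw [tr_lt hj, tr_lt (by omega), Function.update_of_ne (by omega)]
    · rw [tr_ge le_rfl, tr_lt (by omega)]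
      exact WithBot.bot_lt_coe _
  obtain ⟨i, h1, h2⟩ := h
  have hpi : p i ≠ ⊥ := fun hcon => by rw [hcon] at h2; exact not_lt_bot h2
  rcases lt_trichotomy i n with hi | hi | hi
  · refine ⟨0, h0 0, i, fun j hj => ?_, ?_⟩
    · rw [← h1 j hj, tr_lt (by omega), tr_lt (by omega), Function.update_of_ne (by omega)]
    · rw [tr_lt hi] at h2
      rw [tr_lt (by omega), Function.update_of_ne (by omega)]
      exact h2
  · subst hi
    obtain ⟨v, hv⟩ := WithBot.ne_bot_iff_exists.1 hpi
    refine ⟨v - 1, h0 _, i, fun j hj => ?_, ?_⟩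
    · rw [← h1 j hj, tr_lt hj, tr_lt (by omega), Function.update_of_ne (by omega)]
    · rw [tr_lt (by omega), Function.update_self, ← hv, WithBot.coe_lt_coe]
      omega
  · exfalso
    have h3 := h1 n hi
    rw [tr_ge le_rfl] at h3
    exact hp i hpi n hi h3.symm

theorem tr_init (n : ℕ) (f : ℕ → ℤ) : ∀ i, tr n f i ≠ ⊥ → ∀ j < i, tr n f j ≠ ⊥ := by
  intro i hi j hj
  have : i < n := by
    by_contra hcon
    exact hi (tr_ge (not_lt.1 hcon))
  rw [tr_lt (by omega)]
  exact WithBot.coe_ne_bot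

theorem em_init (f : ℕ → ℤ) : ∀ i, em f i ≠ ⊥ → ∀ j < i, em f j ≠ ⊥ :=
  fun _ _ _ _ => WithBot.coe_ne_bot

/-- the interval between `tr (n+1) f` and its successor -/
theorem agree_of_between {n : ℕ} {f : ℕ → ℤ} {p : PS} (h1 : ll (tr (n + 1) f) p)
    (h2 : ll p (tr (n + 1) (Function.update f n (f n + 1)))) : ∀ i < n + 1, p i = (f i : WithBot ℤ) := by
  obtain ⟨i, h3, h4⟩ := h1
  by_cases hi : n + 1 ≤ i
  · intro j hj
    rw [← h3 j (by omega), tr_lt hj]
  · exfalso
    push Not at hi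
    rw [tr_lt hi] at h4
    have h3' : ∀ j < i, p j = (f j : WithBot ℤ) := fun j hj => by
      rw [← h3 j hj, tr_lt (by omega)]
    obtain ⟨k, h5, h6⟩ := h2
    have hk : k < n + 1 := by
      by_contra hcon
      rw [tr_ge (not_lt.1 hcon)] at h6
      exact not_lt_bot h6
    rw [tr_lt hk] at h6
    rcases lt_trichotomy k i with hki | hki | hki
    · rw [h3' k hki, Function.update_of_ne (by omega)] at h6
      exact lt_irrefl _ h6
    · subst hki
      obtain ⟨v, hv⟩ := WithBot.ne_bot_iff_exists.1 (fun hcon => by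
        rw [hcon] at h4; exact not_lt_bot h4 : p k ≠ ⊥)
      rw [← hv, WithBot.coe_lt_coe] at h4 h6
      by_cases hkn : k = n
      · subst hkn
        rw [Function.update_self] at h6
        omega
      · rw [Function.update_of_ne hkn] at h6
        omega
    · have h7 := h5 i hki
      rw [tr_lt (by omega), Function.update_of_ne (by omega)] at h7
      rw [h7] at h4
      exact lt_irrefl _ h4

/-! ### Coding -/

theorem exists_code : ∃ cd : ℕ → PS, Function.Injective cd ∧
    (∀ k, ∃ n f, cd k = tr (n + 1) f) ∧ ∀ n f, ∃ k, cd k = tr (n + 1) f := by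
  set L := {p : PS // ∃ n f, p = tr (n + 1) f} with hL
  have hcount : Countable L := by
    have hsurj : Function.Surjective (fun s : {s : List ℤ // s ≠ []} =>
        (⟨tr s.1.length (fun i => s.1.getD i 0), s.1.length - 1, fun i => s.1.getD i 0, by
          have := List.length_pos_of_ne_nil s.2
          rw [Nat.sub_add_cancel this]⟩ : L)) := by
      rintro ⟨p, n, f, rfl⟩
      refine ⟨⟨(List.range (n + 1)).map f, by simp⟩, ?_⟩
      apply Subtype.ext
      simp only [List.length_map, List.length_range]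
      refine tr_congr fun i hi => ?_
      simp [List.getD, hi]
    exact hsurj.countable
  have hinf : Infinite L := by
    refine Infinite.of_injective (fun n : ℕ => (⟨tr (n + 1) (fun _ => 0), n, fun _ => 0, rfl⟩ : L)) ?_
    intro n m h
    have h1 : tr (n + 1) (fun _ => 0) = tr (m + 1) (fun _ => 0) := congrArg Subtype.val h
    rcases lt_trichotomy n m with h2 | h2 | h2
    · have := congrFun h1 (n + 1)
      rw [tr_ge le_rfl, tr_lt (by omega)] at this
      exact absurd this.symm WithBot.coe_ne_bot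
    · exact h2
    · have := congrFun h1 (m + 1)
      rw [tr_ge (n := m + 1) le_rfl, tr_lt (by omega)] at this
      exact absurd this WithBot.coe_ne_bot
  obtain ⟨hden⟩ := nonempty_denumerable L
  refine ⟨fun k => ((Denumerable.eqv L).symm k).1, ?_, ?_, ?_⟩
  · intro a b hab
    exact (Denumerable.eqv L).symm.injective (Subtype.ext hab)
  · intro k
    exact ((Denumerable.eqv L).symm k).2
  · intro n f
    refine ⟨Denumerable.eqv L ⟨tr (n + 1) f, n, f, rfl⟩, ?_⟩
    simp

/-- the coding -/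
noncomputable def cd : ℕ → PS := exists_code.choose

theorem cd_inj : Function.Injective cd := exists_code.choose_spec.1

theorem cd_form (k : ℕ) : ∃ n f, cd k = tr (n + 1) f := exists_code.choose_spec.2.1 k

theorem exists_cd (n : ℕ) (f : ℕ → ℤ) : ∃ k, cd k = tr (n + 1) f := exists_code.choose_spec.2.2 n f

theorem cd_init (k : ℕ) : ∀ i, cd k i ≠ ⊥ → ∀ j < i, cd k j ≠ ⊥ := by
  obtain ⟨n, f, h⟩ := cd_form k
  rw [h]
  exact tr_init _ _

/-- the order -/
noncomputable def rr (n m : ℕ) : Prop := ll (cd n) (cd m)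

/-- the cut of a sequence -/
noncomputable def cutf (f : ℕ → ℤ) (k : ℕ) : Prop := ll (cd k) (em f)

theorem not_cutf {f : ℕ → ℤ} {k : ℕ} : ¬ cutf f k ↔ ll (em f) (cd k) := by
  constructor
  · intro h
    rcases ll_total (cd k) (em f) with h1 | h1 | h1
    · obtain ⟨n, g, hg⟩ := cd_form k
      rw [hg] at h1
      exact absurd h1.symm (em_ne_tr f g (n + 1))
    · exact absurd h1 h
    · exact h1
  · exact fun h h' => ll_asymm h h'

theorem rdlo : RDLO rr where
  irrefl n := ll_irrefl _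
  trans n m k h h' := ll_trans h h'
  total n m := by
    rcases ll_total (cd n) (cd m) with h | h
    · exact Or.inl (cd_inj h)
    · exact Or.inr h
  dense n m h := by
    obtain ⟨a, f, hf⟩ := cd_form n
    unfold rr at h
    rw [hf] at h
    obtain ⟨c, h1, h2⟩ := between (cd_init m) h
    obtain ⟨k, hk⟩ := exists_cd (a + 1) (Function.update f (a + 1) c)
    refine ⟨k, ?_, ?_⟩
    · unfold rr; rw [hf, hk]; exact h1
    · unfold rr; rw [hk]; exact h2
  noMin n := by
    obtain ⟨a, f, hf⟩ := cd_form n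
    obtain ⟨k, hk⟩ := exists_cd 0 (fun _ => f 0 - 1)
    refine ⟨k, 0, fun j hj => absurd hj (Nat.not_lt_zero j), ?_⟩
    rw [hk, hf, tr_lt (by omega), tr_lt (by omega), WithBot.coe_lt_coe]
    omega
  noMax n := by
    obtain ⟨a, f, hf⟩ := cd_form n
    obtain ⟨k, hk⟩ := exists_cd 0 (fun _ => f 0 + 1)
    refine ⟨k, 0, fun j hj => absurd hj (Nat.not_lt_zero j), ?_⟩
    rw [hk, hf, tr_lt (by omega), tr_lt (by omega), WithBot.coe_lt_coe]
    omega

/-- (P2) -/
theorem cutf_irr (f : ℕ → ℤ) : RIrr rr (cutf f) := by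
  refine ⟨⟨?_, ?_, ?_, ?_⟩, ?_⟩
  · obtain ⟨k, hk⟩ := exists_cd 0 (fun _ => f 0 - 1)
    refine ⟨k, 0, fun j hj => absurd hj (Nat.not_lt_zero j), ?_⟩
    rw [hk, tr_lt (by omega), em_eq, WithBot.coe_lt_coe]
    omega
  · obtain ⟨k, hk⟩ := exists_cd 0 (fun _ => f 0 + 1)
    refine ⟨k, not_cutf.2 ⟨0, fun j hj => absurd hj (Nat.not_lt_zero j), ?_⟩⟩
    rw [hk, tr_lt (by omega), em_eq, WithBot.coe_lt_coe]
    omega
  · exact fun n m h h' => ll_trans h h'
  · intro n hn
    obtain ⟨a, g, hg⟩ := cd_form n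
    unfold cutf at hn
    rw [hg] at hn
    obtain ⟨c, h1, h2⟩ := between (em_init f) hn
    obtain ⟨k, hk⟩ := exists_cd (a + 1) (Function.update g (a + 1) c)
    refine ⟨k, ?_, ?_⟩
    · unfold cutf; rw [hk]; exact h2
    · unfold rr; rw [hg, hk]; exact h1
  · intro n hn
    obtain ⟨i, h1, h2⟩ := not_cutf.1 hn
    obtain ⟨k, hk⟩ := exists_cd (i + 1) (Function.update f (i + 1) (f (i + 1) + 1))
    refine ⟨k, not_cutf.2 ⟨i + 1, fun j hj => ?_, ?_⟩, i, fun j hj => ?_, ?_⟩
    · rw [hk, tr_lt (by omega), Function.update_of_ne (by omega), em_eq]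
    · rw [hk, tr_lt (by omega), Function.update_self, em_eq, WithBot.coe_lt_coe]
      omega
    · rw [hk, tr_lt (by omega), Function.update_of_ne (by omega), ← h1 j hj, em_eq]
    · rw [hk, tr_lt (by omega), Function.update_of_ne (by omega)]
      exact h2

/-- (P3) -/
theorem rint_open {f : ℕ → ℤ} {a b : ℕ} (h : RInt rr a b (cutf f)) :
    ∃ n, ∀ g : ℕ → ℤ, (∀ i < n, g i = f i) → RInt rr a b (cutf g) := by
  obtain ⟨⟨i, h1, h2⟩, m, hm, hmb⟩ := h
  obtain ⟨i', h1', h2'⟩ := not_cutf.1 hm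
  refine ⟨max i i' + 1, fun g hg => ⟨⟨i, fun j hj => ?_, ?_⟩, m, not_cutf.2 ⟨i', fun j hj => ?_,
    ?_⟩, hmb⟩⟩
  · rw [h1 j hj, em_eq, em_eq, hg j (by omega)]
  · rw [em_eq, hg i (by omega)]; exact h2
  · rw [← h1' j hj, em_eq, em_eq, hg j (by omega)]
  · rw [em_eq, hg i' (by omega)]; exact h2'

/-- (P7) -/
theorem cutf_fd (k : ℕ) : ∃ n, ∀ f g : ℕ → ℤ, (∀ i < n, f i = g i) → cutf f k → cutf g k := by
  obtain ⟨a, h, hh⟩ := cd_form k
  refine ⟨a + 2, fun f g hfg ⟨i, h1, h2⟩ => ?_⟩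
  have hi : i < a + 2 := by
    by_contra hcon
    have h3 := h1 (a + 1) (by omega)
    rw [hh, tr_ge le_rfl] at h3
    exact WithBot.coe_ne_bot h3.symm
  refine ⟨i, fun j hj => ?_, ?_⟩
  · rw [h1 j hj, em_eq, em_eq, hfg j (by omega)]
  · rw [em_eq, ← hfg i hi]; exact h2

/-- (P5) -/
theorem cutf_inj {f g : ℕ → ℤ} (h : ∀ k, cutf f k ↔ cutf g k) : f = g := by
  have key : ∀ f g : ℕ → ℤ, ll (em f) (em g) → (∀ k, cutf f k ↔ cutf g k) → False := by
    rintro f g ⟨i, h1, h2⟩ h
    obtain ⟨k, hk⟩ := exists_cd i g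
    have h3 : cutf g k := by unfold cutf; rw [hk]; exact ll_tr_em _ _
    have h4 : ll (em f) (cd k) := by
      rw [hk]
      refine ⟨i, fun j hj => ?_, ?_⟩
      · rw [tr_lt (by omega), h1 j hj]; rfl
      · rw [tr_lt (by omega)]; exact h2
    exact ll_asymm h4 ((h k).2 h3)
  rcases ll_total (em f) (em g) with h1 | h1 | h1
  · funext i
    exact WithBot.coe_injective (congrFun h1 i)
  · exact (key f g h1 h).elim
  · exact (key g f h1 fun k => (h k).symm).elim

/-- (P6) -/
theorem exists_rint (f : ℕ → ℤ) (n : ℕ) : ∃ a b, RInt rr a b (cutf f) ∧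
    ∀ g : ℕ → ℤ, RInt rr a b (cutf g) → ∀ i < n, g i = f i := by
  obtain ⟨a, ha⟩ := exists_cd n f
  obtain ⟨b, hb⟩ := exists_cd n (Function.update f n (f n + 1))
  obtain ⟨m, hm⟩ := exists_cd (n + 1) (Function.update f (n + 1) (f (n + 1) + 1))
  refine ⟨a, b, ⟨?_, m, not_cutf.2 ⟨n + 1, fun j hj => ?_, ?_⟩, n, fun j hj => ?_, ?_⟩, ?_⟩
  · unfold cutf; rw [ha]; exact ll_tr_em _ _
  · rw [hm, tr_lt (by omega), Function.update_of_ne (by omega), em_eq]
  · rw [hm, tr_lt (by omega), Function.update_self, em_eq, WithBot.coe_lt_coe]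
    omega
  · rw [hm, hb, tr_lt (by omega), tr_lt (by omega), Function.update_of_ne (by omega),
      Function.update_of_ne (by omega)]
  · rw [hm, hb, tr_lt (by omega), tr_lt (by omega), Function.update_of_ne (by omega),
      Function.update_self, WithBot.coe_lt_coe]
    omega
  · rintro g ⟨h1, m', h2, h3⟩ i hi
    have h4 : ll (em g) (cd b) := ll_trans (not_cutf.1 h2) h3
    unfold cutf at h1
    rw [ha] at h1
    rw [hb] at h4
    exact WithBot.coe_injective (agree_of_between h1 h4 i (by omega))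

end Pool.Agent.Lib.P7aa9af
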