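import Pool.Agent.Lib.P7aa9af.Order

/-!
Irrational cuts come from infinite sequences of integers.
-/

open Set Classical

namespace Pool.Agent.Lib.P7aa9af

/-- membership of a truncated sequence in a cut -/
def sm (s : ℕ → Prop) (p : PS) : Prop := ∃ k, cd k = p ∧ s k

theorem sm_cd {s : ℕ → Prop} {k : ℕ} : sm s (cd k) ↔ s k :=
  ⟨fun ⟨_, h, h'⟩ => cd_inj h ▸ h', fun h => ⟨k, rfl, h⟩⟩

theorem sm_down {s : ℕ → Prop} (hs : RCut rr s) {p q : PS} (hp : ∃ k, cd k = p) (hq : sm s q)
    (h : ll p q) : sm s p := by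
  obtain ⟨k, rfl⟩ := hp
  obtain ⟨m, rfl, hm⟩ := hq
  exact sm_cd.2 (hs.down k m h hm)

/-- the interval of `tr (n + 1) f` contains the cut -/
def InvS (s : ℕ → Prop) : ℕ → (ℕ → ℤ) → Prop
  | 0, _ => True
  | n + 1, f => sm s (tr (n + 1) f) ∧ ¬ sm s (tr (n + 1) (Function.update f n (f n + 1)))

theorem exists_step {s : ℕ → Prop} (hs : RIrr rr s) (n : ℕ) (f : ℕ → ℤ) (hf : InvS s n f) :
    ∃ c : ℤ, InvS s (n + 1) (Function.update f n c) := by
  have hcut := hs.1
  have hdown : ∀ c c' : ℤ, c' ≤ c → sm s (tr (n + 1) (Function.update f n c)) →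
      sm s (tr (n + 1) (Function.update f n c')) := by
    intro c c' hc h
    rcases hc.eq_or_lt with rfl | hc
    · exact h
    · refine sm_down hcut (exists_cd n _) h ⟨n, fun j hj => ?_, ?_⟩
      · rw [tr_lt (by omega), tr_lt (by omega), Function.update_of_ne (by omega),
          Function.update_of_ne (by omega)]
      · rw [tr_lt (by omega), tr_lt (by omega), Function.update_self, Function.update_self,
          WithBot.coe_lt_coe]
        exact hc
  have hne : ∃ c : ℤ, sm s (tr (n + 1) (Function.update f n c)) := by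
    cases n with
    | zero =>
      obtain ⟨k, hk⟩ := hcut.ne
      obtain ⟨a, g, hg⟩ := cd_form k
      refine ⟨g 0 - 1, sm_down hcut (exists_cd 0 _) (sm_cd.2 hk) ⟨0, fun j hj =>
        absurd hj (Nat.not_lt_zero j), ?_⟩⟩
      rw [hg, tr_lt (by omega), tr_lt (by omega), Function.update_self, WithBot.coe_lt_coe]
      omega
    | succ n =>
      obtain ⟨k, hk, hks⟩ := hf.1
      obtain ⟨m, hm, hkm⟩ := hcut.noMax k hks
      unfold rr at hkm
      rw [hk] at hkm
      obtain ⟨c, _, h2⟩ := between (cd_init m) hkm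
      exact ⟨c, sm_down hcut (exists_cd (n + 1) _) (sm_cd.2 hm) h2⟩
  have hbdd : ∃ c : ℤ, ¬ sm s (tr (n + 1) (Function.update f n c)) := by
    cases n with
    | zero =>
      obtain ⟨k, hk⟩ := hcut.proper
      obtain ⟨a, g, hg⟩ := cd_form k
      refine ⟨g 0 + 1, fun hcon => hk (sm_cd.1 (sm_down hcut ⟨k, rfl⟩ hcon ⟨0, fun j hj =>
        absurd hj (Nat.not_lt_zero j), ?_⟩))⟩
      rw [hg, tr_lt (by omega), tr_lt (by omega), Function.update_self, WithBot.coe_lt_coe]
      omega
    | succ n =>
      obtain ⟨k, hk⟩ := exists_cd n (Function.update f n (f n + 1))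
      have hks : ¬ s k := fun h => hf.2 (by rw [← hk]; exact sm_cd.2 h)
      obtain ⟨m, hm, hmk⟩ := hs.2 k hks
      obtain ⟨k', hk'⟩ := exists_cd n f
      have hk's : s k' := sm_cd.1 (by rw [hk']; exact hf.1)
      have h1 : ll (tr (n + 1) f) (cd m) := by
        rcases ll_total (cd k') (cd m) with h | h | h
        · exact absurd (cd_inj h ▸ hk's) hm
        · rw [← hk']; exact h
        · exact absurd (hcut.down m k' h hk's) hm
      unfold rr at hmk
      rw [hk] at hmk
      have h2 := agree_of_between h1 hmk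
      obtain ⟨a, g, hg⟩ := cd_form m
      have hne : cd m (n + 1) ≠ ⊥ := by
        intro hcon
        obtain ⟨i, h3, h4⟩ := h1
        by_cases hi : i < n + 1
        · rw [tr_lt hi, h2 i hi] at h4
          exact lt_irrefl _ h4
        · have h5 : cd m i ≠ ⊥ := fun h => by rw [h] at h4; exact not_lt_bot h4
          rcases (not_lt.1 hi).eq_or_lt with h6 | h6
          · rw [← h6] at h5; exact h5 hcon
          · exact cd_init m i h5 (n + 1) h6 hcon
      obtain ⟨v, hv⟩ := WithBot.ne_bot_iff_exists.1 hne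
      refine ⟨v + 1, fun hcon => hm (sm_cd.1 (sm_down hcut ⟨m, rfl⟩ hcon ⟨n + 1, fun j hj => ?_,
        ?_⟩))⟩
      · rw [h2 j hj, tr_lt (by omega), Function.update_of_ne (by omega)]
      · rw [tr_lt (by omega), Function.update_self, ← hv, WithBot.coe_lt_coe]
        omega
  obtain ⟨c0, hc0⟩ := hbdd
  obtain ⟨c, hc, hmax⟩ := Int.exists_greatest_of_bdd
    (P := fun c => sm s (tr (n + 1) (Function.update f n c))) ⟨c0, fun c hc => by
      by_contra hcon
      exact hc0 (hdown c c0 (by omega) hc)⟩ hne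
  refine ⟨c, hc, fun hcon => ?_⟩
  rw [Function.update_self, Function.update_idem] at hcon
  have := hmax (c + 1) hcon
  omega

/-- (P4) -/
theorem exists_cutf {s : ℕ → Prop} (hs : RIrr rr s) : ∃ f : ℕ → ℤ, ∀ k, s k ↔ cutf f k := by
  have hcut := hs.1
  -- recursive construction
  have hstep : ∀ n : ℕ, ∀ F : {f : ℕ → ℤ // InvS s n f}, ∃ c : ℤ,
      InvS s (n + 1) (Function.update F.1 n c) := fun n F => exists_step hs n F.1 F.2
  choose c hc using hstep
  set F : ∀ n : ℕ, {f : ℕ → ℤ // InvS s n f} := fun n => Nat.rec ⟨fun _ => 0, trivial⟩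
    (fun n F => ⟨Function.update F.1 n (c n F), hc n F⟩) n with hF
  have hFs : ∀ n, (F (n + 1)).1 = Function.update (F n).1 n (c n (F n)) := fun n => rfl
  set f : ℕ → ℤ := fun n => (F (n + 1)).1 n with hf
  have hagree : ∀ m, ∀ n < m, (F m).1 n = f n := by
    intro m
    induction m with
    | zero => exact fun n hn => absurd hn (Nat.not_lt_zero n)
    | succ m ih =>
      intro n hn
      rcases Nat.lt_succ_iff_lt_or_eq.1 hn with hn | rfl
      · rw [hFs, Function.update_of_ne (by omega), ih n hn]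
      · rfl
  have h1 : ∀ n, sm s (tr (n + 1) f) := by
    intro n
    have h2 := (F (n + 1)).2.1
    rwa [tr_congr (g := f) (fun i hi => hagree (n + 1) i hi)] at h2
  have h2 : ∀ n, ¬ sm s (tr (n + 1) (Function.update f n (f n + 1))) := by
    intro n
    have h2 := (F (n + 1)).2.2
    have h3 : tr (n + 1) (Function.update (F (n + 1)).1 n ((F (n + 1)).1 n + 1)) =
        tr (n + 1) (Function.update f n (f n + 1)) := by
      refine tr_congr fun i hi => ?_
      by_cases hin : i = n
      · subst hin
        rw [Function.update_self, Function.update_self, hagree (i + 1) i (by omega)]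
      · rw [Function.update_of_ne hin, Function.update_of_ne hin, hagree (n + 1) i hi]
    rwa [h3] at h2
  refine ⟨f, fun k => ⟨fun hk => ?_, fun hk => ?_⟩⟩
  · by_contra hcon
    obtain ⟨i, h3, h4⟩ := not_cutf.1 hcon
    rw [em_eq] at h4
    have hne : cd k i ≠ ⊥ := fun h => by rw [h] at h4; exact not_lt_bot h4
    obtain ⟨v, hv⟩ := WithBot.ne_bot_iff_exists.1 hne
    rw [← hv, WithBot.coe_lt_coe] at h4
    apply h2 i
    rcases lt_or_eq_of_le (show f i + 1 ≤ v by omega) with h5 | h5
    · refine sm_down hcut (exists_cd i _) (sm_cd.2 hk) ⟨i, fun j hj => ?_, ?_⟩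
      · rw [tr_lt (by omega), Function.update_of_ne (by omega), ← h3 j hj]; rfl
      · rw [tr_lt (by omega), Function.update_self, ← hv, WithBot.coe_lt_coe]
        exact h5
    · obtain ⟨a, g, hg⟩ := cd_form k
      have hia : i < a + 1 := by
        by_contra hcon
        exact hne (by rw [hg]; exact tr_ge (not_lt.1 hcon))
      have hgj : ∀ j < i + 1, Function.update f i (f i + 1) j = g j := by
        intro j hj
        rcases Nat.lt_succ_iff_lt_or_eq.1 hj with hj | rfl
        · rw [Function.update_of_ne (by omega)]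
          have h6 := h3 j hj
          rw [hg, tr_lt (by omega), em_eq] at h6
          exact WithBot.coe_injective h6
        · rw [Function.update_self, h5]
          rw [hg, tr_lt hia] at hv
          exact WithBot.coe_injective hv
      rcases (show i ≤ a by omega).eq_or_lt with h6 | h6
      · subst h6
        rw [tr_congr hgj, ← hg]
        exact sm_cd.2 hk
      · refine sm_down hcut (exists_cd i _) (sm_cd.2 hk) ⟨i + 1, fun j hj => ?_, ?_⟩
        · rw [tr_lt hj, hg, tr_lt (by omega), hgj j hj]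
        · rw [tr_ge le_rfl, hg, tr_lt (by omega)]
          exact WithBot.bot_lt_coe _
  · obtain ⟨i, h3, h4⟩ := hk
    apply sm_cd.1
    refine sm_down hcut ⟨k, rfl⟩ (h1 i) ⟨i, fun j hj => ?_, ?_⟩
    · rw [h3 j hj, tr_lt (by omega)]; rfl
    · rw [tr_lt (by omega)]; exact h4

end Pool.Agent.Lib.P7aa9af
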