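import Mathlib
import Pool.Agent.Lib.P6aeb5f.RegAlg

/-!
The algebra of regular open sets of a topological space, with points.
-/

open Set Topology TopologicalSpace

namespace Pool.Agent.Lib.P7aa9af

open Pool.Agent.Lib.P6aeb5f

/-- the algebra of regular open sets -/
abbrev RB (X : Type) [TopologicalSpace X] : Type := RO (Opens X)

variable {X : Type} [TopologicalSpace X]

namespace RB

theorem val_inf (a b : RB X) : (a ⊓ b).val = a.val ⊓ b.val := rfl

theorem val_compl (a : RB X) : (aᶜ).val = (a.val)ᶜ := rfl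

theorem val_top : (⊤ : RB X).val = ⊤ := rfl

theorem val_bot : (⊥ : RB X).val = ⊥ := rfl

theorem le_iff {a b : RB X} : a ≤ b ↔ ∀ x, x ∈ a.val → x ∈ b.val := Iff.rfl

theorem mem_inf {a b : RB X} {x : X} : x ∈ (a ⊓ b).val ↔ x ∈ a.val ∧ x ∈ b.val := Iff.rfl

theorem mem_top (x : X) : x ∈ (⊤ : RB X).val := trivial

theorem not_mem_bot (x : X) : x ∉ (⊥ : RB X).val := fun h => h

theorem not_mem_compl {a : RB X} {x : X} (h : x ∈ a.val) (h' : x ∈ (aᶜ).val) : False := by
  have h1 : x ∈ (a ⊓ aᶜ).val := mem_inf.2 ⟨h, h'⟩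
  rw [inf_compl_self] at h1
  exact h1

theorem mem_mk {O : Opens X} {x : X} (h : x ∈ O) : x ∈ (RO.mk O).val :=
  (le_compl_compl : O ≤ Oᶜᶜ) h

theorem mk_le {O : Opens X} {a : RB X} : RO.mk O ≤ a ↔ ∀ x ∈ O, x ∈ a.val := RO.mk_le_iff

theorem val_iSup {ι : Sort*} (b : ι → RB X) : (⨆ i, b i) = RO.mk (⨆ i, (b i).val) := by
  apply le_antisymm
  · refine iSup_le fun i => ?_
    rw [RO.le_iff, RO.val_mk]
    exact (le_iSup (fun i => (b i).val) i).trans le_compl_compl
  · rw [RO.mk_le_iff]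
    exact iSup_le fun i => le_iSup b i

theorem mk_inf (O O' : Opens X) : RO.mk (O ⊓ O') = RO.mk O ⊓ RO.mk O' := by
  have h : (RO.mk (O ⊓ O')).val = (RO.mk O ⊓ RO.mk O').val := by
    rw [val_inf, RO.val_mk, RO.val_mk, RO.val_mk, compl_compl_inf_distrib]
  exact Subtype.ext h

theorem ext_mem {a b : RB X} (h : ∀ x, x ∈ a.val ↔ x ∈ b.val) : a = b :=
  le_antisymm (fun x => (h x).1) (fun x => (h x).2)

/-- A clopen set is regular. -/
theorem mem_mk_clopen {O : Opens X} (h : IsClosed (O : Set X)) {x : X} :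
    x ∈ (RO.mk O).val ↔ x ∈ O := by
  refine ⟨fun hx => ?_, mem_mk⟩
  by_contra hcon
  set O' : Opens X := ⟨(O : Set X)ᶜ, h.isOpen_compl⟩ with hO'
  have h1 : O' ≤ Oᶜ := by
    rw [le_compl_iff_disjoint_right, disjoint_iff]
    ext y
    simp only [hO', Opens.coe_inf, Opens.coe_mk, Opens.coe_bot, mem_inter_iff, mem_compl_iff,
      mem_empty_iff_false, iff_false, not_and, not_not]
    exact fun h1 h2 => h1 h2
  have h2 : x ∈ O' := hcon
  have h3 : x ∈ Oᶜ := h1 h2
  have h4 : x ∈ Oᶜ ⊓ Oᶜᶜ := ⟨h3, hx⟩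
  rw [inf_compl_self] at h4
  exact h4

/-- regular element of a clopen set -/
def cl (s : Set X) (hs : IsClopen s) : RB X := RO.mk ⟨s, hs.isOpen⟩

theorem mem_cl {s : Set X} {hs : IsClopen s} {x : X} : x ∈ (cl s hs).val ↔ x ∈ s :=
  mem_mk_clopen (O := ⟨s, hs.isOpen⟩) hs.isClosed

/-- Order test by nonempty open sets. -/
theorem le_of_open {a b : RB X} (h : ∀ O : Opens X, (∃ x, x ∈ O) → O ≤ a.val →
    ∃ x, x ∈ O ∧ x ∈ b.val) : a ≤ b := by
  by_contra hcon
  have h1 : a ⊓ bᶜ ≠ ⊥ := by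
    intro h2
    exact hcon (by rwa [← disjoint_iff, disjoint_compl_right_iff] at h2)
  have h2 : ∃ x, x ∈ (a ⊓ bᶜ).val := by
    by_contra h3
    push Not at h3
    exact h1 (ext_mem fun x => ⟨fun h => absurd h (h3 x), fun h => absurd h (not_mem_bot x)⟩)
  obtain ⟨x, hx1, hx2⟩ := h (a ⊓ bᶜ).val h2 (fun x hx => hx.1)
  exact not_mem_compl hx2 hx1.2

theorem mem_iSup {ι : Sort*} {b : ι → RB X} {i : ι} {x : X} (h : x ∈ (b i).val) :
    x ∈ (⨆ i, b i).val := (le_iSup b i : b i ≤ _) h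

/-- open sets in a supremum meet a member -/
theorem exists_of_le_iSup {ι : Sort*} {b : ι → RB X} {O : Opens X} (hO : ∃ x, x ∈ O)
    (h : O ≤ (⨆ i, b i).val) : ∃ i, ∃ x, x ∈ O ∧ x ∈ (b i).val := by
  by_contra hcon
  push Not at hcon
  have h1 : O ≤ (⨆ i, (b i).val)ᶜ := by
    rw [le_compl_iff_disjoint_right, disjoint_iff, inf_iSup_eq]
    rw [iSup_eq_bot]
    intro i
    ext x
    simp only [Opens.coe_inf, Opens.coe_bot, mem_inter_iff, SetLike.mem_coe,
      mem_empty_iff_false, iff_false, not_and]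
    exact hcon i x
  rw [val_iSup, RO.val_mk] at h
  obtain ⟨x, hx⟩ := hO
  have h2 : x ∈ (⨆ i, (b i).val)ᶜ ⊓ (⨆ i, (b i).val)ᶜᶜ := ⟨h1 hx, h hx⟩
  rw [inf_compl_self] at h2
  exact h2

/-! ### Homeomorphisms -/

theorem val_injective : Function.Injective (RO.val : RB X → Opens X) := Subtype.val_injective

/-- action of a homeomorphism -/
def img (φ : X ≃ₜ X) : RB X ≃o RB X where
  toFun a := ⟨φ.opensCongr a.val, by
    have h : (a.val)ᶜᶜ = a.val := RO.val_compl_compl a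
    change (φ.opensCongr a.val)ᶜᶜ = φ.opensCongr a.val
    rw [← map_compl φ.opensCongr, ← map_compl φ.opensCongr, h]⟩
  invFun a := ⟨φ.opensCongr.symm a.val, by
    have h : (a.val)ᶜᶜ = a.val := RO.val_compl_compl a
    change (φ.opensCongr.symm a.val)ᶜᶜ = φ.opensCongr.symm a.val
    rw [← map_compl φ.opensCongr.symm, ← map_compl φ.opensCongr.symm, h]⟩
  left_inv a := by
    apply val_injective
    exact φ.opensCongr.symm_apply_apply a.val
  right_inv a := by
    apply val_injective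
    exact φ.opensCongr.apply_symm_apply a.val
  map_rel_iff' := by
    intro a b
    exact φ.opensCongr.map_rel_iff' (a := a.val) (b := b.val)

theorem mem_img {φ : X ≃ₜ X} {a : RB X} {x : X} : x ∈ (img φ a).val ↔ φ.symm x ∈ a.val := Iff.rfl

theorem img_trans (φ ψ : X ≃ₜ X) : img (φ.trans ψ) = (img φ).trans (img ψ) := by
  apply DFunLike.ext
  intro a
  exact ext_mem fun x => Iff.rfl

theorem img_symm (φ : X ≃ₜ X) : img φ.symm = (img φ).symm := by
  apply DFunLike.ext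
  intro a
  exact ext_mem fun x => Iff.rfl

theorem img_refl : img (Homeomorph.refl X) = OrderIso.refl (RB X) := by
  apply DFunLike.ext
  intro a
  exact ext_mem fun x => Iff.rfl

/-! ### Generic points -/

theorem union_compl_residual (O : Opens X) : ∀ᶠ x in residual X, x ∈ O ∨ x ∈ Oᶜ := by
  have h1 : IsOpen {x | x ∈ O ∨ x ∈ Oᶜ} := (O ⊔ Oᶜ).isOpen
  have h2 : Dense {x | x ∈ O ∨ x ∈ Oᶜ} := by
    rw [dense_iff_inter_open]
    intro V hV hne
    by_contra hcon
    rw [not_nonempty_iff_eq_empty] at hcon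
    set V' : Opens X := ⟨V, hV⟩ with hV'
    have h3 : V' ≤ Oᶜ := by
      rw [le_compl_iff_disjoint_right, disjoint_iff]
      ext x
      simp only [Opens.coe_inf, Opens.coe_bot, mem_inter_iff, SetLike.mem_coe,
        mem_empty_iff_false, iff_false, not_and]
      intro hx hxO
      have : x ∈ V ∩ {x | x ∈ O ∨ x ∈ Oᶜ} := ⟨hx, Or.inl hxO⟩
      rw [hcon] at this
      exact this
    obtain ⟨x, hx⟩ := hne
    have : x ∈ V ∩ {x | x ∈ O ∨ x ∈ Oᶜ} := ⟨hx, Or.inr (h3 hx)⟩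
    rw [hcon] at this
    exact this
  exact residual_of_dense_open h1 h2

/-- `b` represents the property `P` at generic points. -/
def Rep (b : RB X) (P : X → Prop) : Prop := ∀ᶠ x in residual X, (x ∈ b.val ↔ P x)

theorem Rep.self (b : RB X) : Rep b (fun x => x ∈ b.val) := Filter.Eventually.of_forall fun _ => Iff.rfl

theorem Rep.inf {a b : RB X} {P Q : X → Prop} (ha : Rep a P) (hb : Rep b Q) :
    Rep (a ⊓ b) (fun x => P x ∧ Q x) := by
  filter_upwards [ha, hb] with x h1 h2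
  rw [mem_inf, h1, h2]

theorem Rep.compl {a : RB X} {P : X → Prop} (ha : Rep a P) : Rep (aᶜ) (fun x => ¬ P x) := by
  filter_upwards [ha, union_compl_residual a.val] with x h1 h2
  rw [← h1]
  exact ⟨fun h h' => not_mem_compl h' h, fun h => h2.resolve_left h⟩

theorem Rep.mk (O : Opens X) : Rep (RO.mk O) (fun x => x ∈ O) := by
  filter_upwards [union_compl_residual O] with x h2
  refine ⟨fun h => h2.resolve_right fun h' => ?_, mem_mk⟩
  have h4 : x ∈ Oᶜ ⊓ Oᶜᶜ := ⟨h', h⟩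
  rw [inf_compl_self] at h4
  exact h4

theorem Rep.cl {s : Set X} (hs : IsClopen s) : Rep (RB.cl s hs) (fun x => x ∈ s) :=
  Filter.Eventually.of_forall fun _ => mem_cl

theorem Rep.iSup {ι : Sort*} [Countable ι] {b : ι → RB X} {P : ι → X → Prop}
    (h : ∀ i, Rep (b i) (P i)) : Rep (⨆ i, b i) (fun x => ∃ i, P i x) := by
  have h1 := (eventually_countable_forall.2 h).and (Rep.mk (⨆ i, (b i).val))
  rw [val_iSup]
  filter_upwards [h1] with x h2
  rw [h2.2, Opens.mem_iSup]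
  exact exists_congr fun i => h2.1 i

theorem Rep.himp {a b : RB X} {P Q : X → Prop} (ha : Rep a P) (hb : Rep b Q) :
    Rep (a ⇨ b) (fun x => P x → Q x) := by
  have h1 := (ha.inf hb.compl).compl
  have h2 : (a ⊓ bᶜ)ᶜ = a ⇨ b := by
    rw [compl_inf, compl_compl, himp_eq, sup_comm]
  rw [h2] at h1
  filter_upwards [h1] with x h3
  rw [h3]
  tauto

theorem Rep.sup {a b : RB X} {P Q : X → Prop} (ha : Rep a P) (hb : Rep b Q) :
    Rep (a ⊔ b) (fun x => P x ∨ Q x) := by
  have h1 := (ha.compl.inf hb.compl).compl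
  have h2 : (aᶜ ⊓ bᶜ)ᶜ = a ⊔ b := by
    rw [compl_inf, compl_compl, compl_compl]
  rw [h2] at h1
  filter_upwards [h1] with x h3
  rw [h3]
  tauto

theorem Rep.iInf {ι : Sort*} [Countable ι] {b : ι → RB X} {P : ι → X → Prop}
    (h : ∀ i, Rep (b i) (P i)) : Rep (⨅ i, b i) (fun x => ∀ i, P i x) := by
  have h1 := (Rep.iSup fun i => (h i).compl).compl
  have h2 : (⨆ i, (b i)ᶜ)ᶜ = ⨅ i, b i := by
    rw [compl_iSup]
    simp only [compl_compl]
  rw [h2] at h1
  filter_upwards [h1] with x h3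
  rw [h3]
  push Not
  exact Iff.rfl

theorem Rep.eqv {a b : RB X} {P Q : X → Prop} (ha : Rep a P) (hb : Rep b Q) :
    Rep ((a ⇨ b) ⊓ (b ⇨ a)) (fun x => P x ↔ Q x) := by
  have h := (ha.himp hb).inf (hb.himp ha)
  filter_upwards [h] with x hx
  rw [hx]
  tauto

theorem Rep.congr {a : RB X} {P Q : X → Prop} (ha : Rep a P) (h : ∀ᶠ x in residual X, P x ↔ Q x) :
    Rep a Q := by
  filter_upwards [ha, h] with x h1 h2
  rw [h1, h2]

theorem Rep.top : Rep (⊤ : RB X) (fun _ => True) :=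
  Filter.Eventually.of_forall fun x => ⟨fun _ => trivial, fun _ => mem_top x⟩

theorem Rep.bot : Rep (⊥ : RB X) (fun _ => False) :=
  Filter.Eventually.of_forall fun x => ⟨fun h => not_mem_bot x h, fun h => h.elim⟩

theorem le_of_residual [BaireSpace X] {a b : RB X}
    (h : ∀ᶠ x in residual X, x ∈ a.val → x ∈ b.val) : a ≤ b := by
  refine le_of_open fun O hO hOa => ?_
  obtain ⟨x, hx1, hx2⟩ := (dense_of_mem_residual h).inter_open_nonempty O O.isOpen hO
  exact ⟨x, hx1, hx2 (hOa hx1)⟩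

theorem Rep.le [BaireSpace X] {a b : RB X} {P Q : X → Prop} (ha : Rep a P) (hb : Rep b Q)
    (h : ∀ᶠ x in residual X, P x → Q x) : a ≤ b := by
  refine le_of_residual ?_
  filter_upwards [ha, hb, h] with x h1 h2 h3
  rw [h1, h2]
  exact h3

end RB

end Pool.Agent.Lib.P7aa9af
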