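import Pool.Agent.Lib.P7aa9af.CutLemmas

/-!
The space of cuts is sequential in the symmetric model: algebraic part.
-/

open Set Topology TopologicalSpace Classical

namespace Pool.Agent.Lib.P7aa9af

open Pool.Agent.Lib.P6aeb5f Pool.Agent.Lib.BVM PiNat bSet

theorem Rep.unique {a b : RB X} {P : X → Prop} (ha : RB.Rep a P) (hb : RB.Rep b P) : a = b :=
  le_antisymm (ha.le hb (Filter.Eventually.of_forall fun _ h => h))
    (hb.le ha (Filter.Eventually.of_forall fun _ h => h))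

theorem GRep.val_eq {P : Ultra (RB X) → Prop} {Q : X → Prop} (h : GRep P Q) {b : RB X}
    (hb : RB.Rep b Q) (U : Ultra (RB X)) : P U ↔ b ∈ U := by
  obtain ⟨b', h1, h2⟩ := h
  rw [Rep.unique hb h2]
  exact h1 U

/-- pointwise equality on a region -/
theorem mem_of_inf_eq {d a b : RB X} (h : d ⊓ a = d ⊓ b) {x : X} (hx : x ∈ d.val) :
    x ∈ a.val ↔ x ∈ b.val := by
  constructor
  · intro ha
    have h1 : x ∈ (d ⊓ a).val := RB.mem_inf.2 ⟨hx, ha⟩
    rw [h] at h1
    exact (RB.mem_inf.1 h1).2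
  · intro hb
    have h1 : x ∈ (d ⊓ b).val := RB.mem_inf.2 ⟨hx, hb⟩
    rw [← h] at h1
    exact (RB.mem_inf.1 h1).2

theorem le_eqB_of_rep {d : RB X} {z z' : ℕ → RB X}
    (h : ∀ᶠ x in residual X, x ∈ d.val → ∀ n, (x ∈ (z n).val ↔ x ∈ (z' n).val)) :
    d ≤ eqB z z' := by
  rw [le_eqB]
  intro n
  apply le_antisymm
  · refine RB.le_of_residual ?_
    filter_upwards [h] with x hx h1
    obtain ⟨h2, h3⟩ := RB.mem_inf.1 h1
    exact RB.mem_inf.2 ⟨h2, (hx h2 n).1 h3⟩
  · refine RB.le_of_residual ?_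
    filter_upwards [h] with x hx h1
    obtain ⟨h2, h3⟩ := RB.mem_inf.1 h1
    exact RB.mem_inf.2 ⟨h2, (hx h2 n).2 h3⟩

/-- Disjoint refinement of an invariant family along a well-order. -/
theorem disjointify_inv {B : Type} [CompleteBooleanAlgebra B] {ι : Type} (x : ι → B)
    (G : Set (B ≃o B)) (hx : ∀ g ∈ G, ∀ i, g (x i) = x i) :
    ∃ a : ι → B, (∀ i, a i ≤ x i) ∧ (∀ i j, i ≠ j → a i ⊓ a j = ⊥) ∧ (∀ i, x i ≤ ⨆ i, a i) ∧
      ∀ g ∈ G, ∀ i, g (a i) = a i := by
  set rel : ι → ι → Prop := WellOrderingRel with hrel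
  have hwo : IsWellOrder ι rel := WellOrderingRel.isWellOrder
  set a : ι → B := fun i => x i ⊓ (⨆ j : {j // rel j i}, x j)ᶜ with ha
  have hdis : ∀ i j, rel i j → a i ⊓ a j = ⊥ := by
    intro i j hij
    rw [← le_bot_iff]
    have h1 : a i ≤ ⨆ k : {k // rel k j}, x k :=
      inf_le_left.trans (le_iSup (fun k : {k // rel k j} => x k) ⟨i, hij⟩)
    calc a i ⊓ a j ≤ (⨆ k : {k // rel k j}, x k) ⊓ (⨆ k : {k // rel k j}, x k)ᶜ :=
          inf_le_inf h1 inf_le_right
      _ = ⊥ := inf_compl_self _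
      _ ≤ ⊥ := le_rfl
  refine ⟨a, fun i => inf_le_left, fun i j hij => ?_, ?_, ?_⟩
  · rcases trichotomous_of rel i j with h | h | h
    · exact hdis i j h
    · exact absurd h hij
    · rw [inf_comm]; exact hdis j i h
  · intro i
    refine hwo.wf.induction (C := fun i => x i ≤ ⨆ i, a i) i (fun i ih => ?_)
    have h1 : x i ≤ a i ⊔ ⨆ j : {j // rel j i}, x j := by
      rw [ha]
      simp only
      rw [sup_inf_right, sup_comm _ᶜ, sup_compl_eq_top, inf_top_eq]
      exact le_sup_left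
    exact h1.trans (sup_le (le_iSup a i) (iSup_le fun j => ih j.1 j.2))
  · intro g hg i
    rw [ha]
    simp only
    rw [map_inf, BVM.map_compl' g, OrderIso.map_iSup, hx g hg i]
    congr 2
    exact iSup_congr fun j => hx g hg j.1

theorem mix_eq_general {B : Type} [CompleteBooleanAlgebra B] {ι : Type} {a : ι → B}
    (ha : ∀ i j, i ≠ j → a i ⊓ a j = ⊥) (z : ι → B) (i : ι) :
    a i ⊓ z i = a i ⊓ ⨆ j, a j ⊓ z j := by
  rw [inf_iSup_eq]
  apply le_antisymm
  · exact le_iSup_of_le i (le_inf inf_le_left le_rfl)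
  · refine iSup_le fun j => ?_
    by_cases hij : i = j
    · subst hij
      exact inf_le_right
    · rw [← inf_assoc, ha i j hij, bot_inf_eq]
      exact bot_le

/-- Mixing of invariant names. -/
theorem exists_mix_inv {E0 : Set Label} {γ : (ℕ → RB X) → RB X} (hγ : GammaOK E0 γ) :
    ∃ w0 : ℕ → RB X, (∀ k, Inv E0 (w0 k)) ∧ ∀ w : ℕ → RB X, (∀ k, Inv E0 (w k)) → γ w ≤ γ w0 := by
  obtain ⟨a, h1, h2, h3, h4⟩ := disjointify_inv
    (fun i : {w : ℕ → RB X // ∀ k, Inv E0 (w k)} => γ i.1) (FixE E0)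
    (fun g hg i => hγ.inv Subset.rfl i.2 g hg)
  have hinv : ∀ i, Inv E0 (a i) := fun i g hg => h4 g hg i
  refine ⟨fun k => ⨆ i, a i ⊓ i.1 k, fun k => Inv.iSup fun i => (hinv i).inf (i.2 k),
    fun w hw => ?_⟩
  refine (h3 ⟨w, hw⟩).trans (iSup_le fun i => ?_)
  refine le_trans (le_inf (h1 i) ?_) (hγ.ext i.1 _)
  rw [le_eqB]
  intro n
  exact mix_eq_general h2 (fun i => i.1 n) i

/-! ### The functions `γ` -/

section gamma

variable (r : ℕ → ℕ → Prop) (χ : (ℕ → RB X) → RB X)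

/-- initial segment -/
noncomputable def initv (c : ℕ → RB X) : RB X :=
  ⨅ p : {p : ℕ × ℕ // r p.1 p.2}, c p.1.2 ⇨ c p.1.1

/-- remove the maximum -/
noncomputable def hh (c : ℕ → RB X) (n : ℕ) : RB X := ⨆ m : {m : ℕ // r n m}, c m.1

/-- the function `γ` -/
noncomputable def gam (a b : ℕ) (c : ℕ → RB X) : RB X :=
  initv r c ⊓ χ (hh r c) ⊓ c a ⊓ (c b)ᶜ

theorem rep_initv (c : ℕ → RB X) : RB.Rep (initv r c) (fun x => RInit r (at' c x)) := by
  refine (RB.Rep.iInf fun p : {p : ℕ × ℕ // r p.1 p.2} =>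
    (RB.Rep.self (c p.1.2)).himp (RB.Rep.self (c p.1.1))).congr
    (Filter.Eventually.of_forall fun x => ?_)
  exact ⟨fun h n m hnm => h ⟨(n, m), hnm⟩, fun h p => h _ _ p.2⟩

theorem rep_hh (c : ℕ → RB X) (n : ℕ) : RB.Rep (hh r c n) (fun x => rh r (at' c x) n) := by
  refine (RB.Rep.iSup fun m : {m : ℕ // r n m} => RB.Rep.self (c m.1)).congr
    (Filter.Eventually.of_forall fun x => ?_)
  exact ⟨fun ⟨m, hm⟩ => ⟨m.1, m.2, hm⟩, fun ⟨m, h1, h2⟩ => ⟨⟨m, h1⟩, h2⟩⟩

theorem rep_hh_all (c : ℕ → RB X) :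
    ∀ᶠ x in residual X, ∀ n, at' (hh r c) x n ↔ rh r (at' c x) n :=
  eventually_countable_forall.2 fun n => rep_hh r c n

theorem hh_congr {d : RB X} {c c' : ℕ → RB X} (h : d ≤ eqB c c') : d ≤ eqB (hh r c) (hh r c') := by
  rw [le_eqB] at *
  intro n
  unfold hh
  rw [inf_iSup_eq, inf_iSup_eq]
  exact iSup_congr fun m => h m.1

theorem inv_hh {E : Set Label} {c : ℕ → RB X} (h : ∀ n, Inv E (c n)) (n : ℕ) :
    Inv E (hh r c n) := Inv.iSup fun m => h m.1

variable {χ}

theorem gam_ok {E0 : Set Label} (hχ : GammaOK E0 χ) (a b : ℕ) : GammaOK E0 (gam r χ a b) where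
  ext z z' := by
    set d := gam r χ a b z ⊓ eqB z z' with hd
    have h1 : d ≤ eqB z z' := inf_le_right
    have h2 : d ≤ gam r χ a b z := inf_le_left
    have h3 := le_eqB.1 h1
    refine le_inf (le_inf (le_inf ?_ ?_) ?_) ?_
    · refine RB.le_of_residual ?_
      filter_upwards [rep_initv r z, rep_initv r z'] with x hx hx' hxd
      rw [hx']
      have h4 := hx.1 (h2 hxd).1.1.1
      intro n m hnm hm
      have hm' := (mem_of_inf_eq (h3 m) hxd).2 hm
      exact (mem_of_inf_eq (h3 n) hxd).1 (h4 n m hnm hm')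
    · exact (le_inf (h2.trans (inf_le_left.trans (inf_le_left.trans inf_le_right)))
        (hh_congr r h1)).trans (hχ.ext _ _)
    · have h4 : d ≤ z a := h2.trans (inf_le_left.trans inf_le_right)
      have h5 := h3 a
      rw [inf_eq_left.2 h4] at h5
      exact inf_eq_left.1 h5.symm
    · have h4 : d ≤ (z b)ᶜ := h2.trans inf_le_right
      rw [le_compl_iff_disjoint_right, disjoint_iff] at h4 ⊢
      rw [← h3 b]
      exact h4
  equiv g hg z := by
    have h1 : hh r (fun n => g (z n)) = fun n => g (hh r z n) := by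
      funext n
      unfold hh
      rw [OrderIso.map_iSup]
    have h2 : initv r (fun n => g (z n)) = g (initv r z) := by
      unfold initv
      rw [OrderIso.map_iInf]
      exact iInf_congr fun p => (BVM.map_himp' g _ _).symm
    unfold gam
    rw [h1, h2, hχ.equiv g hg, map_inf, map_inf, map_inf, BVM.map_compl' g]

end gamma

end Pool.Agent.Lib.P7aa9af
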