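import Pool.Agent.Lib.P7aa9af.Real1

/-!
The space of cuts is sequential in the symmetric model: algebraic part, continued.
-/

open Set Topology TopologicalSpace Classical

namespace Pool.Agent.Lib.P7aa9af

open Pool.Agent.Lib.P6aeb5f Pool.Agent.Lib.BVM PiNat bSet

theorem le_of_cond {d a : RB X} (h : ∀ᶠ x in residual X, x ∈ d.val → x ∈ a.val) : d ≤ a :=
  RB.le_of_residual h

theorem rep_convB (R : ℕ → ℕ → RB X) (y : ℕ → RB X) :
    RB.Rep (convB R y) (fun x => ∀ k, ∃ m0, ∀ m, m0 ≤ m → (at' (R m) x k ↔ at' y x k)) := by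
  unfold convB
  exact RB.Rep.iInf fun k => RB.Rep.iSup fun m0 => RB.Rep.iInf fun m => RB.Rep.iInf fun _ =>
    (RB.Rep.self (R m k)).eqv (RB.Rep.self (y k))

theorem le_gam {r : ℕ → ℕ → Prop} {χ : (ℕ → RB X) → RB X} {a b : ℕ} {d : RB X} {y : ℕ → RB X}
    (h1 : d ≤ χ (hh r y))
    (h2 : ∀ᶠ x in residual X, x ∈ d.val → RInit r (at' y x) ∧ at' y x a ∧ ¬ at' y x b) :
    d ≤ gam r χ a b y := by
  unfold gam
  refine le_inf (le_inf (le_inf ?_ h1) ?_) ?_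
  · refine le_of_cond ?_
    filter_upwards [h2, rep_initv r y] with x h2 h3 hxd
    exact h3.2 (h2 hxd).1
  · refine le_of_cond ?_
    filter_upwards [h2] with x h1 hxd using (h1 hxd).2.1
  · refine le_of_cond ?_
    filter_upwards [h2, RB.union_compl_residual (y b).val] with x h1 h2 hxd
    exact h2.resolve_left (h1 hxd).2.2

theorem gam_le {r : ℕ → ℕ → Prop} {χ : (ℕ → RB X) → RB X} {a b : ℕ} {y : ℕ → RB X} :
    gam r χ a b y ≤ χ (hh r y) := inf_le_left.trans (inf_le_left.trans inf_le_right)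

theorem mem_gam {r : ℕ → ℕ → Prop} {χ : (ℕ → RB X) → RB X} {a b : ℕ} {y : ℕ → RB X} {x : X}
    (h : x ∈ (gam r χ a b y).val) : x ∈ (initv r y).val ∧ at' y x a ∧ ¬ at' y x b :=
  ⟨h.1.1.1, h.1.2, fun h' => RB.not_mem_compl h' h.2⟩

/-- sequential closedness of `χ`, in algebraic form -/
def SeqB (r : ℕ → ℕ → Prop) (χ : (ℕ → RB X) → RB X) (b0 : RB X) : Prop :=
  ∀ E', InI E' → ∀ (R : ℕ → ℕ → RB X) (y : ℕ → RB X), (∀ m k, Inv E' (R m k)) →
      (∀ k, Inv E' (y k)) → ∀ b : RB X, b ≤ b0 → (∀ m, b ≤ χ (R m)) →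
      (∀ᶠ x in residual X, x ∈ b.val → RCut r (at' y x)) →
      (∀ᶠ x in residual X, x ∈ b.val → RConv r (fun m => at' (R m) x) (at' y x)) → b ≤ χ y

theorem gam_seq {r : ℕ → ℕ → Prop} (hr : RDLO r) {χ : (ℕ → RB X) → RB X} {b0 : RB X}
    (f2 : SeqB r χ b0) (a b : ℕ) {E' : Set Label} (hE' : InI E') {R : ℕ → ℕ → RB X}
    {y : ℕ → RB X} (hR : ∀ m k, Inv E' (R m k)) (hy : ∀ k, Inv E' (y k)) :
    b0 ⊓ (⨅ m, gam r χ a b (R m)) ⊓ convB R y ≤ gam r χ a b y := by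
  have hd0 : b0 ⊓ (⨅ m, gam r χ a b (R m)) ⊓ convB R y ≤ b0 := inf_le_left.trans inf_le_left
  have hdg : ∀ m, b0 ⊓ (⨅ m, gam r χ a b (R m)) ⊓ convB R y ≤ gam r χ a b (R m) := fun m =>
    (inf_le_left.trans inf_le_right).trans (iInf_le _ m)
  have hdc : b0 ⊓ (⨅ m, gam r χ a b (R m)) ⊓ convB R y ≤ convB R y := inf_le_right
  generalize b0 ⊓ (⨅ m, gam r χ a b (R m)) ⊓ convB R y = d at hd0 hdg hdc ⊢
  have key : ∀ᶠ x in residual X, x ∈ d.val → RInit r (at' y x) ∧ at' y x a ∧ ¬ at' y x b ∧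
      RCut r (at' (hh r y) x) ∧ RConv r (fun m => at' (hh r (R m)) x) (at' (hh r y) x) := by
    have h1 : ∀ᶠ x in residual X, ∀ m, (x ∈ (initv r (R m)).val ↔ RInit r (at' (R m) x)) :=
      eventually_countable_forall.2 fun m => rep_initv r (R m)
    have h2 : ∀ᶠ x in residual X, ∀ m, ∀ n, at' (hh r (R m)) x n ↔ rh r (at' (R m) x) n :=
      eventually_countable_forall.2 fun m => rep_hh_all r (R m)
    filter_upwards [h1, h2, rep_convB R y, rep_hh_all r y] with x h1 h2 h3 h4 hxd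
    obtain ⟨h6, h7, h8, h9, h10⟩ := conv_rh hr (R := fun m => at' (R m) x) (s := at' y x)
      (a := a) (b := b)
      (fun m => (h1 m).1 (mem_gam (hdg m hxd)).1) (fun m => (mem_gam (hdg m hxd)).2.1)
      (fun m => (mem_gam (hdg m hxd)).2.2) (h3.1 (hdc hxd))
    have e1 : at' (hh r y) x = rh r (at' y x) := funext fun n => propext (h4 n)
    have e2 : (fun m => at' (hh r (R m)) x) = fun m => rh r (at' (R m) x) :=
      funext fun m => funext fun n => propext (h2 m n)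
    rw [e1, e2]
    exact ⟨h6, h7, h8, h9, h10⟩
  refine le_gam ?_ ?_
  · refine f2 E' hE' (fun m => hh r (R m)) (hh r y) (fun m k => inv_hh r (hR m) k)
      (fun k => inv_hh r hy k) d hd0 (fun m => (hdg m).trans gam_le) ?_ ?_
    · filter_upwards [key] with x h1 hxd using (h1 hxd).2.2.2.1
    · filter_upwards [key] with x h1 hxd using (h1 hxd).2.2.2.2
  · filter_upwards [key] with x h1 hxd using ⟨(h1 hxd).1, (h1 hxd).2.1, (h1 hxd).2.2.1⟩

theorem exists_inv_witness {r : ℕ → ℕ → Prop} (hr : RDLO r) {E0 : Set Label} (hE0 : InI E0)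
    {χ : (ℕ → RB X) → RB X} (hχ : GammaOK E0 χ) {b0 : RB X} (f2 : SeqB r χ b0) (a b : ℕ) :
    ∃ w : ℕ → RB X, (∀ k, Inv E0 (w k)) ∧ ∀ E', InI E' →
      ∀ z : ℕ → RB X, (∀ n, Inv E' (z n)) → b0 ⊓ gam r χ a b z ≤ gam r χ a b w := by
  obtain ⟨w0, hw0, hw⟩ := exists_mix_inv (gam_ok r hχ a b)
  refine ⟨w0, hw0, fun E' hE' z hz x hx => ?_⟩
  obtain ⟨w, hw1, hw2⟩ := core hE0 (hE0.union hE') subset_union_left (gam_ok r hχ a b)
    (fun E'' hE'' R y hR hy => gam_seq hr f2 a b hE'' hR hy)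
    (fun n => (hz n).mono subset_union_right) hx
  exact hw w hw1 hw2

end Pool.Agent.Lib.P7aa9af
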