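import Pool.Agent.Lib.P7aa9af.Real2

/-!
The space of cuts is sequential in the symmetric model: algebraic part, end.
-/

open Set Topology TopologicalSpace Classical

namespace Pool.Agent.Lib.P7aa9af

open Pool.Agent.Lib.P6aeb5f Pool.Agent.Lib.BVM PiNat bSet

/-- value of lying in an open interval -/
noncomputable def iv (r : ℕ → ℕ → Prop) (c : ℕ → RB X) (a b : ℕ) : RB X :=
  c a ⊓ ⨆ m : {m : ℕ // r m b}, (c m.1)ᶜ

theorem rep_iv {r : ℕ → ℕ → Prop} (c : ℕ → RB X) (a b : ℕ) :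
    RB.Rep (iv r c a b) (fun x => RInt r a b (at' c x)) := by
  refine ((RB.Rep.self (c a)).inf (RB.Rep.iSup fun m : {m : ℕ // r m b} =>
    (RB.Rep.self (c m.1)).compl)).congr (Filter.Eventually.of_forall fun x => ?_)
  exact and_congr Iff.rfl ⟨fun ⟨m, hm⟩ => ⟨m.1, hm, m.2⟩, fun ⟨m, h1, h2⟩ => ⟨⟨m, h2⟩, h1⟩⟩

theorem inv_iv {r : ℕ → ℕ → Prop} {E : Set Label} {c : ℕ → RB X} (hc : ∀ n, Inv E (c n))
    (a b : ℕ) : Inv E (iv r c a b) := (hc a).inf (Inv.iSup fun m => (hc m.1).compl)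

/-- A member of the interval is a witness. -/
theorem le_gam_of_mem {r : ℕ → ℕ → Prop} (hr : RDLO r) {E0 : Set Label}
    {χ : (ℕ → RB X) → RB X} (hχ : GammaOK E0 χ) {b0 : RB X}
    (f1 : ∀ z, ∀ᶠ x in residual X, x ∈ b0.val → x ∈ (χ z).val → RCut r (at' z x))
    (z : ℕ → RB X) (a b : ℕ) : b0 ⊓ χ z ⊓ iv r z a b ≤ gam r χ a b z := by
  have h0 : b0 ⊓ χ z ⊓ iv r z a b ≤ b0 := inf_le_left.trans inf_le_left
  have h1 : b0 ⊓ χ z ⊓ iv r z a b ≤ χ z := inf_le_left.trans inf_le_right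
  have h2 : b0 ⊓ χ z ⊓ iv r z a b ≤ iv r z a b := inf_le_right
  generalize b0 ⊓ χ z ⊓ iv r z a b = d at h0 h1 h2 ⊢
  have key : ∀ᶠ x in residual X, x ∈ d.val → RCut r (at' z x) ∧ at' z x a ∧ ¬ at' z x b := by
    filter_upwards [f1 z, rep_iv (r := r) z a b] with x h3 h4 hxd
    have h5 := h3 (h0 hxd) (h1 hxd)
    obtain ⟨h6, m, hm, hmb⟩ := h4.1 (h2 hxd)
    exact ⟨h5, h6, fun hb => hm (h5.down m b hmb hb)⟩
  refine le_gam ?_ ?_
  · refine le_trans (le_inf h1 ?_) (hχ.ext z (hh r z))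
    refine le_eqB_of_rep ?_
    filter_upwards [key, rep_hh_all r z] with x h1 h2 hxd n
    exact (rh_cut hr (h1 hxd).1 n).symm.trans (h2 n).symm
  · filter_upwards [key] with x h1 hxd using ⟨(h1 hxd).1.down, (h1 hxd).2.1, (h1 hxd).2.2⟩

/-- the value of a good approximating interval -/
noncomputable def Gv (r : ℕ → ℕ → Prop) (c : ℕ → RB X) (n e : ℕ) : RB X :=
  iv r c e.unpair.1 e.unpair.2 ⊓
    (⨅ i : {i : ℕ // i < n ∧ ¬ r i e.unpair.1}, (c i.1)ᶜ) ⊓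
    ⨅ p : {p : ℕ × ℕ // p.1 < n ∧ ¬ r e.unpair.2 p.1 ∧ r p.2 p.1}, c p.1.2

theorem rep_Gv {r : ℕ → ℕ → Prop} (c : ℕ → RB X) (n e : ℕ) :
    RB.Rep (Gv r c n e) (fun x => RG r (at' c x) n e.unpair.1 e.unpair.2) := by
  refine (((rep_iv c e.unpair.1 e.unpair.2).inf (RB.Rep.iInf
    fun i : {i : ℕ // i < n ∧ ¬ r i e.unpair.1} => (RB.Rep.self (c i.1)).compl)).inf
    (RB.Rep.iInf fun p : {p : ℕ × ℕ // p.1 < n ∧ ¬ r e.unpair.2 p.1 ∧ r p.2 p.1} =>
      RB.Rep.self (c p.1.2))).congr (Filter.Eventually.of_forall fun x => ?_)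
  constructor
  · rintro ⟨⟨h1, h2⟩, h3⟩
    refine ⟨h1, fun i hi hci => ?_, fun j hj hk => ?_⟩
    · by_contra hcon
      exact h2 ⟨i, hi, hcon⟩ hci
    · by_contra hcon
      obtain ⟨k, hk1, hk2⟩ := hk
      exact hk1 (h3 ⟨(j, k), hj, hcon, hk2⟩)
  · rintro ⟨h1, h2, h3⟩
    refine ⟨⟨h1, fun i hci => i.2.2 (h2 i.1 i.2.1 hci)⟩, fun p => ?_⟩
    by_contra hcon
    exact p.2.2.1 (h3 p.1.1 p.2.1 ⟨p.1.2, hcon, p.2.2.2⟩)

theorem inv_Gv {r : ℕ → ℕ → Prop} {E : Set Label} {c : ℕ → RB X} (hc : ∀ n, Inv E (c n))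
    (n e : ℕ) : Inv E (Gv r c n e) := by
  unfold Gv
  refine Inv.inf (Inv.inf (inv_iv hc _ _) (Inv.iInf fun i => ?_)) (Inv.iInf fun p => ?_)
  · exact (hc i.1).compl
  · exact hc p.1.2

theorem Gv_le {r : ℕ → ℕ → Prop} (c : ℕ → RB X) (n e : ℕ) :
    Gv r c n e ≤ iv r c e.unpair.1 e.unpair.2 := inf_le_left.trans inf_le_left

/-- The statement that the sequentially closed set `χ` of cuts is closed, in algebraic
form; everything is below `b0`. -/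
theorem real_alg {r : ℕ → ℕ → Prop} (hr : RDLO r) {E0 E1 : Set Label} (hE0 : InI E0)
    (hE1 : InI E1) {χ : (ℕ → RB X) → RB X} (hχ : GammaOK E0 χ) {b0 : RB X}
    {c : ℕ → RB X} (hc : ∀ n, Inv E1 (c n))
    (f1 : ∀ z, ∀ᶠ x in residual X, x ∈ b0.val → x ∈ (χ z).val → RCut r (at' z x))
    (f2 : SeqB r χ b0)
    (f3 : ∀ᶠ x in residual X, x ∈ b0.val → RCut r (at' c x))
    (f4 : ∀ a b : ℕ, b0 ⊓ iv r c a b ≤
      ⨆ z : {z : ℕ → RB X // ∃ E', InI E' ∧ ∀ n, Inv E' (z n)}, b0 ⊓ χ z.1 ⊓ iv r z.1 a b) :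
    b0 ≤ χ c := by
  choose W hWinv hW using fun a b => exists_inv_witness hr hE0 hχ f2 a b
  have f5 : ∀ a b, b0 ⊓ iv r c a b ≤ gam r χ a b (W a b) := by
    intro a b
    refine (f4 a b).trans (iSup_le fun z => ?_)
    obtain ⟨z, E', hE', hz⟩ := z
    exact (le_inf (inf_le_left.trans inf_le_left) (le_gam_of_mem hr hχ f1 z a b)).trans
      (hW a b E' hE' z hz)
  -- the approximating sequence
  obtain ⟨D, hD⟩ : ∃ D : ℕ → ℕ → RB X, D = fun n => disj (Gv r c n) := ⟨_, rfl⟩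
  obtain ⟨R, hR⟩ : ∃ R : ℕ → ℕ → RB X, R = fun n => mixB (D n) fun e =>
    hh r (W e.unpair.1 e.unpair.2) := ⟨_, rfl⟩
  have hDG : ∀ n e, D n e ≤ Gv r c n e := fun n e => by rw [hD]; exact disj_le _ _
  have hmix : ∀ n e k, D n e ⊓ R n k = D n e ⊓ hh r (W e.unpair.1 e.unpair.2) k := fun n e k => by
    rw [hR, hD]
    exact mixB_eq (disj_disj (Gv r c n)) _ e k
  have hcov : ∀ n, b0 ≤ ⨆ e, D n e := by
    intro n
    rw [hD]
    refine le_trans ?_ (le_iSup_disj (Gv r c n))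
    refine le_of_cond ?_
    filter_upwards [f3, RB.Rep.iSup (rep_Gv (r := r) c n)] with x h1 h2 hx0
    obtain ⟨a, b, hab⟩ := exists_RG hr (h1 hx0) n
    exact h2.2 ⟨Nat.pair a b, by rw [Nat.unpair_pair]; exact hab⟩
  have hDgam : ∀ n e, b0 ⊓ D n e ≤ gam r χ e.unpair.1 e.unpair.2 (W e.unpair.1 e.unpair.2) :=
    fun n e => (inf_le_inf_left _ ((hDG n e).trans (Gv_le c n e))).trans (f5 _ _)
  have hχR : ∀ n, b0 ≤ χ (R n) := by
    intro n
    have h1 : b0 ≤ ⨆ e, b0 ⊓ D n e := by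
      rw [← inf_iSup_eq]
      exact le_inf le_rfl (hcov n)
    refine h1.trans (iSup_le fun e => ?_)
    refine le_trans (le_inf ((hDgam n e).trans gam_le) ?_)
      (hχ.ext (hh r (W e.unpair.1 e.unpair.2)) (R n))
    refine inf_le_right.trans ?_
    rw [le_eqB]
    exact fun k => (hmix n e k).symm
  have hRinv : ∀ n k, Inv (E0 ∪ E1) (R n k) := fun n k => by
    rw [hR, hD]
    exact Inv.iSup fun e => ((disj_inv (inv_Gv hc n) e).mono subset_union_right).inf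
      (Inv.mono (inv_hh r (hWinv _ _) k) subset_union_left)
  refine f2 (E0 ∪ E1) (hE0.union hE1) R c hRinv (fun k => (hc k).mono subset_union_right) b0 le_rfl
    hχR f3 ?_
  have e1 : ∀ᶠ x in residual X, ∀ n, x ∈ (⨆ e, D n e).val ↔ ∃ e, x ∈ (D n e).val :=
    eventually_countable_forall.2 fun n => RB.Rep.iSup fun e => RB.Rep.self (D n e)
  have e2 : ∀ᶠ x in residual X, ∀ n e, x ∈ (Gv r c n e).val ↔
      RG r (at' c x) n e.unpair.1 e.unpair.2 :=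
    eventually_countable_forall.2 fun n => eventually_countable_forall.2 fun e => rep_Gv c n e
  have e3 : ∀ᶠ x in residual X, ∀ a b : ℕ, x ∈ (initv r (W a b)).val ↔ RInit r (at' (W a b) x) :=
    eventually_countable_forall.2 fun a => eventually_countable_forall.2 fun b =>
      rep_initv r (W a b)
  have e4 : ∀ᶠ x in residual X, ∀ a b : ℕ, ∀ n, at' (hh r (W a b)) x n ↔ rh r (at' (W a b) x) n :=
    eventually_countable_forall.2 fun a => eventually_countable_forall.2 fun b =>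
      rep_hh_all r (W a b)
  filter_upwards [e1, e2, e3, e4] with x h1 h2 h3 h4 hx0
  refine conv_RG hr fun n => ?_
  obtain ⟨e, he⟩ := (h1 n).1 (hcov n hx0)
  have hg := mem_gam (hDgam n e (RB.mem_inf.2 ⟨hx0, he⟩))
  refine ⟨e.unpair.1, e.unpair.2, at' (W e.unpair.1 e.unpair.2) x, (h2 n e).1 (hDG n e he),
    (h3 _ _).1 hg.1, hg.2.1, hg.2.2, fun k => ?_⟩
  exact (mem_of_inf_eq (hmix n e k) he).trans (h4 _ _ k)

end Pool.Agent.Lib.P7aa9af
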