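import Pool.Agent.Lib.P7aa9af.ROTop
import Pool.Agent.Lib.BVM.SymModel

/-!
The forcing space, cylinders, swaps, the symmetric system and homogeneity.
-/

open Set Topology TopologicalSpace Classical

namespace Pool.Agent.Lib.P7aa9af

open Pool.Agent.Lib.P6aeb5f Pool.Agent.Lib.BVM PiNat

/-- Labels. -/
abbrev Label := List ℤ × ℕ

/-- `f` extends the (reversed) list `s`. -/
def Ext (s : List ℤ) (f : ℕ → ℤ) : Prop := res f s.length = s

theorem ext_iff_res {f g : ℕ → ℤ} {n : ℕ} : Ext (res f n) g ↔ ∀ i < n, g i = f i := by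
  unfold Ext
  rw [res_length, res_eq_res]

theorem ext_res (f : ℕ → ℤ) (n : ℕ) : Ext (res f n) f := ext_iff_res.2 fun _ _ => rfl

theorem ext_congr {s : List ℤ} {f g : ℕ → ℤ} (h : ∀ i < s.length, f i = g i) (hf : Ext s f) :
    Ext s g := by
  unfold Ext at *
  rw [← hf]
  rw [res_length, res_eq_res]
  exact fun i hi => (h i hi).symm

/-- The forcing space. -/
abbrev X : Type := {c : Label → ℕ → ℤ // ∀ u, Ext u.1 (c u)}

theorem X.ext {x y : X} (h : ∀ u, x.1 u = y.1 u) : x = y := Subtype.ext (funext h)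

/-- finite determination -/
theorem isOpen_of_fd {P : X → Prop} (F : Finset Label) (n : ℕ)
    (h : ∀ x y : X, (∀ u ∈ F, ∀ i < n, x.1 u i = y.1 u i) → P x → P y) : IsOpen {x | P x} := by
  rw [isOpen_iff_forall_mem_open]
  intro x hx
  refine ⟨⋂ u ∈ F, ⋂ i ∈ Finset.range n, {y : X | y.1 u i = x.1 u i}, ?_, ?_, ?_⟩
  · intro y hy
    simp only [mem_iInter, Finset.mem_range] at hy
    exact h x y (fun u hu i hi => (hy u hu i hi).symm) hx
  · refine isOpen_biInter_finset fun u _ => isOpen_biInter_finset fun i _ => ?_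
    have hc : Continuous (fun y : X => y.1 u i) :=
      (continuous_apply i).comp ((continuous_apply u).comp continuous_subtype_val)
    exact hc.isOpen_preimage {x.1 u i} (isOpen_discrete _)
  · simp only [mem_iInter]
    exact fun u _ i _ => rfl

theorem isClopen_of_fd {P : X → Prop} (F : Finset Label) (n : ℕ)
    (h : ∀ x y : X, (∀ u ∈ F, ∀ i < n, x.1 u i = y.1 u i) → P x → P y) : IsClopen {x | P x} := by
  refine ⟨⟨?_⟩, isOpen_of_fd F n h⟩
  exact isOpen_of_fd (P := fun x => ¬ P x) F n fun x y hxy hx hy =>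
    hx (h y x (fun u hu i hi => (hxy u hu i hi).symm) hy)

theorem continuous_of_fd {f : X → X} (h : ∀ u i, ∃ (F : Finset Label) (n : ℕ), ∀ x y : X,
    (∀ u ∈ F, ∀ i < n, x.1 u i = y.1 u i) → (f x).1 u i = (f y).1 u i) : Continuous f := by
  refine continuous_induced_rng.2 (continuous_pi fun u => continuous_pi fun i => ?_)
  obtain ⟨F, n, hF⟩ := h u i
  refine continuous_def.2 fun s _ => ?_
  refine isOpen_of_fd (P := fun x => (f x).1 u i ∈ s) F n fun x y hxy hx => ?_
  rw [← hF x y hxy]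
  exact hx

/-- cylinder -/
def cyl (F : Finset Label) (n : ℕ) (x : X) : Set X := {y | ∀ u ∈ F, ∀ i < n, y.1 u i = x.1 u i}

theorem mem_cyl_self (F : Finset Label) (n : ℕ) (x : X) : x ∈ cyl F n x := fun _ _ _ _ => rfl

theorem isClopen_cyl (F : Finset Label) (n : ℕ) (x : X) : IsClopen (cyl F n x) :=
  isClopen_of_fd F n fun _ _ hxy hx u hu i hi => (hxy u hu i hi).symm.trans (hx u hu i hi)

theorem cyl_mono {F F' : Finset Label} {n n' : ℕ} (hF : F ⊆ F') (hn : n ≤ n') (x : X) :
    cyl F' n' x ⊆ cyl F n x :=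
  fun _ hy u hu i hi => hy u (hF hu) i (hi.trans_le hn)

theorem cyl_of_mem {F : Finset Label} {n : ℕ} {x y : X} (h : y ∈ cyl F n x) :
    cyl F n y = cyl F n x := by
  ext z
  exact ⟨fun hz u hu i hi => (hz u hu i hi).trans (h u hu i hi),
    fun hz u hu i hi => (hz u hu i hi).trans (h u hu i hi).symm⟩

theorem exists_cyl_aux {s : Set (ℕ → ℤ)} (hs : IsOpen s) {f : ℕ → ℤ} (hf : f ∈ s) :
    ∃ n, ∀ g : ℕ → ℤ, (∀ i < n, g i = f i) → g ∈ s := by
  obtain ⟨I, u, h1, h2⟩ := isOpen_pi_iff.1 hs f hf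
  refine ⟨I.sup id + 1, fun g hg => h2 fun a ha => ?_⟩
  rw [hg a (Nat.lt_succ_of_le (Finset.le_sup (f := id) ha))]
  exact (h1 a ha).2

theorem exists_cyl {O : Set X} (hO : IsOpen O) {x : X} (hx : x ∈ O) :
    ∃ F n, cyl F n x ⊆ O := by
  obtain ⟨O', hO', rfl⟩ := isOpen_induced_iff.1 hO
  obtain ⟨I, u, h1, h2⟩ := isOpen_pi_iff.1 hO' x.1 hx
  have h3 : ∀ a, ∃ n, a ∈ I → ∀ g : ℕ → ℤ, (∀ i < n, g i = x.1 a i) → g ∈ u a := by
    intro a
    by_cases ha : a ∈ I
    · obtain ⟨n, hn⟩ := exists_cyl_aux (h1 a ha).1 (h1 a ha).2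
      exact ⟨n, fun _ => hn⟩
    · exact ⟨0, fun h => absurd h ha⟩
  choose n hn using h3
  refine ⟨I, I.sup n, fun y hy => h2 fun a ha => hn a ha _ fun i hi => ?_⟩
  exact hy a ha i (hi.trans_le (Finset.le_sup ha))

instance : BaireSpace X := by
  have hclosed : IsClosed {c : Label → ℕ → ℤ | ∀ u, Ext u.1 (c u)} := by
    rw [ofPred_forall]
    refine isClosed_iInter fun u => ?_
    have h1 : IsClosed {f : ℕ → ℤ | Ext u.1 f} := by
      refine ⟨?_⟩
      rw [isOpen_iff_forall_mem_open]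
      intro f hf
      refine ⟨⋂ i ∈ Finset.range u.1.length, {g : ℕ → ℤ | g i = f i}, ?_, ?_, ?_⟩
      · intro g hg hg'
        simp only [mem_iInter, Finset.mem_range] at hg
        exact hf (ext_congr hg hg')
      · refine isOpen_biInter_finset fun i _ => ?_
        have hc : Continuous (fun g : ℕ → ℤ => g i) := continuous_apply i
        exact hc.isOpen_preimage {f i} (isOpen_discrete _)
      · simp only [mem_iInter]
        exact fun i _ => rfl
    have hc : Continuous (fun c : Label → ℕ → ℤ => c u) := continuous_apply u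
    exact h1.preimage hc
  have hp : PolishSpace {c : Label → ℕ → ℤ // ∀ u, Ext u.1 (c u)} := hclosed.polishSpace
  have hp' : PolishSpace X := hp
  letI := TopologicalSpace.upgradeIsCompletelyMetrizable X
  infer_instance

/-! ### Updates and swaps -/

/-- update of a coordinate -/
noncomputable def upd (x : X) (u : Label) (f : ℕ → ℤ) (h : Ext u.1 f) : X :=
  ⟨Function.update x.1 u f, fun u' => by
    by_cases hu : u' = u
    · subst hu; simpa using h
    · rw [Function.update_of_ne hu]; exact x.2 u'⟩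

theorem upd_same (x : X) (u : Label) (f : ℕ → ℤ) (h : Ext u.1 f) : (upd x u f h).1 u = f := by
  simp [upd]

theorem upd_ne (x : X) {u u' : Label} (f : ℕ → ℤ) (h : Ext u.1 f) (hu : u' ≠ u) :
    (upd x u f h).1 u' = x.1 u' := by
  simp [upd, hu]

/-- label `a` is above label `b` -/
def Above (a b : Label) : Prop := ∀ f : ℕ → ℤ, Ext b.1 f → Ext a.1 f

/-- conditional swap of two coordinates -/
noncomputable def swapFun (a b : Label) (h : Above a b) (x : X) : X :=
  if hx : Ext b.1 (x.1 a) then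
    ⟨fun u => x.1 (Equiv.swap a b u), fun u => by
      beta_reduce
      by_cases ha : u = a
      · subst ha
        rw [Equiv.swap_apply_left]
        exact h _ (x.2 b)
      · by_cases hb : u = b
        · subst hb
          rw [Equiv.swap_apply_right]
          exact hx
        · rw [Equiv.swap_apply_of_ne_of_ne ha hb]
          exact x.2 u⟩
  else x

theorem swapFun_pos {a b : Label} {h : Above a b} {x : X} (hx : Ext b.1 (x.1 a)) (u : Label) :
    (swapFun a b h x).1 u = x.1 (Equiv.swap a b u) := by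
  rw [swapFun, dif_pos hx]

theorem swapFun_neg {a b : Label} {h : Above a b} {x : X} (hx : ¬ Ext b.1 (x.1 a)) :
    swapFun a b h x = x := by
  rw [swapFun, dif_neg hx]

theorem swapFun_swapFun {a b : Label} (h : Above a b) (x : X) :
    swapFun a b h (swapFun a b h x) = x := by
  by_cases hx : Ext b.1 (x.1 a)
  · have h1 : Ext b.1 ((swapFun a b h x).1 a) := by
      rw [swapFun_pos hx, Equiv.swap_apply_left]
      exact x.2 b
    apply X.ext
    intro u
    rw [swapFun_pos h1, swapFun_pos hx, Equiv.swap_apply_self]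
  · rw [swapFun_neg hx, swapFun_neg hx]

theorem continuous_swapFun {a b : Label} (h : Above a b) : Continuous (swapFun a b h) := by
  refine continuous_of_fd fun u i => ⟨{a, b, u}, b.1.length + (i + 1), fun x y hxy => ?_⟩
  have key : Ext b.1 (x.1 a) ↔ Ext b.1 (y.1 a) :=
    ⟨ext_congr fun i hi => hxy a (by simp) i (by omega),
      ext_congr fun i hi => (hxy a (by simp) i (by omega)).symm⟩
  by_cases hx : Ext b.1 (x.1 a)
  · rw [swapFun_pos hx, swapFun_pos (key.1 hx)]
    refine hxy _ ?_ i (by omega)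
    by_cases ha : u = a
    · subst ha; rw [Equiv.swap_apply_left]; simp
    · by_cases hb : u = b
      · subst hb; rw [Equiv.swap_apply_right]; simp
      · rw [Equiv.swap_apply_of_ne_of_ne ha hb]; simp
  · rw [swapFun_neg hx, swapFun_neg (fun h => hx (key.2 h))]
    exact hxy u (by simp) i (by omega)

/-- conditional swap as a homeomorphism -/
noncomputable def swapH (a b : Label) (h : Above a b) : X ≃ₜ X where
  toFun := swapFun a b h
  invFun := swapFun a b h
  left_inv := swapFun_swapFun h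
  right_inv := swapFun_swapFun h
  continuous_toFun := continuous_swapFun h
  continuous_invFun := continuous_swapFun h

theorem swapH_apply (a b : Label) (h : Above a b) (x : X) : swapH a b h x = swapFun a b h x := rfl

theorem swapH_symm (a b : Label) (h : Above a b) : (swapH a b h).symm = swapH a b h := rfl

/-! ### The group -/

/-- finitely supported homeomorphism -/
structure Good (φ : X ≃ₜ X) (F : Finset Label) : Prop where
  out : ∀ x, ∀ u ∉ F, (φ x).1 u = x.1 u
  dep : ∀ x y, (∀ u ∈ F, x.1 u = y.1 u) → ∀ u ∈ F, (φ x).1 u = (φ y).1 u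

theorem Good.mono {φ : X ≃ₜ X} {F F' : Finset Label} (h : Good φ F) (hF : F ⊆ F') :
    Good φ F' where
  out x u hu := h.out x u fun hu' => hu (hF hu')
  dep x y hxy u hu := by
    by_cases hu' : u ∈ F
    · exact h.dep x y (fun w hw => hxy w (hF hw)) u hu'
    · rw [h.out x u hu', h.out y u hu', hxy u hu]

theorem Good.trans {φ ψ : X ≃ₜ X} {F : Finset Label} (h : Good φ F) (h' : Good ψ F) :
    Good (φ.trans ψ) F where
  out x u hu := by
    change (ψ (φ x)).1 u = _
    rw [h'.out _ u hu, h.out _ u hu]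
  dep x y hxy u hu := h'.dep _ _ (h.dep x y hxy) u hu

/-- coordinates are locally coordinates -/
def Loc (φ : X ≃ₜ X) : Prop := ∀ x u, ∃ u', ∀ᶠ y in 𝓝 x, (φ y).1 u = y.1 u'

theorem Loc.trans {φ ψ : X ≃ₜ X} (h : Loc φ) (h' : Loc ψ) : Loc (φ.trans ψ) := by
  intro x u
  obtain ⟨u', hu'⟩ := h' (φ x) u
  obtain ⟨u'', hu''⟩ := h x u'
  refine ⟨u'', ?_⟩
  filter_upwards [φ.continuous.continuousAt.eventually hu', hu''] with y h1 h2
  exact h1.trans h2

/-- The group. -/
def GG (φ : X ≃ₜ X) : Prop := (∃ F, Good φ F ∧ Good φ.symm F) ∧ Loc φ ∧ Loc φ.symm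

theorem GG.trans {φ ψ : X ≃ₜ X} (h : GG φ) (h' : GG ψ) : GG (φ.trans ψ) := by
  obtain ⟨⟨F, h1, h2⟩, h3, h4⟩ := h
  obtain ⟨⟨F', h1', h2'⟩, h3', h4'⟩ := h'
  refine ⟨⟨F ∪ F', ?_, ?_⟩, h3.trans h3', h4'.trans h4⟩
  · exact (h1.mono Finset.subset_union_left).trans (h1'.mono Finset.subset_union_right)
  · exact (h2'.mono Finset.subset_union_right).trans (h2.mono Finset.subset_union_left)

theorem GG.symm {φ : X ≃ₜ X} (h : GG φ) : GG φ.symm := by
  obtain ⟨⟨F, h1, h2⟩, h3, h4⟩ := h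
  exact ⟨⟨F, h2, h1⟩, h4, h3⟩

theorem GG.refl : GG (Homeomorph.refl X) :=
  ⟨⟨∅, ⟨fun _ _ _ => rfl, fun _ _ _ u hu => absurd hu (Finset.notMem_empty u)⟩,
    ⟨fun _ _ _ => rfl, fun _ _ _ u hu => absurd hu (Finset.notMem_empty u)⟩⟩,
    fun _ u => ⟨u, Filter.Eventually.of_forall fun _ => rfl⟩,
    fun _ u => ⟨u, Filter.Eventually.of_forall fun _ => rfl⟩⟩

theorem swapH_out {a b : Label} (h : Above a b) (x : X) {u : Label} (ha : u ≠ a) (hb : u ≠ b) :
    (swapH a b h x).1 u = x.1 u := by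
  rw [swapH_apply]
  by_cases hx : Ext b.1 (x.1 a)
  · rw [swapFun_pos hx, Equiv.swap_apply_of_ne_of_ne ha hb]
  · rw [swapFun_neg hx]

theorem isClopen_ext (s : List ℤ) (a : Label) : IsClopen {x : X | Ext s (x.1 a)} :=
  isClopen_of_fd {a} s.length fun _ _ hxy hx => ext_congr (fun i hi => hxy a (by simp) i hi) hx

theorem GG_swapH {a b : Label} (h : Above a b) : GG (swapH a b h) := by
  have h1 : Good (swapH a b h) {a, b} := by
    constructor
    · intro x u hu
      simp only [Finset.mem_insert, Finset.mem_singleton, not_or] at hu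
      exact swapH_out h x hu.1 hu.2
    · intro x y hxy u hu
      have ha := hxy a (by simp)
      have hb := hxy b (by simp)
      rw [swapH_apply, swapH_apply]
      by_cases hx : Ext b.1 (x.1 a)
      · have hy : Ext b.1 (y.1 a) := by rw [← ha]; exact hx
        rw [swapFun_pos hx, swapFun_pos hy]
        simp only [Finset.mem_insert, Finset.mem_singleton] at hu
        rcases hu with rfl | rfl
        · rw [Equiv.swap_apply_left]; exact hb
        · rw [Equiv.swap_apply_right]; exact ha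
      · have hy : ¬ Ext b.1 (y.1 a) := by rw [← ha]; exact hx
        rw [swapFun_neg hx, swapFun_neg hy]
        exact hxy u hu
  have h2 : Loc (swapH a b h) := by
    intro x u
    by_cases hx : Ext b.1 (x.1 a)
    · refine ⟨Equiv.swap a b u, ?_⟩
      filter_upwards [(isClopen_ext b.1 a).isOpen.mem_nhds hx] with y hy
      rw [swapH_apply, swapFun_pos hy]
    · refine ⟨u, ?_⟩
      filter_upwards [(isClopen_ext b.1 a).compl.isOpen.mem_nhds hx] with y hy
      rw [swapH_apply, swapFun_neg hy]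
  exact ⟨⟨_, h1, h1⟩, h2, h2⟩

/-! ### Supports -/

/-- The ideal of supports: finite sections and no branch. -/
def InI (E : Set Label) : Prop :=
  (∀ v, {j | (v, j) ∈ E}.Finite) ∧ ∀ f : ℕ → ℤ, ∃ l, ∀ u ∈ E, ¬ (res f l <:+ u.1)

theorem res_suffix {f : ℕ → ℤ} {m n : ℕ} (h : m ≤ n) : res f m <:+ res f n := by
  induction n with
  | zero => rw [Nat.le_zero.1 h]
  | succ n ih =>
    rcases Nat.le_succ_iff.1 h with h | h
    · exact (ih h).trans (List.suffix_cons _ _)
    · rw [h]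

theorem InI.union {E E' : Set Label} (h : InI E) (h' : InI E') : InI (E ∪ E') := by
  refine ⟨fun v => ?_, fun f => ?_⟩
  · exact ((h.1 v).union (h'.1 v)).subset fun j hj => hj
  · obtain ⟨l, hl⟩ := h.2 f
    obtain ⟨l', hl'⟩ := h'.2 f
    refine ⟨max l l', fun u hu hs => ?_⟩
    rcases hu with hu | hu
    · exact hl u hu ((res_suffix (le_max_left _ _)).trans hs)
    · exact hl' u hu ((res_suffix (le_max_right _ _)).trans hs)

theorem InI.finite {E : Set Label} (h : E.Finite) : InI E := by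
  refine ⟨fun v => ?_, fun f => ?_⟩
  · exact Finite.preimage (f := fun j => (v, j)) (fun a _ b _ hab => (Prod.mk.inj hab).2) h
  · obtain ⟨l, hl⟩ := (h.image fun u => u.1.length).bddAbove
    refine ⟨l + 1, fun u hu hs => ?_⟩
    have h1 := hs.length_le
    rw [res_length] at h1
    have h2 : u.1.length ≤ l := hl (mem_image_of_mem _ hu)
    omega

theorem InI.mono {E E' : Set Label} (h : InI E) (hE : E' ⊆ E) : InI E' :=
  ⟨fun v => (h.1 v).subset fun _ hj => hE hj, fun f => by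
    obtain ⟨l, hl⟩ := h.2 f
    exact ⟨l, fun u hu => hl u (hE hu)⟩⟩

theorem InI.fresh {E : Set Label} (h : InI E) (v : List ℤ) (F : Finset Label) :
    ∃ j, (v, j) ∉ E ∧ (v, j) ∉ F := by
  have h1 := (h.union (InI.finite F.finite_toSet)).1 v
  obtain ⟨j, hj⟩ := h1.exists_notMem
  refine ⟨j, fun h => hj (Or.inl h), fun h => hj (Or.inr h)⟩

/-- `g` comes from a homeomorphism of the group fixing the coordinates in `E` -/
def FixE (E : Set Label) : Set (RB X ≃o RB X) :=
  {g | ∃ φ, GG φ ∧ (∀ x, ∀ u ∈ E, (φ x).1 u = x.1 u) ∧ g = RB.img φ}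

theorem fix_symm {φ : X ≃ₜ X} {E : Set Label} (h : ∀ x, ∀ u ∈ E, (φ x).1 u = x.1 u) :
    ∀ x, ∀ u ∈ E, (φ.symm x).1 u = x.1 u := by
  intro x u hu
  rw [← h (φ.symm x) u hu, φ.apply_symm_apply]

/-- The symmetric system. -/
def SS : SymSys (RB X) where
  G := {g | ∃ φ, GG φ ∧ g = RB.img φ}
  trans_mem := by
    rintro _ _ ⟨φ, hφ, rfl⟩ ⟨ψ, hψ, rfl⟩
    exact ⟨φ.trans ψ, hφ.trans hψ, (RB.img_trans φ ψ).symm⟩
  symm_mem := by
    rintro _ ⟨φ, hφ, rfl⟩
    exact ⟨φ.symm, hφ.symm, (RB.img_symm φ).symm⟩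
  ι := {E : Set Label // InI E}
  Fix e := FixE e.1
  fix_sub := by
    rintro e _ ⟨φ, hφ, _, rfl⟩
    exact ⟨φ, hφ, rfl⟩
  ne := ⟨⟨∅, InI.finite Set.finite_empty⟩⟩
  refl_mem := ⟨Homeomorph.refl X, GG.refl, RB.img_refl.symm⟩
  inter := by
    rintro ⟨e, he⟩ ⟨e', he'⟩
    refine ⟨⟨e ∪ e', he.union he'⟩, ?_⟩
    rintro _ ⟨φ, hφ, h, rfl⟩
    exact ⟨⟨φ, hφ, fun x u hu => h x u (Or.inl hu), rfl⟩,
      ⟨φ, hφ, fun x u hu => h x u (Or.inr hu), rfl⟩⟩
  conj := by
    rintro ⟨e, he⟩ _ ⟨φ, hφ, rfl⟩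
    obtain ⟨⟨F, h1, h2⟩, -, -⟩ := id hφ
    refine ⟨⟨e ∪ F, he.union (InI.finite F.finite_toSet)⟩, ?_⟩
    rintro _ ⟨ψ, hψ, h, rfl⟩
    refine ⟨(φ.trans ψ).trans φ.symm, (hφ.trans hψ).trans hφ.symm, fun x u hu => ?_, ?_⟩
    · change (φ.symm (ψ (φ x))).1 u = x.1 u
      by_cases huF : u ∈ F
      · have h3 := h2.dep (ψ (φ x)) (φ x) (fun w hw => h _ w (Or.inr hw)) u huF
        rw [h3, φ.symm_apply_apply]
      · rw [h2.out _ u huF, h _ u (Or.inl hu), h1.out _ u huF]
    · rw [RB.img_trans, RB.img_trans, RB.img_symm]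

/-! ### Homogeneity -/

/-- invariance under the automorphisms fixing `E` -/
def Inv (E : Set Label) (b : RB X) : Prop := ∀ g ∈ FixE E, g b = b

theorem Inv.mono {E E' : Set Label} {b : RB X} (h : Inv E b) (hE : E ⊆ E') : Inv E' b := by
  rintro _ ⟨φ, hφ, h', rfl⟩
  exact h _ ⟨φ, hφ, fun x u hu => h' x u (hE hu), rfl⟩

theorem Inv.mem_iff {E : Set Label} {b : RB X} (h : Inv E b) {φ : X ≃ₜ X} (hφ : GG φ)
    (hE : ∀ x, ∀ u ∈ E, (φ x).1 u = x.1 u) (x : X) : φ x ∈ b.val ↔ x ∈ b.val := by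
  have h1 := h (RB.img φ.symm) ⟨φ.symm, hφ.symm, fix_symm hE, rfl⟩
  have h2 : x ∈ (RB.img φ.symm b).val ↔ φ x ∈ b.val := Iff.rfl
  rw [← h2, h1]

theorem Inv.cyl_erase {E : Set Label} (hE : InI E) {b : RB X} (hb : Inv E b) {F : Finset Label}
    {n : ℕ} {x : X} (h : cyl F n x ⊆ b.val) {u : Label} (hu : u ∉ E) :
    cyl (F.erase u) n x ⊆ b.val := by
  set O : Opens X := ⟨cyl (F.erase u) n x, (isClopen_cyl _ _ _).isOpen⟩ with hO
  have h1 : RO.mk O ≤ b := by
    by_contra hcon
    have h2 : RO.mk O ⊓ bᶜ ≠ ⊥ := by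
      intro h2
      exact hcon (by rwa [← disjoint_iff, disjoint_compl_right_iff] at h2)
    have h3 : ∃ y, y ∈ (RO.mk O ⊓ bᶜ).val := by
      by_contra h3
      push Not at h3
      exact h2 (RB.ext_mem fun x => ⟨fun h => absurd h (h3 x), fun h => absurd h (RB.not_mem_bot x)⟩)
    obtain ⟨y, hy⟩ := h3
    obtain ⟨hy1, hy2⟩ := RB.mem_inf.1 hy
    rw [RB.mem_mk_clopen (O := O) (isClopen_cyl _ _ _).isClosed] at hy1
    obtain ⟨F', n', hF'⟩ := exists_cyl (bᶜ).val.isOpen hy2
    obtain ⟨j, hj1, hj2⟩ := hE.fresh u.1 (insert u (F ∪ F'))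
    simp only [Finset.mem_insert, Finset.mem_union, not_or] at hj2
    obtain ⟨hj2, hj3, hj4⟩ := hj2
    have hab : Above u (u.1, j) := fun f hf => hf
    set y' := upd y (u.1, j) (x.1 u) (x.2 u) with hy'
    have h4 : y' ∈ (bᶜ).val := hF' fun w hw i hi => by
      rw [hy', upd_ne]
      exact fun h => hj4 (h ▸ hw)
    have h5 : swapH u (u.1, j) hab y' ∈ b.val := by
      apply h
      intro w hw i hi
      have hc : Ext (u.1, j).1 (y'.1 u) := y'.2 u
      rw [swapH_apply, swapFun_pos hc]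
      by_cases hwu : w = u
      · subst hwu
        rw [Equiv.swap_apply_left, hy', upd_same]
      · have hwj : w ≠ (u.1, j) := fun h => hj3 (h ▸ hw)
        rw [Equiv.swap_apply_of_ne_of_ne hwu hwj, hy', upd_ne _ _ _ hwj]
        exact hy1 w (Finset.mem_erase.2 ⟨hwu, hw⟩) i hi
    have h6 := (hb.mem_iff (GG_swapH hab) (fun x w hw => swapH_out hab x
      (fun h => hu (h ▸ hw)) (fun h => hj1 (h ▸ hw))) y').1 h5
    exact RB.not_mem_compl h6 h4
  intro y hy
  exact h1 (RB.mem_mk (O := O) hy)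

/-- An invariant element depends only on the coordinates in `E`. -/
theorem Inv.exists_cyl {E : Set Label} (hE : InI E) {b : RB X} (hb : Inv E b) {x : X}
    (hx : x ∈ b.val) : ∃ (F : Finset Label) (n : ℕ), (∀ u ∈ F, u ∈ E) ∧ cyl F n x ⊆ b.val := by
  obtain ⟨F, n, hF⟩ := P7aa9af.exists_cyl b.val.isOpen hx
  have key : ∀ D : Finset Label, (∀ u ∈ D, u ∉ E) → cyl (F \ D) n x ⊆ b.val := by
    intro D
    induction D using Finset.induction_on with
    | empty => intro _; simpa using hF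
    | insert u D _ ih =>
      intro hD
      have h1 := ih fun u hu => hD u (Finset.mem_insert_of_mem hu)
      have h2 := Inv.cyl_erase hE hb h1 (hD u (Finset.mem_insert_self u D))
      have h3 : F \ insert u D = (F \ D).erase u := by
        ext w
        simp only [Finset.mem_sdiff, Finset.mem_insert, Finset.mem_erase, not_or]
        tauto
      rw [h3]
      exact h2
  refine ⟨F \ F.filter (fun u => u ∉ E), n, fun u hu => ?_, key _ fun u hu => ?_⟩
  · simp only [Finset.mem_sdiff, Finset.mem_filter, not_and, not_not] at hu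
    exact hu.2 hu.1
  · exact (Finset.mem_filter.1 hu).2

theorem Inv.of_agree {E : Set Label} (hE : InI E) {b : RB X} (hb : Inv E b) {x y : X}
    (h : ∀ u ∈ E, x.1 u = y.1 u) (hx : x ∈ b.val) : y ∈ b.val := by
  obtain ⟨F, n, hF, hF'⟩ := Inv.exists_cyl hE hb hx
  exact hF' fun u hu i _ => by rw [h u (hF u hu)]

end Pool.Agent.Lib.P7aa9af
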