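import Pool.Agent.Lib.P7aa9af.Space

/-!
Substitution of coordinates.
-/

open Set Topology TopologicalSpace Classical

namespace Pool.Agent.Lib.P7aa9af

open Pool.Agent.Lib.P6aeb5f Pool.Agent.Lib.BVM PiNat

/-! ### Boolean equality -/

section bool

variable {B : Type} [BooleanAlgebra B]

/-- Boolean equivalence -/
def eqv (a b : B) : B := (a ⇨ b) ⊓ (b ⇨ a)

theorem le_eqv {d a b : B} : d ≤ eqv a b ↔ d ⊓ a = d ⊓ b := by
  unfold eqv
  rw [le_inf_iff, le_himp_iff, le_himp_iff]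
  constructor
  · rintro ⟨h1, h2⟩
    exact le_antisymm (le_inf inf_le_left h1) (le_inf inf_le_left h2)
  · intro h
    exact ⟨h ▸ inf_le_right, h.symm ▸ inf_le_right⟩

theorem eqv_comm (a b : B) : eqv a b = eqv b a := by
  unfold eqv; rw [inf_comm]

theorem le_eqv_trans {d a b c : B} (h : d ≤ eqv a b) (h' : d ≤ eqv b c) : d ≤ eqv a c := by
  rw [le_eqv] at *
  rw [h, h']

end bool

/-- Boolean equality of names of sets of natural numbers -/
noncomputable def eqB {B : Type} [CompleteBooleanAlgebra B] (z z' : ℕ → B) : B :=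
  ⨅ n, eqv (z n) (z' n)

theorem le_eqB {B : Type} [CompleteBooleanAlgebra B] {d : B} {z z' : ℕ → B} :
    d ≤ eqB z z' ↔ ∀ n, d ⊓ z n = d ⊓ z' n := by
  unfold eqB
  rw [le_iInf_iff]
  exact forall_congr' fun n => le_eqv

/-- extensional equivariant functions -/
structure GammaOK (E0 : Set Label) (γ : (ℕ → RB X) → RB X) : Prop where
  ext : ∀ z z', γ z ⊓ eqB z z' ≤ γ z'
  equiv : ∀ g ∈ FixE E0, ∀ z, γ (fun n => g (z n)) = g (γ z)

theorem GammaOK.inv {E0 E : Set Label} {γ : (ℕ → RB X) → RB X} (hγ : GammaOK E0 γ) (hE : E0 ⊆ E)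
    {z : ℕ → RB X} (hz : ∀ n, Inv E (z n)) : Inv E (γ z) := by
  intro g hg
  rw [← hγ.equiv g]
  · congr 1
    funext n
    exact hz n g hg
  · obtain ⟨φ, hφ, h, rfl⟩ := hg
    exact ⟨φ, hφ, fun x u hu => h x u (hE hu), rfl⟩

theorem Inv.inf {E : Set Label} {a b : RB X} (ha : Inv E a) (hb : Inv E b) : Inv E (a ⊓ b) :=
  fun g hg => by rw [map_inf, ha g hg, hb g hg]

theorem Inv.compl {E : Set Label} {a : RB X} (ha : Inv E a) : Inv E aᶜ :=
  fun g hg => by rw [BVM.map_compl' g, ha g hg]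

theorem Inv.himp {E : Set Label} {a b : RB X} (ha : Inv E a) (hb : Inv E b) : Inv E (a ⇨ b) :=
  fun g hg => by rw [map_himp' g, ha g hg, hb g hg]

theorem Inv.iSup {E : Set Label} {ι : Sort*} {a : ι → RB X} (ha : ∀ i, Inv E (a i)) :
    Inv E (⨆ i, a i) := fun g hg => by
  rw [OrderIso.map_iSup]
  exact iSup_congr fun i => ha i g hg

theorem Inv.iInf {E : Set Label} {ι : Sort*} {a : ι → RB X} (ha : ∀ i, Inv E (a i)) :
    Inv E (⨅ i, a i) := fun g hg => by
  rw [OrderIso.map_iInf]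
  exact iInf_congr fun i => ha i g hg

theorem Inv.top {E : Set Label} : Inv E ⊤ := fun g _ => map_top g

theorem Inv.bot {E : Set Label} : Inv E ⊥ := fun g _ => map_bot g

theorem Inv.sup {E : Set Label} {a b : RB X} (ha : Inv E a) (hb : Inv E b) : Inv E (a ⊔ b) :=
  fun g hg => by rw [map_sup, ha g hg, hb g hg]

/-- a clopen set depending on coordinates in `E` only -/
theorem Inv.cl {E : Set Label} {s : Set X} (hs : IsClopen s)
    (h : ∀ x y : X, (∀ u ∈ E, x.1 u = y.1 u) → x ∈ s → y ∈ s) : Inv E (RB.cl s hs) := by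
  rintro _ ⟨φ, _, hE, rfl⟩
  apply RB.ext_mem
  intro x
  rw [RB.mem_img, RB.mem_cl, RB.mem_cl]
  exact ⟨h _ _ fun u hu => fix_symm hE x u hu, h _ _ fun u hu => (fix_symm hE x u hu).symm⟩

/-! ### Operators -/

/-- A good operator. -/
structure GoodOp (γ : (ℕ → RB X) → RB X) (E E' : Set Label) (s : X → X) (T : RB X → RB X) :
    Prop where
  inv : ∀ b, Inv E b → Inv E' (T b)
  compl : ∀ b, Inv E b → T bᶜ = (T b)ᶜ
  inf : ∀ b c, Inv E b → Inv E c → T (b ⊓ c) = T b ⊓ T c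
  top : T ⊤ = ⊤
  gam : ∀ z : ℕ → RB X, (∀ n, Inv E (z n)) → T (γ z) ≤ γ (fun n => T (z n))
  mem : ∀ b, Inv E b → ∀ x, s x ∈ b.val → x ∈ (T b).val

theorem GoodOp.refl (γ : (ℕ → RB X) → RB X) (E : Set Label) : GoodOp γ E E id id :=
  ⟨fun _ h => h, fun _ _ => rfl, fun _ _ _ _ => rfl, rfl, fun _ _ => le_rfl, fun _ _ _ h => h⟩

theorem GoodOp.mono {γ : (ℕ → RB X) → RB X} {E E' : Set Label} {s : X → X}
    {T : RB X → RB X} (h : GoodOp γ E E' s T) {a b : RB X} (ha : Inv E a) (hb : Inv E b)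
    (hab : a ≤ b) : T a ≤ T b := by
  have h1 := h.inf a b ha hb
  rw [inf_eq_left.2 hab] at h1
  rw [h1]
  exact inf_le_right

theorem GoodOp.comp {γ : (ℕ → RB X) → RB X} {E0 E E' E'' : Set Label} {s s' : X → X}
    {T T' : RB X → RB X} (hγ : GammaOK E0 γ) (hE : E0 ⊆ E) (hE' : E0 ⊆ E')
    (h : GoodOp γ E E' s T) (h' : GoodOp γ E' E'' s' T') :
    GoodOp γ E E'' (s ∘ s') (T' ∘ T) where
  inv b hb := h'.inv _ (h.inv b hb)
  compl b hb := by
    change T' (T bᶜ) = (T' (T b))ᶜ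
    rw [h.compl b hb, h'.compl _ (h.inv b hb)]
  inf b c hb hc := by
    change T' (T (b ⊓ c)) = T' (T b) ⊓ T' (T c)
    rw [h.inf b c hb hc, h'.inf _ _ (h.inv b hb) (h.inv c hc)]
  top := by
    change T' (T ⊤) = ⊤
    rw [h.top, h'.top]
  gam z hz := by
    refine le_trans ?_ (h'.gam (fun n => T (z n)) fun n => h.inv _ (hz n))
    exact h'.mono (h.inv _ (hγ.inv hE hz)) (hγ.inv hE' fun n => h.inv _ (hz n)) (h.gam z hz)
  mem b hb x hx := h'.mem _ (h.inv b hb) x (h.mem b hb _ hx)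

/-- the substitution map -/
noncomputable def sub (u v : Label) (h : Above u v) (x : X) : X := upd x u (x.1 v) (h _ (x.2 v))

theorem continuous_sub {u v : Label} (h : Above u v) : Continuous (sub u v h) := by
  refine continuous_of_fd fun w i => ⟨{v, w}, i + 1, fun x y hxy => ?_⟩
  by_cases hw : w = u
  · subst hw
    rw [sub, upd_same, sub, upd_same]
    exact hxy v (by simp) i (by omega)
  · rw [sub, upd_ne _ _ _ hw, sub, upd_ne _ _ _ hw]
    exact hxy w (by simp) i (by omega)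

/-- the substitution operator -/
noncomputable def subT (u v : Label) (h : Above u v) (b : RB X) : RB X :=
  RO.mk (Opens.comap ⟨sub u v h, continuous_sub h⟩ b.val)

theorem mem_comap_sub {u v : Label} {h : Above u v} {b : RB X} {x : X} :
    x ∈ Opens.comap ⟨sub u v h, continuous_sub h⟩ b.val ↔ sub u v h x ∈ b.val := Iff.rfl

theorem img_mk (φ : X ≃ₜ X) (O : Opens X) : RB.img φ (RO.mk O) = RO.mk (φ.opensCongr O) := by
  apply RB.val_injective
  change φ.opensCongr (Oᶜᶜ) = (φ.opensCongr O)ᶜᶜ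
  rw [map_compl φ.opensCongr, map_compl φ.opensCongr]

theorem above_nil (j : ℕ) (v : Label) : Above ([], j) v := fun _ _ => rfl

/-- The substitution operator is good. -/
theorem goodOp_sub {E0 E : Set Label} (hEI : InI E) {γ : (ℕ → RB X) → RB X} (hγ : GammaOK E0 γ)
    (hE : E0 ⊆ E) {u v : Label} (hu : u ∉ E0) (hv : v ∉ E) (huv : u ≠ v) (h : Above u v) :
    GoodOp γ E (insert v E) (sub u v h) (subT u v h) := by
  -- the auxiliary automorphisms
  set Q : ℕ → Set X := fun j => {x : X | Ext v.1 (x.1 ([], j))} with hQ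
  have hQc : ∀ j, IsClopen (Q j) := fun j => isClopen_ext v.1 ([], j)
  set φ : ℕ → X ≃ₜ X := fun j => (swapH ([], j) v (above_nil j v)).trans
    (swapH ([], j) u (above_nil j u)) with hφ
  set Fr : Set ℕ := {j | (([], j) : Label) ∉ E ∧ (([], j) : Label) ≠ u ∧ (([], j) : Label) ≠ v}
    with hFr
  have hφG : ∀ j, GG (φ j) := fun j => (GG_swapH _).trans (GG_swapH _)
  have hφE0 : ∀ j ∈ Fr, ∀ x, ∀ w ∈ E0, (φ j x).1 w = x.1 w := by
    intro j hj x w hw
    have h1 : w ≠ ([], j) := fun h => hj.1 (h ▸ hE hw)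
    have h2 : w ≠ v := fun h => hv (h ▸ hE hw)
    have h3 : w ≠ u := fun h => hu (h ▸ hw)
    change (swapH ([], j) u (above_nil j u) (swapH ([], j) v (above_nil j v) x)).1 w = x.1 w
    rw [swapH_out _ _ h1 h3, swapH_out _ _ h1 h2]
  have hagree : ∀ j ∈ Fr, ∀ x ∈ Q j, ∀ w ∈ E, (φ j x).1 w = (sub u v h x).1 w := by
    intro j hj x hx w hw
    have h1 : w ≠ ([], j) := fun h => hj.1 (h ▸ hw)
    have h2 : w ≠ v := fun h => hv (h ▸ hw)
    change (swapH ([], j) u (above_nil j u) (swapH ([], j) v (above_nil j v) x)).1 w = _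
    have hx' : Ext v.1 (x.1 ([], j)) := hx
    have h4 : (swapH ([], j) v (above_nil j v) x).1 ([], j) = x.1 v := by
      rw [swapH_apply, swapFun_pos hx', Equiv.swap_apply_left]
    by_cases hwu : w = u
    · subst hwu
      have h5 : Ext w.1 ((swapH ([], j) v (above_nil j v) x).1 ([], j)) := by
        rw [h4]
        exact h _ (x.2 v)
      rw [swapH_apply ([], j) w, swapFun_pos h5, Equiv.swap_apply_right, h4, sub, upd_same]
    · rw [swapH_out _ _ h1 hwu, swapH_out _ _ h1 h2, sub, upd_ne _ _ _ hwu]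
  -- the key identity
  have hK : ∀ b, Inv E b → ∀ j ∈ Fr, RB.cl (Q j) (hQc j) ⊓ subT u v h b =
      RB.cl (Q j) (hQc j) ⊓ RB.img (φ j).symm b := by
    intro b hb j hj
    have h1 : RB.img (φ j).symm b = RO.mk (RB.img (φ j).symm b).val := (RO.mk_val _).symm
    rw [h1]
    unfold RB.cl subT
    rw [← RB.mk_inf, ← RB.mk_inf]
    congr 1
    ext x
    constructor
    · rintro ⟨hx1, hx2⟩
      exact ⟨hx1, hb.of_agree hEI (fun w hw => (hagree j hj x hx1 w hw).symm) hx2⟩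
    · rintro ⟨hx1, hx2⟩
      exact ⟨hx1, hb.of_agree hEI (x := φ j x) (fun w hw => hagree j hj x hx1 w hw) hx2⟩
  -- covering
  have hcov : ∀ a b : RB X, (∀ j ∈ Fr, RB.cl (Q j) (hQc j) ⊓ a ≤ b) → a ≤ b := by
    intro a b hab
    refine RB.le_of_open fun O hO hOa => ?_
    obtain ⟨x, hx⟩ := hO
    obtain ⟨F, n, hF⟩ := P7aa9af.exists_cyl O.isOpen hx
    obtain ⟨j, hj1, hj2⟩ := hEI.fresh [] (insert u (insert v F))
    simp only [Finset.mem_insert, not_or] at hj2
    have hy : upd x ([], j) (x.1 v) rfl ∈ cyl F n x := fun w hw i hi => by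
      rw [upd_ne]
      exact fun h => hj2.2.2 (h ▸ hw)
    refine ⟨_, hF hy, hab j ⟨hj1, hj2.1, hj2.2.1⟩ (RB.mem_inf.2 ⟨?_, hOa (hF hy)⟩)⟩
    rw [RB.mem_cl]
    change Ext v.1 ((upd x ([], j) (x.1 v) rfl).1 ([], j))
    rw [upd_same]
    exact x.2 v
  have hcov' : ∀ a b : RB X, (∀ j ∈ Fr, RB.cl (Q j) (hQc j) ⊓ a = RB.cl (Q j) (hQc j) ⊓ b) →
      a = b := fun a b hab => le_antisymm
    (hcov a b fun j hj => (hab j hj).le.trans inf_le_right)
    (hcov b a fun j hj => (hab j hj).ge.trans inf_le_right)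
  refine ⟨?_, ?_, ?_, ?_, ?_, ?_⟩
  · rintro b hb _ ⟨ψ, hψ, hψE, rfl⟩
    unfold subT
    rw [img_mk]
    congr 1
    ext x
    have key : ∀ w ∈ E, (sub u v h (ψ.symm x)).1 w = (sub u v h x).1 w := by
      intro w hw
      by_cases hwu : w = u
      · subst hwu
        rw [sub, upd_same, sub, upd_same]
        exact fix_symm hψE x v (mem_insert _ _)
      · rw [sub, upd_ne _ _ _ hwu, sub, upd_ne _ _ _ hwu]
        exact fix_symm hψE x w (mem_insert_of_mem _ hw)
    exact ⟨fun hx => hb.of_agree hEI key hx,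
      fun hx => hb.of_agree hEI (fun w hw => (key w hw).symm) hx⟩
  · intro b hb
    refine hcov' _ _ fun j hj => ?_
    have h1 : ∀ a c d : RB X, a ⊓ c = a ⊓ d → a ⊓ cᶜ = a ⊓ dᶜ := by
      intro a c d hcd
      have h2 : ∀ c : RB X, a ⊓ cᶜ = a ⊓ (a ⊓ c)ᶜ := fun c => by
        rw [compl_inf, inf_sup_left, inf_compl_self, bot_sup_eq]
      rw [h2 c, h2 d, hcd]
    rw [hK _ hb.compl j hj, h1 _ _ _ (hK b hb j hj), BVM.map_compl' (RB.img (φ j).symm)]
  · intro b c hb hc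
    unfold subT
    rw [← RB.mk_inf]
    rfl
  · apply top_le_iff.1
    intro x _
    exact RB.mem_mk (O := Opens.comap ⟨sub u v h, continuous_sub h⟩ (⊤ : RB X).val)
      (RB.mem_top (sub u v h x))
  · intro z hz
    refine hcov _ _ fun j hj => ?_
    rw [hK _ (hγ.inv hE hz) j hj]
    have h1 : RB.img (φ j).symm ∈ FixE E0 :=
      ⟨(φ j).symm, (hφG j).symm, fix_symm (hφE0 j hj), rfl⟩
    rw [← hγ.equiv _ h1]
    refine le_trans (le_inf inf_le_right ?_) (hγ.ext _ _)
    refine inf_le_left.trans ?_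
    rw [le_eqB]
    exact fun n => (hK _ (hz n) j hj).symm
  · intro b _ x hx
    exact RB.mem_mk (O := Opens.comap ⟨sub u v h, continuous_sub h⟩ b.val) hx

/-- Finite substitutions. -/
theorem exists_goodOp {E0 E : Set Label} (hEI : InI E) {γ : (ℕ → RB X) → RB X}
    (hγ : GammaOK E0 γ) (hE : E0 ⊆ E) (ρ : Label → Label) (K : Finset Label)
    (h0 : ∀ u ∈ K, u ∉ E0) (h1 : ∀ u ∈ K, u ∈ E) (h2 : ∀ u ∈ K, Above u (ρ u))
    (h3 : ∀ u ∈ K, ρ u ∉ E) (h4 : ∀ u ∈ K, ∀ u' ∈ K, ρ u = ρ u' → u = u') :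
    ∃ s T, GoodOp γ E (E ∪ ρ '' K) s T ∧ (∀ x : X, ∀ u ∈ E, u ∉ K → (s x).1 u = x.1 u) ∧
      ∀ x : X, ∀ u ∈ K, (s x).1 u = x.1 (ρ u) := by
  induction K using Finset.induction_on with
  | empty =>
    refine ⟨id, id, ?_, fun _ _ _ _ => rfl, fun _ u hu => absurd hu (Finset.notMem_empty u)⟩
    have : E ∪ ρ '' (∅ : Finset Label) = E := by simp
    rw [this]
    exact GoodOp.refl γ E
  | insert u K huK ih =>
    obtain ⟨s, T, hg, hs1, hs2⟩ := ih (fun w hw => h0 w (Finset.mem_insert_of_mem hw))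
      (fun w hw => h1 w (Finset.mem_insert_of_mem hw))
      (fun w hw => h2 w (Finset.mem_insert_of_mem hw))
      (fun w hw => h3 w (Finset.mem_insert_of_mem hw))
      (fun w hw w' hw' => h4 w (Finset.mem_insert_of_mem hw) w' (Finset.mem_insert_of_mem hw'))
    have huI := Finset.mem_insert_self u K
    have h5 : ρ u ∉ E ∪ ρ '' (K : Set Label) := by
      rintro (h | ⟨w, hw, hwu⟩)
      · exact h3 u huI h
      · have := h4 w (Finset.mem_insert_of_mem hw) u huI hwu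
        exact huK (this ▸ hw)
    have hne : u ≠ ρ u := fun h => h3 u huI (h ▸ h1 u huI)
    have h6 := goodOp_sub (E0 := E0) (hEI.union (InI.finite (K.finite_toSet.image ρ))) hγ
      (hE.trans subset_union_left) (h0 u huI) h5 hne (h2 u huI)
    refine ⟨s ∘ sub u (ρ u) (h2 u huI), subT u (ρ u) (h2 u huI) ∘ T, ?_, ?_, ?_⟩
    · have h7 : E ∪ ρ '' ((insert u K : Finset Label) : Set Label) =
          insert (ρ u) (E ∪ ρ '' (K : Set Label)) := by
        rw [Finset.coe_insert, image_insert_eq, union_insert]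
      rw [h7]
      exact hg.comp hγ hE (hE.trans subset_union_left) h6
    · intro x w hw hwK
      have hwu : w ≠ u := fun h => hwK (h ▸ huI)
      have hwK' : w ∉ K := fun h => hwK (Finset.mem_insert_of_mem h)
      change (s (sub u (ρ u) (h2 u huI) x)).1 w = x.1 w
      rw [hs1 _ w hw hwK', sub, upd_ne _ _ _ hwu]
    · intro x w hw
      change (s (sub u (ρ u) (h2 u huI) x)).1 w = x.1 (ρ w)
      rcases Finset.mem_insert.1 hw with rfl | hw
      · rw [hs1 _ _ (h1 _ huI) huK, sub, upd_same]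
      · rw [hs2 _ w hw, sub, upd_ne]
        intro h
        exact h3 w (Finset.mem_insert_of_mem hw) (h ▸ h1 u huI)

end Pool.Agent.Lib.P7aa9af
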