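import Pool.Agent.Lib.P7aa9af.Core

/-!
The support of the sequence of copies.
-/

open Set Topology TopologicalSpace Classical

namespace Pool.Agent.Lib.P7aa9af

open Pool.Agent.Lib.P6aeb5f Pool.Agent.Lib.BVM PiNat

theorem suffix_res {s : List ℤ} {f : ℕ → ℤ} {n : ℕ} (h : s <:+ res f n) :
    s = res f s.length := by
  have h1 : s.length ≤ n := by simpa [res_length] using h.length_le
  have h2 : s <:+ res f s.length :=
    List.suffix_of_suffix_length_le h (res_suffix h1) (by rw [res_length])
  exact h2.eq_of_length (by rw [res_length])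

theorem res_suffix_res {f g : ℕ → ℤ} {l m : ℕ} (h : res f l <:+ res g m) :
    l ≤ m ∧ ∀ i < l, f i = g i := by
  have h1 := suffix_res h
  rw [res_length] at h1
  refine ⟨by simpa [res_length] using h.length_le, fun i hi => ?_⟩
  exact res_eq_res.1 h1 hi

theorem InI.finite_suffix {E : Set Label} (hE : InI E) (v : List ℤ) :
    {u | u ∈ E ∧ u.1 <:+ v}.Finite := by
  have h1 : (⋃ s ∈ {s | s ∈ v.tails}, (fun j => ((s, j) : Label)) '' {j | (s, j) ∈ E}).Finite := by
    refine Set.Finite.biUnion (List.finite_toSet v.tails) fun s _ => (hE.1 s).image _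
  refine h1.subset fun u hu => ?_
  simp only [mem_iUnion]
  exact ⟨u.1, by simpa using hu.2, u.2, hu.1, rfl⟩

theorem InI_new {E : Set Label} (hE : InI E) (enc : Label → ℕ)
    (bnd : List ℤ → ℕ) (pos : Label → ℕ) (K : ℕ → Finset Label) (y : ℕ → X) (N : ℕ → ℕ)
    (hK : ∀ i, ∀ u ∈ K i, u ∈ E)
    (hfar : ∀ i, ∀ u ∈ K i, enc u < i → (i : ℤ) ≤ (y i).1 u (pos u)) :
    InI {w | ∃ i, ∃ u ∈ K i, w = (res ((y i).1 u) (max (N i) u.1.length),
      bnd (res ((y i).1 u) (max (N i) u.1.length)) + 1 + enc u)} := by
  constructor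
  · intro v
    refine ((hE.finite_suffix v).image fun u => bnd v + 1 + enc u).subset ?_
    rintro j ⟨i, u, hu, h⟩
    obtain ⟨h1, h2⟩ := Prod.mk.inj h
    refine ⟨u, ⟨hK i u hu, ?_⟩, ?_⟩
    · rw [h1]
      have h3 : res ((y i).1 u) u.1.length = u.1 := (y i).2 u
      rw [← h3]
      refine res_suffix ?_
      rw [res_length]
      exact le_max_right _ _
    · rw [h2, ← h1]
  · intro f
    obtain ⟨l0, hl0⟩ := hE.2 f
    have hF0 := hE.finite_suffix (res f l0)
    set F0 : Finset Label := hF0.toFinset with hF0def
    set Bd : Label → ℕ := fun u => max (enc u) (f (pos u)).toNat with hBd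
    set L : ℕ := F0.sup fun u => (Finset.range (Bd u + 1)).sup fun i => max (N i) u.1.length with hL
    refine ⟨l0 + F0.sup pos + 1 + L + 1, ?_⟩
    rintro _ ⟨i, u, hu, rfl⟩ hs
    set l := l0 + F0.sup pos + 1 + L + 1 with hl
    obtain ⟨h1, h2⟩ := res_suffix_res hs
    have h3 : res ((y i).1 u) u.1.length = u.1 := (y i).2 u
    have huE := hK i u hu
    -- the string of `u` is an initial part of `f`
    have h4 : u.1.length < l0 := by
      by_contra hcon
      push Not at hcon
      apply hl0 u huE
      have h5 : l0 ≤ l := by omega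
      have h6 : res f l0 = res ((y i).1 u) l0 := res_eq_res.2 fun j hj => h2 j (by omega)
      rw [h6, ← h3]
      exact res_suffix hcon
    have huF0 : u ∈ F0 := by
      rw [hF0def, Set.Finite.mem_toFinset]
      refine ⟨huE, ?_⟩
      have h5 : u.1 = res f u.1.length := by
        conv_lhs => rw [← h3]
        exact (res_eq_res.2 fun j hj => (h2 j (by omega)).symm)
      rw [h5]
      exact res_suffix (by omega)
    have hpos : pos u < l := by
      have : pos u ≤ F0.sup pos := Finset.le_sup huF0
      omega
    have hi : i ≤ Bd u := by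
      by_contra hcon
      push Not at hcon
      have h5 : enc u < i := lt_of_le_of_lt (le_max_left _ _) hcon
      have h6 := hfar i u hu h5
      rw [← h2 (pos u) hpos] at h6
      have h7 : (f (pos u)).toNat < i := lt_of_le_of_lt (le_max_right _ _) hcon
      omega
    have hM : max (N i) u.1.length ≤ L := by
      have h5 : max (N i) u.1.length ≤
          (Finset.range (Bd u + 1)).sup fun i => max (N i) u.1.length :=
        Finset.le_sup (f := fun i => max (N i) u.1.length)
          (Finset.mem_range.2 (Nat.lt_succ_of_le hi))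
      exact h5.trans (Finset.le_sup (f := fun u => (Finset.range (Bd u + 1)).sup
        fun i => max (N i) u.1.length) huF0)
    omega

end Pool.Agent.Lib.P7aa9af
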