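import Pool.Agent.Lib.P7aa9af.GRep
import Pool.Agent.Lib.P7aa9af.Abs
import Pool.Agent.Lib.BVM.SymNames

/-!
Values at generic points of the notions of `Defs`.
-/

open Set Topology TopologicalSpace Classical

namespace Pool.Agent.Lib.P7aa9af

open Pool.Agent.Lib.P6aeb5f Pool.Agent.Lib.BVM PiNat bSet

/-! ### Notions for relations on `ℕ` -/

/-- dense linear order without endpoints on `ℕ` -/
structure RDLO (r : ℕ → ℕ → Prop) : Prop where
  irrefl : ∀ n, ¬ r n n
  trans : ∀ n m k, r n m → r m k → r n k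
  total : ∀ n m, n = m ∨ r n m ∨ r m n
  dense : ∀ n m, r n m → ∃ k, r n k ∧ r k m
  noMin : ∀ n, ∃ m, r m n
  noMax : ∀ n, ∃ m, r n m

/-- cut -/
structure RCut (r : ℕ → ℕ → Prop) (s : ℕ → Prop) : Prop where
  ne : ∃ n, s n
  proper : ∃ n, ¬ s n
  down : ∀ n m, r n m → s m → s n
  noMax : ∀ n, s n → ∃ m, s m ∧ r n m

/-- irrational cut -/
def RIrr (r : ℕ → ℕ → Prop) (s : ℕ → Prop) : Prop :=
  RCut r s ∧ ∀ n, ¬ s n → ∃ m, ¬ s m ∧ r m n

/-- open interval -/
def RInt (r : ℕ → ℕ → Prop) (a b : ℕ) (s : ℕ → Prop) : Prop := s a ∧ ∃ m, ¬ s m ∧ r m b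

/-- convergence -/
def RConv (r : ℕ → ℕ → Prop) (R : ℕ → ℕ → Prop) (s : ℕ → Prop) : Prop :=
  ∀ a b, RInt r a b s → ∃ m, ∀ n, m ≤ n → RInt r a b (R n)

variable {r : ℕ → ℕ → Prop}

/-- the set of natural numbers coded at a point -/
def at' (c : ℕ → RB X) (x : X) (n : ℕ) : Prop := x ∈ (c n).val

theorem grep_mem (c : ℕ → RB X) (n : ℕ) :
    GRep (fun U => E U (q U (num n)) (q U (rname c))) (fun x => at' c x n) :=
  (GRep.of_mem (c n)).congrL fun _ => mem_rname

theorem grep_app (n m : ℕ) :
    GRep (fun U => App (E U) (q U (lname (RB X) r)) (q U (num n)) (q U (num m)))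
      (fun _ => r n m) := (GRep.of_prop _).congrL fun _ => app_lname

theorem grep_true {P : Ultra (RB X) → Prop} (h : ∀ U, P U) : GRep P (fun _ => True) :=
  (GRep.of_prop True).congrL fun U => ⟨fun _ => trivial, fun _ => h U⟩

theorem grep_cut (c : ℕ → RB X) :
    GRep (fun U => IsCut (E U) (q U omega) (q U (lname (RB X) r)) (q U (rname c)))
      (fun x => RCut r (at' c x)) := by
  have h0 : GRep (fun U => ∀ z, E U z (q U (rname c)) → E U z (q U omega)) (fun _ => True) :=
    grep_true fun U z hz => rname_sub hz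
  have h1 : GRep (fun U => ∃ m, E U m (q U omega) ∧ E U m (q U (rname c)))
      (fun x => ∃ n, at' c x n) :=
    GRep.bex (P := fun U m => E U m (q U (rname c))) (fun x => BV.mem _ _) (grep_mem c)
  have h2 : GRep (fun U => ∃ m, E U m (q U omega) ∧ ¬ E U m (q U (rname c)))
      (fun x => ∃ n, ¬ at' c x n) :=
    GRep.bex (P := fun U m => ¬ E U m (q U (rname c))) (fun x => (BV.mem _ _).not)
      (fun n => (grep_mem c n).not)
  have h3 : GRep (fun U => ∀ z, E U z (q U omega) → ∀ y, E U y (q U omega) →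
      App (E U) (q U (lname (RB X) r)) z y → E U y (q U (rname c)) → E U z (q U (rname c)))
      (fun x => ∀ n m, r n m → at' c x m → at' c x n) := by
    refine GRep.ball (P := fun U z => ∀ y, E U y (q U omega) →
      App (E U) (q U (lname (RB X) r)) z y → E U y (q U (rname c)) → E U z (q U (rname c)))
      (fun z => BV.all fun y => (BV.mem _ _).imp ((BV.app _ _ _).imp ((BV.mem _ _).imp
        (BV.mem _ _)))) fun n => ?_
    exact GRep.ball (P := fun U y => App (E U) (q U (lname (RB X) r)) (q U (num n)) y →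
      E U y (q U (rname c)) → E U (q U (num n)) (q U (rname c)))
      (fun y => (BV.app _ _ _).imp ((BV.mem _ _).imp (BV.mem _ _)))
      fun m => (grep_app n m).imp ((grep_mem c m).imp (grep_mem c n))
  have h4 : GRep (fun U => ∀ z, E U z (q U omega) → E U z (q U (rname c)) →
      ∃ y, E U y (q U omega) ∧ E U y (q U (rname c)) ∧ App (E U) (q U (lname (RB X) r)) z y)
      (fun x => ∀ n, at' c x n → ∃ m, at' c x m ∧ r n m) := by
    refine GRep.ball (P := fun U z => E U z (q U (rname c)) →
      ∃ y, E U y (q U omega) ∧ E U y (q U (rname c)) ∧ App (E U) (q U (lname (RB X) r)) z y)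
      (fun z => (BV.mem _ _).imp (BV.ex fun y => (BV.mem _ _).and ((BV.mem _ _).and
        (BV.app _ _ _)))) fun n => ?_
    refine (grep_mem c n).imp ?_
    exact GRep.bex (P := fun U y => E U y (q U (rname c)) ∧
      App (E U) (q U (lname (RB X) r)) (q U (num n)) y) (fun y => (BV.mem _ _).and (BV.app _ _ _))
      fun m => (grep_mem c m).and (grep_app n m)
  refine ((h0.and (h1.and (h2.and (h3.and h4)))).congrL fun U => ?_).congrR fun x => ?_
  · exact ⟨fun h => ⟨h.sub, h.ne, h.proper, fun x hx y hy => h.down x y hx hy, h.noMax⟩,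
      fun h => ⟨h.1, h.2.1, h.2.2.1, fun x y hx hy => h.2.2.2.1 x hx y hy, h.2.2.2.2⟩⟩
  · exact ⟨fun h => ⟨h.2.1, h.2.2.1, h.2.2.2.1, h.2.2.2.2⟩,
      fun h => ⟨trivial, h.ne, h.proper, h.down, h.noMax⟩⟩

theorem grep_irr (c : ℕ → RB X) :
    GRep (fun U => IsIrrCut (E U) (q U omega) (q U (lname (RB X) r)) (q U (rname c)))
      (fun x => RIrr r (at' c x)) := by
  refine (grep_cut c).and ?_
  refine GRep.ball (P := fun U z => ¬ E U z (q U (rname c)) →
    ∃ y, E U y (q U omega) ∧ ¬ E U y (q U (rname c)) ∧ App (E U) (q U (lname (RB X) r)) y z)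
    (fun z => (BV.mem _ _).not.imp (BV.ex fun y => (BV.mem _ _).and ((BV.mem _ _).not.and
        (BV.app _ _ _)))) fun n => ?_
  refine (grep_mem c n).not.imp ?_
  exact GRep.bex (P := fun U y => ¬ E U y (q U (rname c)) ∧
    App (E U) (q U (lname (RB X) r)) y (q U (num n)))
    (fun y => (BV.mem _ _).not.and (BV.app _ _ _))
    fun m => (grep_mem c m).not.and (grep_app m n)

theorem grep_int (c : ℕ → RB X) (a b : ℕ) :
    GRep (fun U => InInt (E U) (q U omega) (q U (lname (RB X) r)) (q U (num a)) (q U (num b))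
      (q U (rname c))) (fun x => RInt r a b (at' c x)) := by
  refine (grep_mem c a).and ?_
  exact GRep.bex (P := fun U y => ¬ E U y (q U (rname c)) ∧
    App (E U) (q U (lname (RB X) r)) y (q U (num b)))
    (fun y => (BV.mem _ _).not.and (BV.app _ _ _))
    fun m => (grep_mem c m).not.and (grep_app m b)

theorem grep_dlo :
    GRep (fun U => IsDLO (E U) (q U omega) (q U (lname (RB X) r))) (fun _ => RDLO r) := by
  have h1 : GRep (fun U => ∀ z, E U z (q U omega) → ¬ App (E U) (q U (lname (RB X) r)) z z)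
      (fun _ => ∀ n, ¬ r n n) :=
    GRep.ball (P := fun U z => ¬ App (E U) (q U (lname (RB X) r)) z z)
      (fun z => (BV.app _ _ _).not) fun n => (grep_app n n).not
  have h2 : GRep (fun U => ∀ z, E U z (q U omega) → ∀ y, E U y (q U omega) →
      ∀ t, E U t (q U omega) → App (E U) (q U (lname (RB X) r)) z y →
      App (E U) (q U (lname (RB X) r)) y t → App (E U) (q U (lname (RB X) r)) z t)
      (fun _ => ∀ n m k, r n m → r m k → r n k) := by
    refine GRep.ball (P := fun U z => ∀ y, E U y (q U omega) →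
      ∀ t, E U t (q U omega) → App (E U) (q U (lname (RB X) r)) z y →
      App (E U) (q U (lname (RB X) r)) y t → App (E U) (q U (lname (RB X) r)) z t)
      (fun z => BV.all fun y => (BV.mem _ _).imp (BV.all fun t => (BV.mem _ _).imp
        ((BV.app _ _ _).imp ((BV.app _ _ _).imp (BV.app _ _ _))))) fun n => ?_
    refine GRep.ball (P := fun U y => ∀ t, E U t (q U omega) →
      App (E U) (q U (lname (RB X) r)) (q U (num n)) y →
      App (E U) (q U (lname (RB X) r)) y t → App (E U) (q U (lname (RB X) r)) (q U (num n)) t)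
      (fun y => BV.all fun t => (BV.mem _ _).imp
        ((BV.app _ _ _).imp ((BV.app _ _ _).imp (BV.app _ _ _)))) fun m => ?_
    exact GRep.ball (P := fun U t => App (E U) (q U (lname (RB X) r)) (q U (num n)) (q U (num m)) →
      App (E U) (q U (lname (RB X) r)) (q U (num m)) t →
      App (E U) (q U (lname (RB X) r)) (q U (num n)) t)
      (fun t => (BV.app _ _ _).imp ((BV.app _ _ _).imp (BV.app _ _ _)))
      fun k => (grep_app n m).imp ((grep_app m k).imp (grep_app n k))
  have hnum : ∀ n m : ℕ, GRep (fun U => q U (num n) = q U (num m)) (fun _ => n = m) := fun n m =>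
    (GRep.of_prop (n = m)).congrL fun U => ⟨fun h => num_inj h, fun h => h ▸ rfl⟩
  have h3 : GRep (fun U => ∀ z, E U z (q U omega) → ∀ y, E U y (q U omega) →
      (z = y ∨ App (E U) (q U (lname (RB X) r)) z y ∨ App (E U) (q U (lname (RB X) r)) y z))
      (fun _ => ∀ n m, n = m ∨ r n m ∨ r m n) := by
    refine GRep.ball (P := fun U z => ∀ y, E U y (q U omega) →
      (z = y ∨ App (E U) (q U (lname (RB X) r)) z y ∨ App (E U) (q U (lname (RB X) r)) y z))
      (fun z => BV.all fun y => (BV.mem _ _).imp ((BV.eq _ _).or ((BV.app _ _ _).or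
        (BV.app _ _ _)))) fun n => ?_
    exact GRep.ball (P := fun U y => (q U (num n) = y ∨
      App (E U) (q U (lname (RB X) r)) (q U (num n)) y ∨
      App (E U) (q U (lname (RB X) r)) y (q U (num n))))
      (fun y => (BV.eq _ _).or ((BV.app _ _ _).or (BV.app _ _ _)))
      fun m => (hnum n m).or ((grep_app n m).or (grep_app m n))
  have h4 : GRep (fun U => ∀ z, E U z (q U omega) → ∀ y, E U y (q U omega) →
      App (E U) (q U (lname (RB X) r)) z y → ∃ t, E U t (q U omega) ∧
      App (E U) (q U (lname (RB X) r)) z t ∧ App (E U) (q U (lname (RB X) r)) t y)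
      (fun _ => ∀ n m, r n m → ∃ k, r n k ∧ r k m) := by
    refine GRep.ball (P := fun U z => ∀ y, E U y (q U omega) →
      App (E U) (q U (lname (RB X) r)) z y → ∃ t, E U t (q U omega) ∧
      App (E U) (q U (lname (RB X) r)) z t ∧ App (E U) (q U (lname (RB X) r)) t y)
      (fun z => BV.all fun y => (BV.mem _ _).imp ((BV.app _ _ _).imp (BV.ex fun t =>
        (BV.mem _ _).and ((BV.app _ _ _).and (BV.app _ _ _))))) fun n => ?_
    refine GRep.ball (P := fun U y => App (E U) (q U (lname (RB X) r)) (q U (num n)) y →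
      ∃ t, E U t (q U omega) ∧
      App (E U) (q U (lname (RB X) r)) (q U (num n)) t ∧ App (E U) (q U (lname (RB X) r)) t y)
      (fun y => (BV.app _ _ _).imp (BV.ex fun t =>
        (BV.mem _ _).and ((BV.app _ _ _).and (BV.app _ _ _)))) fun m => ?_
    refine (grep_app n m).imp ?_
    exact GRep.bex (P := fun U t => App (E U) (q U (lname (RB X) r)) (q U (num n)) t ∧
      App (E U) (q U (lname (RB X) r)) t (q U (num m)))
      (fun t => (BV.app _ _ _).and (BV.app _ _ _)) fun k => (grep_app n k).and (grep_app k m)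
  have h5 : GRep (fun U => ∀ z, E U z (q U omega) → ∃ y, E U y (q U omega) ∧
      App (E U) (q U (lname (RB X) r)) y z) (fun _ => ∀ n, ∃ m, r m n) := by
    refine GRep.ball (P := fun U z => ∃ y, E U y (q U omega) ∧
      App (E U) (q U (lname (RB X) r)) y z)
      (fun z => BV.ex fun t => (BV.mem _ _).and (BV.app _ _ _)) fun n => ?_
    exact GRep.bex (P := fun U y => App (E U) (q U (lname (RB X) r)) y (q U (num n)))
      (fun y => BV.app _ _ _) fun m => grep_app m n
  have h6 : GRep (fun U => ∀ z, E U z (q U omega) → ∃ y, E U y (q U omega) ∧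
      App (E U) (q U (lname (RB X) r)) z y) (fun _ => ∀ n, ∃ m, r n m) := by
    refine GRep.ball (P := fun U z => ∃ y, E U y (q U omega) ∧
      App (E U) (q U (lname (RB X) r)) z y)
      (fun z => BV.ex fun t => (BV.mem _ _).and (BV.app _ _ _)) fun n => ?_
    exact GRep.bex (P := fun U y => App (E U) (q U (lname (RB X) r)) (q U (num n)) y)
      (fun y => BV.app _ _ _) fun m => grep_app n m
  refine ((h1.and (h2.and (h3.and (h4.and (h5.and h6))))).congrL fun U => ?_).congrR fun x => ?_
  · exact ⟨fun h => ⟨h.irrefl, fun x hx y hy z hz => h.trans x y z hx hy hz,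
      fun x hx y hy => h.total x y hx hy, fun x hx y hy => h.dense x y hx hy, h.noMin, h.noMax⟩,
      fun h => ⟨h.1, fun x y z hx hy hz => h.2.1 x hx y hy z hz,
      fun x y hx hy => h.2.2.1 x hx y hy, fun x y hx hy => h.2.2.2.1 x hx y hy, h.2.2.2.2.1,
      h.2.2.2.2.2⟩⟩
  · exact ⟨fun h => ⟨h.1, h.2.1, h.2.2.1, h.2.2.2.1, h.2.2.2.2.1, h.2.2.2.2.2⟩,
      fun h => ⟨h.irrefl, h.trans, h.total, h.dense, h.noMin, h.noMax⟩⟩

theorem grep_conv (R : ℕ → ℕ → RB X) (c : ℕ → RB X) :
    GRep (fun U => ConvTo (E U) (q U omega) (q U (lname (RB X) r)) (q U (sname R)) (q U (rname c)))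
      (fun x => RConv r (fun n => at' (R n) x) (at' c x)) := by
  have h1 : GRep (fun U => ∀ a, E U a (q U omega) → ∀ b, E U b (q U omega) →
      InInt (E U) (q U omega) (q U (lname (RB X) r)) a b (q U (rname c)) →
      ∃ m, E U m (q U omega) ∧ ∀ n, E U n (q U omega) → (n = m ∨ E U m n) →
        ∀ d, App (E U) (q U (sname R)) n d →
          InInt (E U) (q U omega) (q U (lname (RB X) r)) a b d)
      (fun x => ∀ a b, RInt r a b (at' c x) → ∃ m, ∀ n, m ≤ n → RInt r a b (at' (R n) x)) := by
    refine GRep.ball (P := fun U a => ∀ b, E U b (q U omega) →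
      InInt (E U) (q U omega) (q U (lname (RB X) r)) a b (q U (rname c)) →
      ∃ m, E U m (q U omega) ∧ ∀ n, E U n (q U omega) → (n = m ∨ E U m n) →
        ∀ d, App (E U) (q U (sname R)) n d →
          InInt (E U) (q U omega) (q U (lname (RB X) r)) a b d)
      (fun a => BV.all fun b => (BV.mem _ _).imp ((BV.inInt _ _ _ _ _).imp (BV.ex fun m =>
        (BV.mem _ _).and (BV.all fun n => (BV.mem _ _).imp (((BV.eq _ _).or (BV.mem _ _)).imp
        (BV.all fun d => (BV.app _ _ _).imp (BV.inInt _ _ _ _ _))))))) fun a => ?_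
    refine GRep.ball (P := fun U b =>
      InInt (E U) (q U omega) (q U (lname (RB X) r)) (q U (num a)) b (q U (rname c)) →
      ∃ m, E U m (q U omega) ∧ ∀ n, E U n (q U omega) → (n = m ∨ E U m n) →
        ∀ d, App (E U) (q U (sname R)) n d →
          InInt (E U) (q U omega) (q U (lname (RB X) r)) (q U (num a)) b d)
      (fun b => (BV.inInt _ _ _ _ _).imp (BV.ex fun m =>
        (BV.mem _ _).and (BV.all fun n => (BV.mem _ _).imp (((BV.eq _ _).or (BV.mem _ _)).imp
        (BV.all fun d => (BV.app _ _ _).imp (BV.inInt _ _ _ _ _)))))) fun b => ?_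
    refine (grep_int c a b).imp ?_
    refine GRep.bex (P := fun U m => ∀ n, E U n (q U omega) → (n = m ∨ E U m n) →
        ∀ d, App (E U) (q U (sname R)) n d →
          InInt (E U) (q U omega) (q U (lname (RB X) r)) (q U (num a)) (q U (num b)) d)
      (fun m => (BV.all fun n => (BV.mem _ _).imp (((BV.eq _ _).or (BV.mem _ _)).imp
        (BV.all fun d => (BV.app _ _ _).imp (BV.inInt _ _ _ _ _))))) fun m => ?_
    refine GRep.ball (P := fun U n => (n = q U (num m) ∨ E U (q U (num m)) n) →
        ∀ d, App (E U) (q U (sname R)) n d →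
          InInt (E U) (q U omega) (q U (lname (RB X) r)) (q U (num a)) (q U (num b)) d)
      (fun n => ((BV.eq _ _).or (BV.mem _ _)).imp
        (BV.all fun d => (BV.app _ _ _).imp (BV.inInt _ _ _ _ _))) fun n => ?_
    have h2 : GRep (fun U : Ultra (RB X) => (q U (num n) = q U (num m) ∨
        E U (q U (num m)) (q U (num n)))) (fun _ => m ≤ n) := by
      refine (GRep.of_prop (m ≤ n)).congrL fun U => ?_
      rw [E_num_num]
      constructor
      · rintro (h | h)
        · exact (num_inj h).ge
        · exact h.le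
      · intro h
        rcases h.eq_or_lt with rfl | h
        · exact Or.inl rfl
        · exact Or.inr h
    refine h2.imp ((grep_int (R n) a b).congrL fun U => ?_)
    constructor
    · exact fun h => h _ (app_sname.2 rfl)
    · intro h d hd
      rw [app_sname.1 hd]
      exact h
  refine h1.congrL fun U => ?_
  exact ⟨fun h a ha b hb => h a b ha hb, fun h a b ha hb => h a ha b hb⟩

end Pool.Agent.Lib.P7aa9af
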